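import Pool.Agent.Run7.h324.Codes

/-! Boundedness: a continuous family of wellfounded relations has bounded ranks. -/

open Set Filter Topology Ordinal

namespace Run7.h324

theorem acc_rank_lt_omega_one {α : Type} [Countable α] {r : α → α → Prop} {a : α} (h : Acc r a) :
    h.rank < ω₁ := by
  induction h with
  | intro i h ih =>
    rw [Acc.rank_eq]
    refine Ordinal.iSup_lt_omega_one fun j => ?_
    exact (Cardinal.isSuccLimit_omega 1).succ_lt (ih j j.2)

/-- the tree of attempts to build a real and a descending sequence in its relation -/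
def nrel (f : B → B) (p' p : List ℕ × List ℕ) : Prop :=
  ∃ x y t, p.2 = y :: t ∧ p'.2 = x :: y :: t ∧ p.1 <+: p'.1 ∧ p.1.length < p'.1.length ∧
    ∀ m, pre p'.1 m → lt (f m) x y

theorem exists_real_of_chain (s : ℕ → List ℕ) (h1 : ∀ n, s n <+: s (n + 1))
    (h2 : ∀ n, (s n).length < (s (n + 1)).length) : ∃ m : B, ∀ n, pre (s n) m := by
  have hmono : ∀ {a b : ℕ}, a ≤ b → s a <+: s b := by
    intro a b hab
    induction b, hab using Nat.le_induction with
    | base => exact List.prefix_rfl
    | succ n _ ih => exact ih.trans (h1 n)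
  have hlen : ∀ n, n ≤ (s n).length := by
    intro n
    induction n with
    | zero => simp
    | succ n ih => have := h2 n; omega
  refine ⟨fun i => (s (i + 1)).getD i 0, fun n i hi => ?_⟩
  have h3 : i < (s (i + 1)).length := lt_of_lt_of_le (Nat.lt_succ_self i) (hlen (i + 1))
  change _ = (s (i + 1)).getD i 0
  rw [List.getD_eq_getElem _ _ h3]
  rcases le_total n (i + 1) with h | h
  · exact List.IsPrefix.getElem (hmono h) hi
  · exact (List.IsPrefix.getElem (hmono h) h3).symm

theorem nrel_wf {f : B → B} (hf : ∀ m, WellFounded (lt (f m))) : WellFounded (nrel f) := by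
  rw [wellFounded_iff_isEmpty_descending_chain]
  constructor
  rintro ⟨p, hp⟩
  choose x y t h1 h2 h3 h4 h5 using hp
  obtain ⟨m, hm⟩ := exists_real_of_chain (fun n => (p n).1) h3 h4
  have h6 : ∀ n, y (n + 1) = x n := by
    intro n
    have := h1 (n + 1)
    rw [h2 n] at this
    simp at this
    exact this.1.symm
  refine (wellFounded_iff_isEmpty_descending_chain.1 (hf m)).false ⟨y, fun n => ?_⟩
  rw [h6 n]
  exact h5 n m (hm (n + 1))

theorem rk_le_node {f : B → B} (hc : Continuous f) (hf : ∀ m, WellFounded (lt (f m))) (m : B) (y : ℕ) :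
    ∀ s t, pre s m → rk (f m) y ≤ ((nrel_wf hf).apply (s, y :: t)).rank := by
  induction y using (hf m).induction with
  | _ y ih =>
    intro s t hs
    refine rk_le (hf m) fun j hj => ?_
    have ho : IsOpen {m' | lt (f m') j y} := by
      have : {m' | lt (f m') j y} = (fun m' => f m' (Nat.pair j y)) ⁻¹' {1} := by
        ext; simp [lt]
      rw [this]
      exact (isOpen_discrete _).preimage ((continuous_apply _).comp hc)
    obtain ⟨n, hn⟩ := exists_pre_subset ho hj
    let s' := (List.range (max n (s.length + 1))).map m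
    have hs' : pre s' m := pre_map_range _ _
    refine (ih j hj s' (y :: t) hs').trans_lt ?_
    apply Acc.rank_lt_of_rel
    refine ⟨j, y, t, rfl, rfl, prefix_of_pre hs hs' (by simp [s']), ?_, ?_⟩
    · simp [s']
    · intro m' hm'
      refine hn m' (pre_of_prefix ?_ hm')
      exact prefix_of_pre (pre_map_range m n) hs' (by simp [s'])

/-- Boundedness. -/
theorem boundedness {f : B → B} (hc : Continuous f) (hf : ∀ m, WellFounded (lt (f m))) :
    ∃ γ < ω₁, ∀ m i, rk (f m) i < γ := by
  refine ⟨⨆ p : List ℕ × List ℕ, Order.succ ((nrel_wf hf).apply p).rank,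
    Ordinal.iSup_lt_omega_one fun p => (Cardinal.isSuccLimit_omega 1).succ_lt (acc_rank_lt_omega_one _), ?_⟩
  intro m i
  refine (rk_le_node hc hf m i [] [] (pre_nil m)).trans_lt ?_
  exact (Order.lt_succ _).trans_le (Ordinal.le_iSup
    (fun p : List ℕ × List ℕ => Order.succ ((nrel_wf hf).apply p).rank) ([], [i]))

end Run7.h324
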