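import Pool.Agent.Run7.h324.Defs

/-! Baire category on the Baire space: interleaving, the Kuratowski-Ulam theorem (easy direction),
inverse limits of residual sets. -/

open Set Filter Topology

namespace Run7.h324

@[simp] theorem evn_join (x y : B) : evn (join x y) = x := by
  funext n
  simp [evn, join]

@[simp] theorem odd_join (x y : B) : odd (join x y) = y := by
  funext n
  have h1 : (2 * n + 1) % 2 = 1 := by omega
  have h2 : (2 * n + 1) / 2 = n := by omega
  simp [odd, join, h1, h2]

@[simp] theorem join_evn_odd (x : B) : join (evn x) (odd x) = x := by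
  funext n
  rcases Nat.even_or_odd' n with ⟨k, rfl | rfl⟩
  · simp [evn, join]
  · have h1 : (2 * k + 1) % 2 = 1 := by omega
    have h2 : (2 * k + 1) / 2 = k := by omega
    simp [odd, join, h1, h2]

theorem continuous_evn : Continuous evn := by
  unfold evn; fun_prop

theorem continuous_odd : Continuous odd := by
  unfold odd; fun_prop

theorem continuous_join : Continuous (fun p : B × B => join p.1 p.2) := by
  refine continuous_pi fun n => ?_
  unfold join
  split_ifs <;> fun_prop

/-- the homeomorphism between pairs of reals and reals -/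
def joinHomeo : B × B ≃ₜ B where
  toFun p := join p.1 p.2
  invFun x := (evn x, odd x)
  left_inv p := by simp
  right_inv x := by simp
  continuous_toFun := continuous_join
  continuous_invFun := continuous_evn.prodMk continuous_odd

/-- Kuratowski-Ulam, easy direction. -/
theorem kuratowski_ulam {X Y : Type*} [TopologicalSpace X] [TopologicalSpace Y]
    [SecondCountableTopology Y] {S : Set (X × Y)} (hS : S ∈ residual (X × Y)) :
    ∀ᶠ x in residual X, ∀ᶠ y in residual Y, (x, y) ∈ S := by
  rw [mem_residual_iff] at hS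
  obtain ⟨F, hFo, hFd, hFc, hFS⟩ := hS
  have key : ∀ O ∈ F, ∀ᶠ x in residual X, ∀ᶠ y in residual Y, (x, y) ∈ O := by
    intro O hO
    have hOo := hFo O hO
    have hOd := hFd O hO
    have h1 : ∀ V ∈ TopologicalSpace.countableBasis Y, ∀ᶠ x in residual X, ∃ y ∈ V, (x, y) ∈ O := by
      intro V hV
      have hVo : IsOpen V := TopologicalSpace.isOpen_of_mem_countableBasis hV
      have hVn : V.Nonempty := TopologicalSpace.nonempty_of_mem_countableBasis hV
      have he : {x | ∃ y ∈ V, (x, y) ∈ O} = Prod.fst '' (O ∩ (univ ×ˢ V)) := by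
        ext x
        constructor
        · rintro ⟨y, hy, hxy⟩
          exact ⟨(x, y), ⟨hxy, mem_univ _, hy⟩, rfl⟩
        · rintro ⟨⟨x', y⟩, ⟨hxy, _, hy⟩, rfl⟩
          exact ⟨y, hy, hxy⟩
      have ho : IsOpen {x | ∃ y ∈ V, (x, y) ∈ O} := by
        rw [he]
        exact isOpenMap_fst _ (hOo.inter (isOpen_univ.prod hVo))
      have hd : Dense {x | ∃ y ∈ V, (x, y) ∈ O} := by
        rw [dense_iff_inter_open]
        intro U hU hUn
        obtain ⟨⟨x, y⟩, hxy, hxyO⟩ := dense_iff_inter_open.1 hOd (U ×ˢ V) (hU.prod hVo)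
          (hUn.prod hVn)
        exact ⟨x, hxy.1, y, hxy.2, hxyO⟩
      exact residual_of_dense_open ho hd
    have h2 : ∀ᶠ x in residual X, ∀ V ∈ TopologicalSpace.countableBasis Y, ∃ y ∈ V, (x, y) ∈ O :=
      (eventually_countable_ball (TopologicalSpace.countable_countableBasis Y)).2 h1
    filter_upwards [h2] with x hx
    refine residual_of_dense_open (hOo.preimage (by fun_prop : Continuous fun y => (x, y))) ?_
    rw [(TopologicalSpace.isBasis_countableBasis Y).dense_iff]
    intro V hV _
    obtain ⟨y, hy, hxy⟩ := hx V hV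
    exact ⟨y, hy, hxy⟩
  have h3 : ∀ᶠ x in residual X, ∀ O ∈ F, ∀ᶠ y in residual Y, (x, y) ∈ O :=
    (eventually_countable_ball hFc).2 key
  filter_upwards [h3] with x hx
  have h4 : ∀ᶠ y in residual Y, ∀ O ∈ F, (x, y) ∈ O := (eventually_countable_ball hFc).2 hx
  filter_upwards [h4] with y hy
  exact hFS fun O hO => hy O hO

/-- Kuratowski-Ulam for `join`. -/
theorem ku_join {S : Set B} (hS : S ∈ residual B) :
    ∀ᶠ y in residual B, ∀ᶠ z in residual B, join y z ∈ S := by
  have h : joinHomeo ⁻¹' S ∈ residual (B × B) := by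
    have := joinHomeo.residual_map_eq
    rw [← this] at hS
    exact hS
  exact kuratowski_ulam h

/-- Kuratowski-Ulam for `join`, other order. -/
theorem ku_join' {S : Set B} (hS : S ∈ residual B) :
    ∀ᶠ z in residual B, ∀ᶠ y in residual B, join y z ∈ S := by
  have h : ((Homeomorph.prodComm B B).trans joinHomeo) ⁻¹' S ∈ residual (B × B) := by
    have := ((Homeomorph.prodComm B B).trans joinHomeo).residual_map_eq
    rw [← this] at hS
    exact hS
  exact kuratowski_ulam h

theorem isOpenMap_evn : IsOpenMap evn := by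
  have : evn = Prod.fst ∘ joinHomeo.symm := by
    funext x; rfl
  rw [this]
  exact isOpenMap_fst.comp joinHomeo.symm.isOpenMap

theorem residual_evn {S : Set B} (hS : S ∈ residual B) : ∀ᶠ x in residual B, evn x ∈ S :=
  tendsto_residual_of_isOpenMap continuous_evn isOpenMap_evn hS

theorem residual_evn_iter {S : Set B} (hS : S ∈ residual B) (n : ℕ) :
    ∀ᶠ x in residual B, evn^[n] x ∈ S := by
  induction n with
  | zero => simpa using hS
  | succ n ih =>
    have := residual_evn ih
    filter_upwards [this] with x hx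
    simpa using hx

/-- the operator `∀ᵇ z, join y z ∈ S` -/
def Q (S : Set B) : Set B := {y | ∀ᶠ z in residual B, join y z ∈ S}

theorem Q_residual {S : Set B} (hS : S ∈ residual B) : Q S ∈ residual B := ku_join hS

theorem Q_iter_residual {S : Set B} (hS : S ∈ residual B) (n : ℕ) : Q^[n] S ∈ residual B := by
  induction n with
  | zero => simpa using hS
  | succ n ih =>
    rw [Function.iterate_succ_apply']
    exact Q_residual ih

instance : BaireSpace B := inferInstance

/-- Coherent sequences through residual sets. -/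
theorem coherent_seq {S : ℕ → Set B} (hS : ∀ k, S k ∈ residual B) {W : Set B} (hW : IsOpen W)
    (hWn : W.Nonempty) :
    ∃ y : ℕ → B, y 0 ∈ W ∧ (∀ k, evn (y (k + 1)) = y k) ∧ ∀ k, y k ∈ S k := by
  let H : ℕ → Set B := fun j => ⋂ i, Q^[i] (S (j + i))
  have hH : ∀ j, H j ∈ residual B := fun j => by
    rw [countable_iInter_mem]
    exact fun i => Q_iter_residual (hS _) i
  have hstep : ∀ j, ∀ y ∈ H j, ∃ z, join y z ∈ H (j + 1) := by
    intro j y hy
    have h1 : ∀ i, ∀ᶠ z in residual B, join y z ∈ Q^[i] (S (j + 1 + i)) := by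
      intro i
      have h2 := mem_iInter.1 hy (i + 1)
      rw [Function.iterate_succ_apply'] at h2
      have h3 : j + (i + 1) = j + 1 + i := by omega
      rw [h3] at h2
      exact h2
    have h4 : ∀ᶠ z in residual B, ∀ i, join y z ∈ Q^[i] (S (j + 1 + i)) := eventually_countable_forall.2 h1
    obtain ⟨z, hz⟩ := (dense_of_mem_residual h4).nonempty
    exact ⟨z, mem_iInter.2 hz⟩
  obtain ⟨y0, hy0W, hy0⟩ := (dense_of_mem_residual (hH 0)).inter_open_nonempty W hW hWn
  let f : (k : ℕ) → {y // y ∈ H k} := fun k => Nat.rec ⟨y0, hy0⟩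
    (fun k y => ⟨join y.1 (hstep k y.1 y.2).choose, (hstep k y.1 y.2).choose_spec⟩) k
  refine ⟨fun k => (f k).1, hy0W, fun k => ?_, fun k => ?_⟩
  · change evn (join (f k).1 _) = _
    simp
  · have := mem_iInter.1 (f k).2 0
    simpa using this

end Run7.h324
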