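import Pool.Agent.Run7.h324.Game

/-! Codes of countable ordinals. -/

open Set Filter Topology Ordinal

namespace Run7.h324

/-- `v` codes a wellordering of `ℕ` (its strict part). -/
structure WO (v : B) : Prop extends PWO v where
  tot : ∀ i j, i ≠ j → lt v i j ∨ lt v j i

theorem PWO.wellFounded {v : B} (h : PWO v) : WellFounded (lt v) :=
  wellFounded_iff_isEmpty_descending_chain.2 ⟨fun f => h.wf f.1 f.2⟩

theorem PWO.irrefl {v : B} (h : PWO v) (i : ℕ) : ¬ lt v i i := fun h' =>
  h.wf (fun _ => i) fun _ => h'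

theorem rk_eq {v : B} (h : WellFounded (lt v)) (i : ℕ) : rk v i = (h.apply i).rank := by
  rw [rk, dif_pos]

theorem rk_eq_iSup {v : B} (h : WellFounded (lt v)) (i : ℕ) :
    rk v i = ⨆ j : {j // lt v j i}, Order.succ (rk v j) := by
  rw [rk_eq h, Acc.rank_eq]
  congr 1
  funext j
  rw [rk_eq h]

theorem rk_lt {v : B} (h : WellFounded (lt v)) {i j : ℕ} (hij : lt v i j) : rk v i < rk v j := by
  rw [rk_eq_iSup h j]
  exact (Order.lt_succ _).trans_le (Ordinal.le_iSup (fun j' : {j' // lt v j' j} => Order.succ (rk v j'))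
    (⟨i, hij⟩ : {j' // lt v j' j}))

theorem rk_le {v : B} (h : WellFounded (lt v)) {i : ℕ} {o : Ordinal} (ho : ∀ j, lt v j i → rk v j < o) :
    rk v i ≤ o := by
  rw [rk_eq_iSup h i]
  exact Ordinal.iSup_le fun j => Order.succ_le_of_lt (ho j j.2)

theorem PWO.lt_iff {v : B} (h : PWO v) {i j : ℕ} : lt v i j ↔ rk v i < rk v j := by
  constructor
  · exact rk_lt h.wellFounded
  · intro hr
    by_contra hn
    refine absurd hr (not_lt.2 (rk_le h.wellFounded fun k hk => ?_))
    rcases h.ntrans k i j hk with h1 | h1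
    · exact rk_lt h.wellFounded h1
    · exact absurd h1 hn

theorem exists_rk_eq {v : B} (h : PWO v) {i : ℕ} {o : Ordinal} (ho : o < rk v i) :
    ∃ j, lt v j i ∧ rk v j = o := by
  induction i using h.wellFounded.induction with
  | _ i ih =>
    rw [rk_eq_iSup h.wellFounded, Ordinal.lt_iSup_iff] at ho
    obtain ⟨⟨j, hj⟩, ho⟩ := ho
    rw [Order.lt_succ_iff] at ho
    rcases ho.eq_or_lt with ho | ho
    · exact ⟨j, hj, ho.symm⟩
    · obtain ⟨k, hk, hk'⟩ := ih j hj ho
      exact ⟨k, h.trans _ _ _ hk hj, hk'⟩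

theorem WO.rk_inj {w : B} (h : WO w) {i j : ℕ} (hij : rk w i = rk w j) : i = j := by
  by_contra hne
  rcases h.tot i j hne with h1 | h1
  · exact absurd hij (ne_of_lt (h.toPWO.lt_iff.1 h1))
  · exact absurd hij (ne_of_gt (h.toPWO.lt_iff.1 h1))

theorem rk_lt_omega_one (v : B) (i : ℕ) : rk v i < ω₁ := by
  by_cases h : Acc (lt v) i
  · rw [rk, dif_pos h]
    induction h with
    | intro i h ih =>
      rw [Acc.rank_eq]
      refine Ordinal.iSup_lt_omega_one fun j => ?_
      have := ih j j.2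
      exact (Cardinal.isSuccLimit_omega 1).succ_lt this
  · rw [rk, dif_neg h]
    exact Ordinal.omega_pos 1

/-- Projective definition of the equality of ranks. -/
def RkEq (w : B) (m : ℕ) (v : B) (n : ℕ) : Prop :=
  ∃ Z : B, Z (Nat.pair m n) = 1 ∧ ∀ m' n', Z (Nat.pair m' n') = 1 →
    (∀ m'', lt w m'' m' → ∃ n'', lt v n'' n' ∧ Z (Nat.pair m'' n'') = 1) ∧
    (∀ n'', lt v n'' n' → ∃ m'', lt w m'' m' ∧ Z (Nat.pair m'' n'') = 1)

open Classical in
theorem rkEq_iff {w v : B} (hw : PWO w) (hv : PWO v) (m n : ℕ) :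
    RkEq w m v n ↔ rk w m = rk v n := by
  constructor
  · rintro ⟨Z, hZ, hb⟩
    have key : ∀ m' n', Z (Nat.pair m' n') = 1 → rk w m' = rk v n' := by
      intro m'
      induction m' using hw.wellFounded.induction with
      | _ m' ih =>
        intro n' hZ'
        obtain ⟨h1, h2⟩ := hb m' n' hZ'
        apply le_antisymm
        · refine rk_le hw.wellFounded fun j hj => ?_
          obtain ⟨n'', hn'', hZ''⟩ := h1 j hj
          rw [ih j hj n'' hZ'']
          exact rk_lt hv.wellFounded hn''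
        · refine rk_le hv.wellFounded fun j hj => ?_
          obtain ⟨m'', hm'', hZ''⟩ := h2 j hj
          rw [← ih m'' hm'' j hZ'']
          exact rk_lt hw.wellFounded hm''
    exact key m n hZ
  · intro h
    refine ⟨fun k => if rk w k.unpair.1 = rk v k.unpair.2 then 1 else 0, by simp [h], ?_⟩
    intro m' n' h'
    have h1 : rk w m' = rk v n' := by
      by_contra hne
      simp [hne] at h'
    refine ⟨fun m'' hm'' => ?_, fun n'' hn'' => ?_⟩
    · have h2 : rk w m'' < rk v n' := h1 ▸ rk_lt hw.wellFounded hm''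
      obtain ⟨j, hj, hj'⟩ := exists_rk_eq hv h2
      exact ⟨j, hj, by simp [hj']⟩
    · have h2 : rk v n'' < rk w m' := h1 ▸ rk_lt hv.wellFounded hn''
      obtain ⟨j, hj, hj'⟩ := exists_rk_eq hw h2
      exact ⟨j, hj, by simp [hj']⟩

/-- equality of lengths -/
def LE (w v : B) : Prop := (∀ i, ∃ j, RkEq w j v i) ∧ (∀ j, ∃ i, RkEq w j v i)

theorem LE_iff {w v : B} (hw : PWO w) (hv : PWO v) :
    LE w v ↔ range (rk w) = range (rk v) := by
  unfold LE
  simp only [rkEq_iff hw hv]
  constructor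
  · rintro ⟨h1, h2⟩
    apply subset_antisymm
    · rintro _ ⟨j, rfl⟩
      obtain ⟨i, hi⟩ := h2 j
      exact ⟨i, hi.symm⟩
    · rintro _ ⟨i, rfl⟩
      obtain ⟨j, hj⟩ := h1 i
      exact ⟨j, hj⟩
  · intro h
    refine ⟨fun i => ?_, fun j => ?_⟩
    · have : rk v i ∈ range (rk w) := h ▸ mem_range_self i
      exact this
    · have : rk w j ∈ range (rk v) := h ▸ mem_range_self j
      obtain ⟨i, hi⟩ := this
      exact ⟨i, hi.symm⟩

/-- `v` is a prewellordering of infinite length -/
def Cd (v : B) : Prop := PWO v ∧ ∃ w, WO w ∧ LE w v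

/-- pull back -/
def pb (w : B) (u : ℕ → ℕ) : B := fun k => w (Nat.pair (u k.unpair.1) (u k.unpair.2))

theorem lt_pb {w : B} {u : ℕ → ℕ} {i j : ℕ} : lt (pb w u) i j ↔ lt w (u i) (u j) := by
  simp [lt, pb]

theorem PWO.pb {w : B} (h : PWO w) (u : ℕ → ℕ) : PWO (pb w u) where
  bin k := h.bin _
  trans i j k := by simpa only [lt_pb] using h.trans _ _ _
  ntrans i j k := by simpa only [lt_pb] using h.ntrans _ _ _
  wf f hf := h.wf (fun n => u (f n)) fun n => lt_pb.1 (hf n)

theorem rk_pb {w : B} (h : PWO w) {u : ℕ → ℕ} (hu : Function.Surjective u) (i : ℕ) :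
    rk (pb w u) i = rk w (u i) := by
  induction i using (h.pb u).wellFounded.induction with
  | _ i ih =>
    apply le_antisymm
    · refine rk_le (h.pb u).wellFounded fun j hj => ?_
      rw [ih j hj]
      exact rk_lt h.wellFounded (lt_pb.1 hj)
    · refine rk_le h.wellFounded fun j hj => ?_
      obtain ⟨j, rfl⟩ := hu j
      have hj' : lt (Run7.h324.pb w u) j i := lt_pb.2 hj
      rw [← ih j hj']
      exact rk_lt (h.pb u).wellFounded hj'

theorem range_rk_pb {w : B} (h : PWO w) {u : ℕ → ℕ} (hu : Function.Surjective u) :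
    range (rk (pb w u)) = range (rk w) := by
  ext o
  constructor
  · rintro ⟨i, rfl⟩
    exact ⟨u i, (rk_pb h hu i).symm⟩
  · rintro ⟨j, rfl⟩
    obtain ⟨i, rfl⟩ := hu j
    exact ⟨i, rk_pb h hu i⟩

theorem Cd_pb {w : B} (h : WO w) {u : ℕ → ℕ} (hu : Function.Surjective u) : Cd (pb w u) :=
  ⟨h.toPWO.pb u, w, h, (LE_iff h.toPWO (h.toPWO.pb u)).2 (range_rk_pb h.toPWO hu).symm⟩

/-- the code given by an injective map to the ordinals -/
noncomputable def codeOf (e : ℕ → Ordinal.{0}) : B := by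
  classical exact fun k => if e k.unpair.1 < e k.unpair.2 then 1 else 0

theorem lt_codeOf {e : ℕ → Ordinal.{0}} {i j : ℕ} : lt (codeOf e) i j ↔ e i < e j := by
  classical
  simp [lt, codeOf]

theorem PWO_codeOf (e : ℕ → Ordinal.{0}) : PWO (codeOf e) where
  bin k := by classical unfold codeOf; split_ifs <;> simp
  trans i j k := by simpa only [lt_codeOf] using lt_trans
  ntrans i j k := by
    simp only [lt_codeOf]
    intro h
    rcases lt_or_ge (e i) (e j) with h1 | h1
    · exact Or.inl h1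
    · exact Or.inr (h1.trans_lt h)
  wf f hf := by
    have h1 : ∀ n, e (f (n + 1)) < e (f n) := fun n => lt_codeOf.1 (hf n)
    exact (wellFounded_iff_isEmpty_descending_chain.1 Ordinal.lt_wf).false ⟨fun n => e (f n), h1⟩

theorem rk_codeOf {e : ℕ → Ordinal.{0}} (he : ∀ i, ∀ o < e i, ∃ j, e j = o) (i : ℕ) :
    rk (codeOf e) i = e i := by
  induction i using (PWO_codeOf e).wellFounded.induction with
  | _ i ih =>
    apply le_antisymm
    · refine rk_le (PWO_codeOf e).wellFounded fun j hj => ?_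
      rw [ih j hj]
      exact lt_codeOf.1 hj
    · by_contra hlt
      rw [not_le] at hlt
      obtain ⟨j, hj⟩ := he i _ hlt
      have h1 : lt (codeOf e) j i := lt_codeOf.2 (hj ▸ hlt)
      have h2 := rk_lt (PWO_codeOf e).wellFounded h1
      rw [ih j h1, hj] at h2
      exact lt_irrefl _ h2

theorem WO_codeOf {e : ℕ → Ordinal.{0}} (he : Function.Injective e) : WO (codeOf e) where
  toPWO := PWO_codeOf e
  tot i j hij := by
    simp only [lt_codeOf]
    exact lt_or_gt_of_ne (he.ne hij)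

theorem countable_infinite_Iio {β : Ordinal.{0}} (h1 : ω ≤ β) (h2 : β < ω₁) :
    Countable (Iio β) ∧ Infinite (Iio β) := by
  have h3 : Cardinal.mk (Iio β) = Cardinal.lift.{1} β.card := Cardinal.mk_Iio_ordinal β
  have h4 : β.card ≤ Cardinal.aleph0 := by
    rw [← Cardinal.ord_aleph, Cardinal.lt_ord, ← Cardinal.succ_aleph0, Order.lt_succ_iff] at h2
    exact h2
  have h5 : Cardinal.aleph0 ≤ β.card := Ordinal.aleph0_le_card.2 h1
  constructor
  · rw [← Cardinal.mk_le_aleph0_iff, h3, ← Cardinal.lift_aleph0.{1,0}, Cardinal.lift_le]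
    exact h4
  · rw [Cardinal.infinite_iff, h3, ← Cardinal.lift_aleph0.{1,0}, Cardinal.lift_le]
    exact h5

/-- every countable infinite ordinal is the length of a code -/
theorem exists_WO {β : Ordinal.{0}} (h1 : ω ≤ β) (h2 : β < ω₁) :
    ∃ w, WO w ∧ range (rk w) = Iio β := by
  obtain ⟨hc, hi⟩ := countable_infinite_Iio h1 h2
  obtain ⟨e⟩ := nonempty_equiv_of_countable (α := ℕ) (β := Iio β)
  refine ⟨codeOf fun n => (e n : Ordinal.{0}), WO_codeOf (Subtype.val_injective.comp e.injective), ?_⟩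
  have h3 : rk (codeOf fun n => (e n : Ordinal.{0})) = fun n => (e n : Ordinal.{0}) := by
    funext i
    refine rk_codeOf (fun i o ho => ?_) i
    obtain ⟨j, hj⟩ := e.surjective ⟨o, ho.trans (e i).2⟩
    exact ⟨j, by rw [hj]⟩
  rw [h3]
  ext o
  constructor
  · rintro ⟨i, rfl⟩
    exact (e i).2
  · intro ho
    obtain ⟨j, hj⟩ := e.surjective ⟨o, ho⟩
    exact ⟨j, by simp [hj]⟩

end Run7.h324
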