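import Mathlib

/-! Definitions used in the statement of the result: reals, games, codes of countable ordinals,
trees of finite sequences of reals, `Σ¹₂` sets, the hierarchy `L_α(ℝ)`. -/

open Set Ordinal

namespace Run7.h324

/-! ### Reals and games -/

/-- The reals, i.e. the Baire space. -/
abbrev B : Type := ℕ → ℕ

/-- The interleaving of two reals: `join x y = (x 0, y 0, x 1, y 1, …)`. -/
def join (x y : B) : B := fun n => if n % 2 = 0 then x (n / 2) else y (n / 2)

/-- The even part of a real, so `evn (join x y) = x`. -/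
def evn (x : B) : B := fun n => x (2 * n)

/-- The odd part of a real, so `odd (join x y) = y`. -/
def odd (x : B) : B := fun n => x (2 * n + 1)

/-- Strategies: functions of the list of the moves of the opponent (most recent move first). -/
abbrev Str : Type := List ℕ → ℕ

/-- The first `n` values of `b`, most recent first. -/
def hist (b : B) : ℕ → List ℕ
  | 0 => []
  | n + 1 => b n :: hist b n

/-- The moves of player I when following `ρ` against the moves `b` of player II. -/
def appI (ρ : Str) (b : B) : B := fun n => ρ (hist b n)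

/-- The moves of player II when following `τ` against the moves `a` of player I. -/
def appII (τ : Str) (a : B) : B := fun n => τ (hist a (n + 1))

/-- The game on `ℕ` with payoff set `A` for player I (I plays `a 0, a 1, …`, II plays
`b 0, b 1, …` in turns, I wins iff `join a b ∈ A`) is determined. -/
def Determined (A : Set B) : Prop :=
  (∃ ρ : Str, ∀ b, join (appI ρ b) b ∈ A) ∨ (∃ τ : Str, ∀ a, join a (appII τ a) ∉ A)

/-! ### Codes of countable ordinals -/

/-- The relation on `ℕ` coded by the real `v`. -/
def lt (v : B) (i j : ℕ) : Prop := v (Nat.pair i j) = 1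

/-- `v` codes (the strict part of) a prewellordering of `ℕ`. -/
structure PWO (v : B) : Prop where
  bin : ∀ k, v k ≤ 1
  trans : ∀ i j k, lt v i j → lt v j k → lt v i k
  ntrans : ∀ i j k, lt v i k → lt v i j ∨ lt v j k
  wf : ∀ f : B, ¬ ∀ n, lt v (f (n + 1)) (f n)

open Classical in
/-- The rank of `i` in the relation coded by `v`. -/
noncomputable def rk (v : B) (i : ℕ) : Ordinal.{0} := if h : Acc (lt v) i then h.rank else 0

/-! ### Trees -/

/-- The first `n` terms of a sequence of reals. -/
def tk (n : ℕ) (x : ℕ → B) : List B := (List.range n).map x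

/-- The finite sequence of reals coded by the real `z`: its length is `z 0`, and its `i`-th term
is the real `j ↦ z (⟨i, j⟩ + 1)`. -/
def dec (z : B) : List B := tk (z 0) (fun i j => z (Nat.pair i j + 1))

/-- `T` is a nonempty tree of finite sequences of reals. -/
def IsTree (T : Set (List B)) : Prop := [] ∈ T ∧ ∀ q ∈ T, ∀ q', q' <+: q → q' ∈ T

/-- `T` splits at every ordinal in `A`: every node of `T` has for every `α ∈ A` an immediate
successor in `T` whose last term has rank `α`. -/
def Splits (g : B → Ordinal.{0}) (A : Set Ordinal.{0}) (T : Set (List B)) : Prop :=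
  ∀ q ∈ T, ∀ α ∈ A, ∃ x, g x = α ∧ q ++ [x] ∈ T

/-- The boldface `Σ¹₂` sets of reals: the projections of coanalytic sets. -/
def Sigma12 (S : Set B) : Prop :=
  ∃ C : Set B, MeasureTheory.AnalyticSet Cᶜ ∧ S = {x | ∃ y, join x y ∈ C}

/-! ### The hierarchy `L_α(ℝ)` -/

/-- Formulas of the language of set theory; the variables are natural numbers. -/
inductive Fml : Type
  | mem : ℕ → ℕ → Fml
  | eq : ℕ → ℕ → Fml
  | neg : Fml → Fml
  | and : Fml → Fml → Fml
  | all : ℕ → Fml → Fml

/-- Satisfaction in the structure `(X, ∈)`. -/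
def Sat (X : Set ZFSet.{0}) : Fml → (ℕ → ZFSet.{0}) → Prop
  | .mem i j, v => v i ∈ v j
  | .eq i j, v => v i = v j
  | .neg φ, v => ¬ Sat X φ v
  | .and φ ψ, v => Sat X φ v ∧ Sat X ψ v
  | .all i φ, v => ∀ a ∈ X, Sat X φ (Function.update v i a)

/-- The subsets of `X` definable over `(X, ∈)` with parameters from `X`. -/
def Def (X : Set ZFSet.{0}) : Set ZFSet.{0} :=
  {Y | ∃ (φ : Fml) (v : ℕ → ZFSet.{0}), (∀ i, v i ∈ X) ∧
    ∀ a, a ∈ Y ↔ a ∈ X ∧ Sat X φ (Function.update v 0 a)}

/-- The hierarchy `L_α(ℝ)`: `L_α(ℝ) = V_{ω+1} ∪ ⋃_{β < α} Def (L_β(ℝ))`. -/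
def LRa (α : Ordinal.{0}) : Set ZFSet.{0} :=
  {Y | Y ∈ ZFSet.vonNeumann (ω + 1)} ∪ ⋃ β : Iio α, Def (LRa β)
termination_by α
decreasing_by exact β.2

/-- The natural number `n` as a set (a von Neumann ordinal). -/
noncomputable def nn (n : ℕ) : ZFSet.{0} := (n : Ordinal.{0}).toZFSet

/-- The real `x` as a set of ordered pairs of natural numbers. -/
noncomputable def rl (x : B) : ZFSet.{0} := ZFSet.range fun n : ℕ => ZFSet.pair (nn n) (nn (x n))

/-- The set of reals `A` as a set. -/
noncomputable def cs (A : Set B) : ZFSet.{0} := ZFSet.range fun x : A => rl x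

/-- The set of reals `A` is an element of `L(ℝ)`. -/
def InLR (A : Set B) : Prop := ∃ α, cs A ∈ LRa α

/-- `ADLR`: every set of reals in `L(ℝ)` is determined. -/
def ADLR : Prop := ∀ A : Set B, InLR A → Determined A

/-- `g` is the rank map of a prewellordering of the reals of length `lam` which lies in `L(ℝ)`;
the prewellordering is the relation `g x ≤ g y`. -/
def NormLR (g : B → Ordinal.{0}) (lam : Ordinal.{0}) : Prop :=
  range g = Iio lam ∧ InLR {z | g (evn z) ≤ g (odd z)}

/-- The set `A` of ordinals in the range of `g` is in `L(ℝ)` an image of `ω₁`: there is a map `E`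
of `ω₁` onto `A` such that the set of the (codes `z` of) pairs `(v, x)` of reals with
`g x = E (β)` for the countable ordinal `β` coded by `v` is in `L(ℝ)`. -/
def ImageLR (g : B → Ordinal.{0}) (A : Set Ordinal.{0}) : Prop :=
  ∃ E : Ordinal.{0} → Ordinal.{0}, E '' Iio ω₁ = A ∧
    InLR {z | PWO (evn z) ∧ g (odd z) = E (rk (evn z) 0)}

end Run7.h324
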