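import Pool.Agent.Run7.h324.Meas

/-! Functions on generic codes, coded by reals; uniformization on generic codes. -/

open Set Filter Topology MeasureTheory

namespace Run7.h324

def ev0 (v : B) : B := pb v (fun n => 2 * n)
def od0 (v : B) : B := pb v (fun n => 2 * n + 1)

/-- the strategy coded by a real -/
def toS (a : B) : Str := fun l => a (Encodable.encode l)

theorem exists_toS (σ : Str) : ∃ a, toS a = σ :=
  ⟨fun k => σ (Denumerable.ofNat (List ℕ) k), by funext l; simp [toS]⟩

/-- `c` is the value at `v` of the function coded by `a`. -/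
def EvR (a v c : B) : Prop :=
  PWO (ev0 v) ∧ Cd (od0 v) ∧ ∃ (i : ℕ) (u : B),
    WO (mw (appII (toS a) (od0 v)) i) ∧ LE (mw (appII (toS a) (od0 v)) i) (od0 v) ∧
    (∀ j < i, ¬ LE (mw (appII (toS a) (od0 v)) j) (od0 v)) ∧
    (∀ n, RkEq (mw (appII (toS a) (od0 v)) i) (u n) (ev0 v) n) ∧
    u ∈ GG (mt (appII (toS a) (od0 v)) i) ∧ c = CG (mt (appII (toS a) (od0 v)) i) u

/-- the function coded by `a` is defined at almost all codes -/
def Large (a : B) : Prop := ∀ w, WO w → ∀ᶠ x in residual B, ∃ c, EvR a (pb w x) c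

theorem ev0_pb (w x : B) : ev0 (pb w x) = pb w (evn x) := by
  funext k
  simp [ev0, pb, evn]

theorem od0_pb (w x : B) : od0 (pb w x) = pb w (odd x) := by
  funext k
  simp [od0, pb, odd]

theorem ev0_iter_pb (w x : B) (n : ℕ) : ev0^[n] (pb w x) = pb w (evn^[n] x) := by
  induction n generalizing x with
  | zero => rfl
  | succ n ih => rw [Function.iterate_succ_apply, ev0_pb, ih, ← Function.iterate_succ_apply evn n x]

theorem EvR.unique {a v c c' : B} (h : EvR a v c) (h' : EvR a v c') : c = c' := by
  obtain ⟨h1, h2, i, u, h3, h4, h5, h6, h7, h8⟩ := h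
  obtain ⟨_, _, i', u', h3', h4', h5', h6', h7', h8'⟩ := h'
  have hi : i = i' := by
    rcases lt_trichotomy i i' with hlt | hlt | hlt
    · exact absurd h4 (h5' i hlt)
    · exact hlt
    · exact absurd h4' (h5 i' hlt)
  subst hi
  have hu : u = u' := by
    funext n
    refine h3.rk_inj ?_
    rw [(rkEq_iff h3.toPWO h1 _ _).1 (h6 n), (rkEq_iff h3.toPWO h1 _ _).1 (h6' n)]
  subst hu
  rw [h8, h8']

theorem PWO.ext {v v' : B} (h : PWO v) (h' : PWO v') (he : ∀ i j, lt v i j ↔ lt v' i j) : v = v' := by
  funext k
  have h1 := he k.unpair.1 k.unpair.2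
  simp only [lt, Nat.pair_unpair] at h1
  have h2 := h.bin k
  have h3 := h'.bin k
  omega

theorem surj_residual : ∀ᶠ z in residual B, Function.Surjective z := by
  unfold Function.Surjective
  rw [eventually_countable_forall]
  intro k
  have hO : IsOpen {z : B | ∃ a, z a = k} := by
    have : {z : B | ∃ a, z a = k} = ⋃ a, (fun z : B => z a) ⁻¹' {k} := by
      ext z; simp
    rw [this]
    exact isOpen_iUnion fun a => (isOpen_discrete _).preimage (continuous_apply a)
  refine residual_of_dense_open hO ?_
  rw [dense_iff_inter_open]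
  rintro U hU ⟨u, hu⟩
  obtain ⟨n, hn⟩ := exists_pre_subset hU hu
  obtain ⟨v, hv⟩ := exists_pre ((List.range n).map u ++ [k])
  refine ⟨v, hn v (pre_append_left hv), n, ?_⟩
  have := hv n (by simp)
  rw [← this]
  simp

variable {P : Set B → Prop}

theorem nice_EvR (hP : PClass P) {X : Type*} [MeasurableSpace X] {a v c : X → B}
    (ha : Measurable a) (hv : Measurable v) (hc : Measurable c) :
    Nice P {x | EvR (a x) (v x) (c x)} := by
  have hev : Measurable fun x => ev0 (v x) := meas_pb hv measurable_const
  have hod : Measurable fun x => od0 (v x) := meas_pb hv measurable_const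
  have hts : Measurable fun x => toS (a x) := measurable_pi_lambda _ fun l =>
    show Measurable (fun x => a x (Encodable.encode l)) from meas_ap ha measurable_const
  have hm : Measurable fun x => appII (toS (a x)) (od0 (v x)) := meas_appII hts hod
  unfold EvR
  refine .and hP (nice_PWO hP hev) (.and hP (nice_Cd hP hod) (.ex hP (.ex hP (.and hP ?_ (.and hP ?_
    (.and hP ?_ (.and hP ?_ (.and hP ?_ ?_))))))))
  · exact nice_WO hP (meas_mw (hm.comp (by fun_prop)) (by fun_prop))
  · exact nice_LE hP (meas_mw (hm.comp (by fun_prop)) (by fun_prop)) (hod.comp (by fun_prop))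
  · refine .all hP (.imp hP ?_ (.not hP ?_))
    · exact nice_of_measurable hP (measurableSet_lt (by fun_prop) (by fun_prop))
    · exact nice_LE hP (meas_mw (hm.comp (by fun_prop)) (by fun_prop)) (hod.comp (by fun_prop))
  · refine .all hP ?_
    refine nice_RkEq hP (meas_mw (hm.comp (by fun_prop)) (by fun_prop)) (hev.comp (by fun_prop)) ?_
      (by fun_prop)
    exact meas_ap (by fun_prop) (by fun_prop)
  · refine nice_of_measurable hP (mset_GG (meas_mt (hm.comp (by fun_prop)) (by fun_prop)) (by fun_prop))
  · refine nice_of_measurable hP (measurableSet_eq_fun (hc.comp (by fun_prop)) (meas_CG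
      (meas_mt (hm.comp (by fun_prop)) (by fun_prop)) (by fun_prop)))

theorem nice_Large (hP : PClass P) {X : Type*} [MeasurableSpace X] {a : X → B}
    (ha : Measurable a) : Nice P {x | Large (a x)} := by
  unfold Large
  refine .all hP (.imp hP (nice_WO hP (by fun_prop)) (.cat hP (.ex hP ?_)))
  exact nice_EvR hP (ha.comp (by fun_prop)) (meas_pb (by fun_prop) (by fun_prop)) (by fun_prop)

/-- the winning condition for the strategies of the second player in the unfolded game at `w` -/
def QR (R : B → B → Prop) (w : B) (t : Str) : Prop :=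
  ∀ a, R (pb w (UU a (appII t a))) (CC (appII t a))

theorem nice_QR (hP : PClass P) {R : B → B → Prop} (hR : Nice P {p : B × B | R p.1 p.2})
    {X : Type*} [MeasurableSpace X] {w : X → B} {t : X → Str}
    (hw : Measurable w) (ht : Measurable t) : Nice P {x | QR R (w x) (t x)} := by
  unfold QR
  refine .all hP ?_
  refine hR.comp (g := fun p : X × B => (pb (w p.1) (UU p.2 (appII (t p.1) p.2)),
    CC (appII (t p.1) p.2))) ?_
  have h1 : Measurable fun p : X × B => appII (t p.1) p.2 :=
    meas_appII (ht.comp measurable_fst) measurable_snd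
  exact (meas_pb (hw.comp measurable_fst) (meas_UU measurable_snd h1)).prodMk (meas_CC h1)

theorem GG_of_strategy {τ : Str} {S : Set B} (h : ∀ a, UU a (appII τ a) ∈ S) : S ∈ residual B := by
  filter_upwards [GG_residual τ] with u hu
  have := h (pathA τ u)
  rwa [GG_outcome hu] at this

/-- Kuratowski-Ulam, hard direction, from determinacy. -/
theorem ku_hard (hP : PClass P) (hdet : ∀ S, P S → Determined S) {D : Set B} (hD : Nice P D)
    (h : ∀ᶠ z in residual B, ∀ᶠ y in residual B, join y z ∈ D) : D ∈ residual B := by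
  have hd : Determined (payoff fun u _ => u ∈ D) := by
    apply hdet
    refine (Nice.not hP (φ := fun p : B => UU (evn p) (odd p) ∈ D) ?_) id measurable_id
    exact hD.comp (meas_UU (meas_evn measurable_id) (meas_odd measurable_id))
  rcases dichotomy hd with ⟨τ, hτ⟩ | ⟨l, hl⟩
  · exact GG_of_strategy hτ
  · exfalso
    have h1 : ∀ᶠ u in residual B, pre l u → u ∉ D := by
      filter_upwards [hl] with u hu hp
      exact hu hp (fun _ => 0)
    have h2 := ku_join' h1
    -- a dense set of `z` with all `y`; choose an extension of `l`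
    obtain ⟨u0, hu0⟩ := exists_pre l
    have hW : IsOpen {z : B | pre ((List.range l.length).map (odd u0)) z} := isOpen_pre _
    obtain ⟨z, hz1, hz2, hz3⟩ := (dense_of_mem_residual (h.and h2)).inter_open_nonempty _ hW
      ⟨odd u0, pre_map_range _ _⟩
    have hW' : IsOpen {y : B | pre ((List.range l.length).map (evn u0)) y} := isOpen_pre _
    obtain ⟨y, hy1, hy2, hy3⟩ := (dense_of_mem_residual (hz2.and hz3)).inter_open_nonempty _ hW'
      ⟨evn u0, pre_map_range _ _⟩
    refine hy3 ?_ hy2
    intro i hi
    rw [hu0 i hi]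
    rcases Nat.even_or_odd' i with ⟨k, rfl | rfl⟩
    · have h3 := hy1 k (by simp; omega)
      simp only [List.getElem_map, List.getElem_range] at h3
      have h4 : evn (join y z) k = y k := by rw [evn_join]
      change u0 (2 * k) = join y z (2 * k)
      change evn u0 k = evn (join y z) k
      rw [h4, h3]
    · have h3 := hz1 k (by simp; omega)
      simp only [List.getElem_map, List.getElem_range] at h3
      change odd u0 k = odd (join y z) k
      rw [odd_join, h3]

theorem pb_comp {w w' y p : B} (hw : PWO w) (hw' : PWO w') (hp : ∀ n, rk w' (p n) = rk w n) :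
    pb w' (fun n => p (y n)) = pb w y := by
  refine PWO.ext (hw'.pb _) (hw.pb _) fun i j => ?_
  rw [lt_pb, lt_pb, hw.lt_iff, hw'.lt_iff, hp, hp]

/-- Uniformization on generic codes. -/
theorem UB (hP : PClass P) (hdet : ∀ S, P S → Determined S) {R : B → B → Prop}
    (hR : Nice P {p : B × B | R p.1 p.2})
    (hL : ∀ w, WO w → ∀ᶠ u in residual B, ∃ c, R (pb w u) c) :
    ∃ a, Large a ∧ ∀ v c, EvR a v c → R (ev0 v) c := by
  -- strategies
  have h1 : ∀ w, WO w → ∃ t, QR R w t := by
    intro w hw
    have hd : Determined (payoff fun u c => R (pb w u) c) := by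
      apply hdet
      refine (Nice.not hP (φ := fun p : B => R (pb w (UU (evn p) (odd p))) (CC (odd p))) ?_) id
        measurable_id
      refine hR.comp (g := fun p : B => (pb w (UU (evn p) (odd p)), CC (odd p))) ?_
      exact (meas_pb measurable_const (meas_UU (meas_evn measurable_id)
        (meas_odd measurable_id))).prodMk (meas_CC (meas_odd measurable_id))
    rcases dichotomy hd with ⟨τ, hτ⟩ | ⟨l, hl⟩
    · exact ⟨τ, hτ⟩
    · exfalso
      obtain ⟨u0, hu0⟩ := exists_pre l
      obtain ⟨u, hu1, hu2, hu3⟩ := (dense_of_mem_residual (hl.and (hL w hw))).inter_open_nonempty _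
        (isOpen_pre l) ⟨u0, hu0⟩
      obtain ⟨c, hc⟩ := hu3
      exact hu2 hu1 c hc
  have hSP : Determined (SP (QR R)) := by
    apply hdet
    refine (Nice.and hP (φ := fun p : B => Cd (evn p)) (nice_Cd hP (meas_evn measurable_id))
      (Nice.not hP (φ := fun p : B => Resp (QR R) (odd p) (evn p)) ?_)) id measurable_id
    unfold Resp
    refine .and hP (.all hP (.and hP (nice_WO hP ?_) (nice_QR hP hR ?_ ?_))) (.ex hP (nice_LE hP ?_ ?_))
    · exact meas_mw (meas_odd (by fun_prop)) (by fun_prop)
    · exact meas_mw (meas_odd (by fun_prop)) (by fun_prop)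
    · exact meas_mt (meas_odd (by fun_prop)) (by fun_prop)
    · exact meas_mw (meas_odd (by fun_prop)) (by fun_prop)
    · exact meas_evn (by fun_prop)
  obtain ⟨σ, hσ⟩ := solovay h1 hSP
  obtain ⟨a, rfl⟩ := exists_toS σ
  refine ⟨a, ?_, ?_⟩
  · intro w hw
    have hD : Nice P {x | ∃ c, EvR a (pb w x) c} :=
      .ex hP (nice_EvR hP (by fun_prop) (meas_pb (by fun_prop) (by fun_prop)) (by fun_prop))
    refine ku_hard hP hdet hD ?_
    filter_upwards [surj_residual] with z hz
    obtain ⟨hr1, hr2⟩ := hσ (pb w z) (Cd_pb hw hz)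
    set m := appII (toS a) (pb w z) with hm
    -- least index
    classical
    let i := Nat.find hr2
    have hi : LE (mw m i) (pb w z) := Nat.find_spec hr2
    have hi' : ∀ j < i, ¬ LE (mw m j) (pb w z) := fun j hj => Nat.find_min hr2 hj
    have hwi : WO (mw m i) := (hr1 i).1
    have hri : range (rk (mw m i)) = range (rk w) := by
      rw [(LE_iff hwi.toPWO (hw.toPWO.pb z)).1 hi, range_rk_pb hw.toPWO hz]
    have hp : ∀ n, ∃ k, rk (mw m i) k = rk w n := fun n => by
      have : rk w n ∈ range (rk (mw m i)) := hri ▸ mem_range_self n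
      exact this
    choose p hp using hp
    have hpb : Function.Bijective p := by
      constructor
      · intro n n' hn
        exact hw.rk_inj (by rw [← hp n, ← hp n', hn])
      · intro k
        have : rk (mw m i) k ∈ range (rk w) := hri ▸ mem_range_self k
        obtain ⟨n, hn⟩ := this
        exact ⟨n, hwi.rk_inj (by rw [hp n, hn])⟩
    have hG : ∀ᶠ y in residual B, (fun n => p (y n)) ∈ GG (mt m i) := by
      let e : B ≃ₜ B := Homeomorph.piCongrRight (fun _ : ℕ =>
        (Equiv.ofBijective p hpb).toHomeomorph (fun s => by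
          simp only [isOpen_discrete]))
      have h2 := e.residual_map_eq
      have h3 : GG (mt m i) ∈ map e (residual B) := by rw [h2]; exact GG_residual _
      exact h3
    filter_upwards [hG, surj_residual] with y hy hys
    refine ⟨CG (mt m i) (fun n => p (y n)), ?_, ?_, i, fun n => p (y n), ?_⟩
    · rw [ev0_pb]; exact hw.toPWO.pb _
    · rw [od0_pb, odd_join]; exact Cd_pb hw hz
    · rw [od0_pb, odd_join, ev0_pb, evn_join]
      refine ⟨hwi, hi, hi', fun n => ?_, hy, rfl⟩
      exact (rkEq_iff hwi.toPWO (hw.toPWO.pb y) _ _).2 (by rw [rk_pb hw.toPWO hys, hp])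
  · intro v c h
    obtain ⟨g1, g2, i, u, g3, g4, g5, g6, g7, g8⟩ := h
    obtain ⟨hr1, hr2⟩ := hσ (od0 v) g2
    have h2 := (hr1 i).2 (pathA (mt (appII (toS a) (od0 v)) i) u)
    rw [GG_outcome g7] at h2
    rw [g8]
    have h3 : pb (mw (appII (toS a) (od0 v)) i) u = ev0 v := by
      refine PWO.ext (g3.toPWO.pb _) g1 fun k k' => ?_
      rw [lt_pb, g3.toPWO.lt_iff, g1.lt_iff, (rkEq_iff g3.toPWO g1 _ _).1 (g6 k),
        (rkEq_iff g3.toPWO g1 _ _).1 (g6 k')]
    rw [← h3]
    exact h2

end Run7.h324
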