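import Pool.Agent.Run7.h324.Cat

/-! Integer games, the unfolded Banach-Mazur game. -/

open Set Filter Topology

namespace Run7.h324

/-- `l` is an initial segment of `u` -/
def pre (l : List ℕ) (u : B) : Prop := ∀ i, ∀ h : i < l.length, l[i] = u i

theorem pre_nil (u : B) : pre [] u := fun i h => by simp at h

theorem pre_of_prefix {l l' : List ℕ} {u : B} (h : l <+: l') (h' : pre l' u) : pre l u := by
  obtain ⟨t, rfl⟩ := h
  intro i hi
  have := h' i (by simp; omega)
  rw [List.getElem_append_left hi] at this
  exact this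

theorem pre_append_left {l l' : List ℕ} {u : B} (h' : pre (l ++ l') u) : pre l u :=
  pre_of_prefix (List.prefix_append _ _) h'

theorem prefix_of_pre {l l' : List ℕ} {u : B} (h : pre l u) (h' : pre l' u)
    (hl : l.length ≤ l'.length) : l <+: l' := by
  rw [List.prefix_iff_eq_take]
  apply List.ext_getElem
  · simp; omega
  · intro i h1 h2
    rw [List.getElem_take, h i h1, h' i (by omega)]

theorem exists_pre (l : List ℕ) : ∃ u, pre l u :=
  ⟨fun i => l.getD i 0, fun i h => by simp [List.getD, h]⟩

theorem pre_map_range (u : B) (n : ℕ) : pre ((List.range n).map u) u := by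
  intro i h
  simp

theorem isOpen_pre (l : List ℕ) : IsOpen {u | pre l u} := by
  have : {u | pre l u} = ⋂ i : Fin l.length, {u : B | l[i] = u i} := by
    ext u
    simp only [mem_ofPred_eq, mem_iInter]
    exact ⟨fun h i => h i i.2, fun h i hi => h ⟨i, hi⟩⟩
  rw [this]
  refine isOpen_iInter_of_finite fun i => ?_
  have h : {u : B | l[i] = u i} = (fun u : B => u i) ⁻¹' {l[i]} := by
    ext u; simp [eq_comm]
  rw [h]
  exact (isOpen_discrete _).preimage (continuous_apply _)

theorem exists_pre_subset {U : Set B} (hU : IsOpen U) {u : B} (hu : u ∈ U) :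
    ∃ n, ∀ v, pre ((List.range n).map u) v → v ∈ U := by
  rw [isOpen_pi_iff] at hU
  obtain ⟨I, V, hV, hs⟩ := hU u hu
  refine ⟨I.sup id + 1, fun v hv => hs ?_⟩
  rw [Set.mem_pi]
  intro i hi
  have h1 : i < I.sup id + 1 := Nat.lt_succ_of_le (Finset.le_sup (f := id) hi)
  have h2 := hv i (by simpa using h1)
  simp only [List.getElem_map, List.getElem_range] at h2
  rw [← h2]
  exact (hV i hi).2

/-- basic density lemma -/
theorem density {p : List ℕ} {F : Set (List ℕ)} (h : ∀ l, p <+: l → ∃ l' ∈ F, l <+: l') :
    ∀ᶠ u in residual B, pre p u → ∃ l' ∈ F, pre l' u := by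
  have hO : IsOpen ({u | pre p u}ᶜ ∪ ⋃ l' ∈ F, {u | pre l' u}) := by
    refine IsOpen.union ?_ (isOpen_biUnion fun l' _ => isOpen_pre l')
    have : {u | pre p u}ᶜ = ⋃ l ∈ {l : List ℕ | l.length = p.length ∧ l ≠ p}, {u | pre l u} := by
      ext u
      simp only [mem_compl_iff, mem_ofPred_eq, mem_iUnion, exists_prop]
      constructor
      · intro hn
        refine ⟨(List.range p.length).map u, ⟨by simp, fun he => hn ?_⟩, pre_map_range _ _⟩
        rw [← he]
        exact pre_map_range _ _
      · rintro ⟨l, ⟨h1, h2⟩, h3⟩ h4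
        apply h2
        apply List.ext_getElem h1
        intro i hi hi'
        rw [h3 i hi, h4 i hi']
    rw [this]
    exact isOpen_biUnion fun l _ => isOpen_pre l
  have hD : Dense ({u | pre p u}ᶜ ∪ ⋃ l' ∈ F, {u | pre l' u}) := by
    rw [dense_iff_inter_open]
    rintro U hU ⟨u, hu⟩
    obtain ⟨n, hn⟩ := exists_pre_subset hU hu
    by_cases hp : pre p u
    · -- extend
      let m := max n p.length
      have hpm : p <+: (List.range m).map u := prefix_of_pre hp (pre_map_range u m) (by simp [m])
      obtain ⟨l', hl', hll⟩ := h _ hpm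
      obtain ⟨v, hv⟩ := exists_pre l'
      refine ⟨v, hn v ?_, Or.inr ?_⟩
      · refine pre_of_prefix ?_ (pre_of_prefix hll hv)
        exact prefix_of_pre (pre_map_range u n) (pre_map_range u m) (by simp [m])
      · simp only [mem_iUnion]
        exact ⟨l', hl', hv⟩
    · exact ⟨u, hu, Or.inl hp⟩
  filter_upwards [residual_of_dense_open hO hD] with u hu hp
  rcases hu with hu | hu
  · exact absurd hp hu
  · simpa using hu

/-- the nonempty list coded by a move -/
def mv (a : ℕ) : List ℕ := a.unpair.1 :: Denumerable.ofNat (List ℕ) a.unpair.2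

theorem mv_surj {l : List ℕ} (h : l ≠ []) : ∃ a, mv a = l := by
  obtain ⟨x, t, rfl⟩ := List.exists_cons_of_ne_nil h
  exact ⟨Nat.pair x (Encodable.encode t), by simp [mv]⟩

theorem mv_length (a : ℕ) : 0 < (mv a).length := by simp [mv]

/-- a move of the second player: a list and a digit -/
def mvl (b : ℕ) : List ℕ := mv b.unpair.2
def dig (b : ℕ) : ℕ := b.unpair.1

/-- position after the history `h` (most recent first) of moves of I, when II follows `τ` -/
def posII (τ : Str) : List ℕ → List ℕ
  | [] => []
  | a :: h => posII τ h ++ mv a ++ mvl (τ (a :: h))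

/-- position after the history `g` of moves of II, when I follows `ρ` (after the reply of I) -/
def posI (ρ : Str) : List ℕ → List ℕ
  | [] => mv (ρ [])
  | b :: g => posI ρ g ++ mvl b ++ mv (ρ (b :: g))

/-- position after `n` rounds with moves `a`, `b` -/
def pos (a b : B) : ℕ → List ℕ
  | 0 => []
  | n + 1 => pos a b n ++ mv (a n) ++ mvl (b n)

/-- the real built in the game -/
def UU (a b : B) : B := fun i => (pos a b (i + 1)).getD i 0

/-- the side moves -/
def CC (b : B) : B := fun i => dig (b i)

theorem pos_prefix_succ (a b : B) (n : ℕ) : pos a b n <+: pos a b (n + 1) := by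
  simp only [pos, List.append_assoc]
  exact List.prefix_append _ _

theorem pos_prefix (a b : B) {m n : ℕ} (h : m ≤ n) : pos a b m <+: pos a b n := by
  induction n, h using Nat.le_induction with
  | base => exact List.prefix_rfl
  | succ n _ ih => exact ih.trans (pos_prefix_succ a b n)

theorem pos_length (a b : B) (n : ℕ) : n ≤ (pos a b n).length := by
  induction n with
  | zero => simp
  | succ n ih =>
    simp only [pos, List.length_append]
    have := mv_length (a n)
    omega

theorem pos_pre (a b : B) (n : ℕ) : pre (pos a b n) (UU a b) := by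
  intro i hi
  unfold UU
  have h1 : i < (pos a b (i + 1)).length := lt_of_lt_of_le (Nat.lt_succ_self i) (pos_length a b (i + 1))
  rw [List.getD_eq_getElem _ _ h1]
  rcases le_total n (i + 1) with h | h
  · obtain ⟨t, ht⟩ := pos_prefix a b h
    have h2 : (pos a b (i + 1))[i] = (pos a b n ++ t)[i]'(by rw [ht]; exact h1) := by
      congr 1; exact ht.symm
    rw [h2, List.getElem_append_left hi]
  · obtain ⟨t, ht⟩ := pos_prefix a b h
    have h2 : (pos a b n)[i] = (pos a b (i + 1) ++ t)[i]'(by rw [ht]; exact hi) := by
      congr 1; exact ht.symm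
    rw [h2, List.getElem_append_left h1]

theorem UU_unique {a b u : B} (h : ∀ n, pre (pos a b n) u) : UU a b = u := by
  funext i
  have h1 : i < (pos a b (i + 1)).length := lt_of_lt_of_le (Nat.lt_succ_self i) (pos_length a b (i + 1))
  rw [← pos_pre a b (i + 1) i h1, h (i + 1) i h1]

theorem posII_eq (τ : Str) (a : B) (n : ℕ) : posII τ (hist a n) = pos a (appII τ a) n := by
  induction n with
  | zero => rfl
  | succ n ih => simp [posII, hist, pos, ih, appII]

theorem posI_eq (ρ : Str) (b : B) (n : ℕ) :
    posI ρ (hist b n) = pos (appI ρ b) b n ++ mv (appI ρ b n) := by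
  induction n with
  | zero => simp [posI, hist, pos, appI]
  | succ n ih => 
    have h1 : appI ρ b (n + 1) = ρ (b n :: hist b n) := rfl
    simp [posI, hist, pos, ih, h1]

/-- the generic set of a strategy of II -/
def GG (τ : Str) : Set B := {u | ∀ h, pre (posII τ h) u → ∃ a, pre (posII τ (a :: h)) u}

theorem GG_residual (τ : Str) : GG τ ∈ residual B := by
  have : ∀ h, ∀ᶠ u in residual B, pre (posII τ h) u → ∃ a, pre (posII τ (a :: h)) u := by
    intro h
    have h1 : ∀ l, posII τ h <+: l → ∃ l' ∈ {l' | ∃ a, posII τ (a :: h) = l'}, l <+: l' := by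
      rintro l ⟨t, rfl⟩
      by_cases ht : t = []
      · subst ht
        exact ⟨posII τ (0 :: h), ⟨0, rfl⟩, by simp [posII]⟩
      · obtain ⟨a, ha⟩ := mv_surj ht
        refine ⟨posII τ (a :: h), ⟨a, rfl⟩, ?_⟩
        rw [← ha]
        simp only [posII]
        exact List.prefix_append _ _
    filter_upwards [density h1] with u hu hp
    obtain ⟨l', ⟨a, rfl⟩, hl⟩ := hu hp
    exact ⟨a, hl⟩
  filter_upwards [eventually_countable_forall.2 this] with u hu
  exact hu

open Classical in
/-- the greedy run producing `u` -/
noncomputable def path (τ : Str) (u : B) : ℕ → List ℕ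
  | 0 => []
  | n + 1 => sInf {a | pre (posII τ (a :: path τ u n)) u} :: path τ u n

/-- the moves of I in the greedy run -/
noncomputable def pathA (τ : Str) (u : B) : B := fun n => sInf {a | pre (posII τ (a :: path τ u n)) u}

theorem hist_pathA (τ : Str) (u : B) (n : ℕ) : hist (pathA τ u) n = path τ u n := by
  induction n with
  | zero => rfl
  | succ n ih => simp [hist, path, ih, pathA]

/-- the side moves of II in the greedy run -/
noncomputable def CG (τ : Str) (u : B) : B := CC (appII τ (pathA τ u))

theorem GG_outcome {τ : Str} {u : B} (hu : u ∈ GG τ) :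
    UU (pathA τ u) (appII τ (pathA τ u)) = u := by
  apply UU_unique
  intro n
  rw [← posII_eq, hist_pathA]
  induction n with
  | zero => exact pre_nil u
  | succ n ih =>
    have := hu _ ih
    exact Nat.sInf_mem (s := {a | pre (posII τ (a :: path τ u n)) u}) this

/-- payoff (for I) of the unfolded game of the relation `R` -/
def payoff (R : B → B → Prop) : Set B := {p | ¬ R (UU (evn p) (odd p)) (CC (odd p))}

/-- The dichotomy for the unfolded Banach-Mazur game. -/
theorem dichotomy {R : B → B → Prop} (h : Determined (payoff R)) :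
    (∃ τ : Str, ∀ a, R (UU a (appII τ a)) (CC (appII τ a))) ∨
      ∃ l : List ℕ, ∀ᶠ u in residual B, pre l u → ∀ c, ¬ R u c := by
  rcases h with ⟨ρ, hρ⟩ | ⟨τ, hτ⟩
  · right
    refine ⟨posI ρ [], ?_⟩
    have key : ∀ g : List ℕ, ∀ n : ℕ, ∀ᶠ u in residual B, pre (posI ρ g) u →
        ∃ b, dig b = n ∧ pre (posI ρ (b :: g)) u := by
      intro g n
      have h1 : ∀ l, posI ρ g <+: l → ∃ l' ∈ {l' | ∃ b, dig b = n ∧ posI ρ (b :: g) = l'}, l <+: l' := by
        rintro l ⟨t, rfl⟩
        have h2 : t ++ [0] ≠ [] := by simp
        obtain ⟨a, ha⟩ := mv_surj h2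
        refine ⟨posI ρ (Nat.pair n a :: g), ⟨Nat.pair n a, by simp [dig], rfl⟩, ?_⟩
        simp only [posI, mvl, Nat.unpair_pair, ha]
        rw [← List.append_assoc, List.append_assoc (posI ρ g ++ t)]
        exact List.prefix_append _ _
      filter_upwards [density h1] with u hu hp
      obtain ⟨l', ⟨b, hb, rfl⟩, hl⟩ := hu hp
      exact ⟨b, hb, hl⟩
    have key2 := eventually_countable_forall.2 fun g => eventually_countable_forall.2 (key g)
    filter_upwards [key2] with u hu hl c hR
    -- build the play of II
    let f : (n : ℕ) → {g : List ℕ // pre (posI ρ g) u} := fun n => Nat.rec ⟨[], hl⟩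
      (fun n g => ⟨(hu g.1 (c n) g.2).choose :: g.1, (hu g.1 (c n) g.2).choose_spec.2⟩) n
    let b : B := fun n => (hu (f n).1 (c n) (f n).2).choose
    have hb : ∀ n, hist b n = (f n).1 := by
      intro n
      induction n with
      | zero => rfl
      | succ n ih => 
        change b n :: hist b n = _ :: (f n).1
        rw [ih]
    have hU : UU (appI ρ b) b = u := by
      apply UU_unique
      intro n
      have h1 := (f n).2
      rw [← hb, posI_eq] at h1
      exact pre_append_left h1
    have hC : CC b = c := by
      funext n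
      exact (hu (f n).1 (c n) (f n).2).choose_spec.1
    have := hρ b
    simp only [payoff, mem_ofPred_eq, evn_join, odd_join, hU, hC] at this
    exact this hR
  · left
    refine ⟨τ, fun a => ?_⟩
    have := hτ a
    simpa [payoff] using this

end Run7.h324
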