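import Pool.Agent.Run7.h324.Sig

/-! The hierarchy `L_α(ℝ)`; the sets of reals in `L(ℝ)` are closed under the projective operations. -/

open Set Filter Topology MeasureTheory Ordinal

namespace Run7.h324

theorem mem_LRa {α : Ordinal.{0}} {Y : ZFSet.{0}} :
    Y ∈ LRa α ↔ Y ∈ ZFSet.vonNeumann (ω + 1) ∨ ∃ β < α, Y ∈ Def (LRa β) := by
  rw [LRa]
  simp [mem_union, mem_iUnion]

theorem LRa_mono {α β : Ordinal.{0}} (h : α ≤ β) : LRa α ⊆ LRa β := by
  intro Y hY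
  rw [mem_LRa] at hY ⊢
  rcases hY with hY | ⟨γ, hγ, hY⟩
  · exact Or.inl hY
  · exact Or.inr ⟨γ, hγ.trans_le h, hY⟩

theorem LRa_base {α : Ordinal.{0}} {Y : ZFSet.{0}} (h : Y ∈ ZFSet.vonNeumann (ω + 1)) :
    Y ∈ LRa α := mem_LRa.2 (Or.inl h)

theorem LRa_trans {α : Ordinal.{0}} {Y y : ZFSet.{0}} (h : Y ∈ LRa α) (hy : y ∈ Y) : y ∈ LRa α := by
  rw [mem_LRa] at h
  rcases h with h | ⟨β, hβ, φ, v, hv, h⟩
  · exact LRa_base (ZFSet.isTransitive_vonNeumann _ _ h hy)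
  · exact LRa_mono hβ.le ((h y).1 hy).1

theorem vW {Y : ZFSet.{0}} : Y ∈ ZFSet.vonNeumann (ω + 1) ↔ ∀ y ∈ Y, ZFSet.rank y < ω := by
  rw [ZFSet.mem_vonNeumann, Order.lt_add_one_iff, ZFSet.rank_le_iff]

/-- definable predicates -/
def Df (X : Set ZFSet.{0}) (φ : (ℕ → ZFSet.{0}) → Prop) : Prop :=
  ∃ F : Fml, ∀ v : ℕ → ZFSet.{0}, (∀ i, v i ∈ X) → (φ v ↔ Sat X F v)

variable {X : Set ZFSet.{0}} {φ ψ : (ℕ → ZFSet.{0}) → Prop}

theorem Df.mem (X : Set ZFSet.{0}) (i j : ℕ) : Df X fun v => v i ∈ v j := ⟨.mem i j, fun _ _ => Iff.rfl⟩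
theorem Df.eq (X : Set ZFSet.{0}) (i j : ℕ) : Df X fun v => v i = v j := ⟨.eq i j, fun _ _ => Iff.rfl⟩

theorem Df.not (h : Df X φ) : Df X fun v => ¬ φ v := by
  obtain ⟨F, hF⟩ := h
  exact ⟨.neg F, fun v hv => not_congr (hF v hv)⟩

theorem Df.and (h : Df X φ) (h' : Df X ψ) : Df X fun v => φ v ∧ ψ v := by
  obtain ⟨F, hF⟩ := h
  obtain ⟨G, hG⟩ := h'
  exact ⟨.and F G, fun v hv => and_congr (hF v hv) (hG v hv)⟩

theorem Df.congr (h : Df X φ) (h' : ∀ v, (∀ i, v i ∈ X) → (φ v ↔ ψ v)) : Df X ψ := by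
  obtain ⟨F, hF⟩ := h
  exact ⟨F, fun v hv => (h' v hv).symm.trans (hF v hv)⟩

theorem Df.or (h : Df X φ) (h' : Df X ψ) : Df X fun v => φ v ∨ ψ v :=
  (h.not.and h'.not).not.congr fun v _ => by tauto

theorem Df.imp (h : Df X φ) (h' : Df X ψ) : Df X fun v => φ v → ψ v :=
  (h.and h'.not).not.congr fun v _ => by tauto

theorem Df.all (i : ℕ) (h : Df X φ) : Df X fun v => ∀ a ∈ X, φ (Function.update v i a) := by
  obtain ⟨F, hF⟩ := h
  refine ⟨.all i F, fun v hv => ?_⟩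
  have h1 : ∀ a ∈ X, ∀ j, Function.update v i a j ∈ X := by
    intro a ha j
    by_cases hj : j = i
    · subst hj; simpa using ha
    · rw [Function.update_of_ne hj]; exact hv j
  exact ⟨fun h a ha => (hF _ (h1 a ha)).1 (h a ha), fun h a ha => (hF _ (h1 a ha)).2 (h a ha)⟩

theorem Df.ex (i : ℕ) (h : Df X φ) : Df X fun v => ∃ a ∈ X, φ (Function.update v i a) :=
  (h.not.all i).not.congr fun v _ => by simp

/-- closure of the levels under members -/
def Tr (X : Set ZFSet.{0}) : Prop := ∀ Y ∈ X, ∀ y ∈ Y, y ∈ X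

theorem Df.ball (hX : Tr X) {i j : ℕ} (hij : i ≠ j) (h : Df X φ) :
    Df X fun v => ∀ a ∈ v j, φ (Function.update v i a) := by
  refine (((Df.mem X i j).imp h).all i).congr fun v hv => ?_
  simp only [Function.update_self, Function.update_of_ne hij.symm]
  exact ⟨fun h a ha => h a (hX _ (hv j) a ha) ha, fun h a _ ha => h a ha⟩

theorem Df.bex (hX : Tr X) {i j : ℕ} (hij : i ≠ j) (h : Df X φ) :
    Df X fun v => ∃ a ∈ v j, φ (Function.update v i a) :=
  (h.not.ball hX hij).not.congr fun v _ => by simp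

theorem Df.sing (hX : Tr X) (i j : ℕ) : Df X fun v => v i = {v j} := by
  have hi : i ≠ i + j + 1 := by omega
  have hj : j ≠ i + j + 1 := by omega
  refine (((Df.eq X (i + j + 1) j).ball hX hi.symm).and (Df.mem X j i)).congr fun v _ => ?_
  simp only [Function.update_self, Function.update_of_ne hj]
  constructor
  · rintro ⟨h1, h2⟩
    ext z
    rw [ZFSet.mem_singleton]
    exact ⟨h1 z, fun h => h ▸ h2⟩
  · intro h
    rw [h]
    exact ⟨fun a ha => ZFSet.mem_singleton.1 ha, ZFSet.mem_singleton.2 rfl⟩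

theorem Df.upair (hX : Tr X) (i j k : ℕ) : Df X fun v => v i = {v j, v k} := by
  have hi : i ≠ i + j + k + 1 := by omega
  have hj : j ≠ i + j + k + 1 := by omega
  have hk : k ≠ i + j + k + 1 := by omega
  refine ((((Df.eq X (i + j + k + 1) j).or (Df.eq X (i + j + k + 1) k)).ball hX hi.symm).and
    ((Df.mem X j i).and (Df.mem X k i))).congr fun v _ => ?_
  simp only [Function.update_self, Function.update_of_ne hj, Function.update_of_ne hk]
  constructor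
  · rintro ⟨h1, h2, h3⟩
    ext z
    rw [ZFSet.mem_pair]
    exact ⟨h1 z, fun h => h.elim (fun h => h ▸ h2) (fun h => h ▸ h3)⟩
  · intro h
    rw [h]
    exact ⟨fun a ha => ZFSet.mem_pair.1 ha, ZFSet.mem_pair.2 (Or.inl rfl), ZFSet.mem_pair.2 (Or.inr rfl)⟩

theorem Df.pair (hX : Tr X) (i j k : ℕ) : Df X fun v => v i = ZFSet.pair (v j) (v k) := by
  have hi : i ≠ i + j + k + 1 := by omega
  have hj : j ≠ i + j + k + 1 := by omega
  have hk : k ≠ i + j + k + 1 := by omega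
  refine ((((Df.sing hX (i + j + k + 1) j).or (Df.upair hX (i + j + k + 1) j k)).ball hX hi.symm).and
    (((Df.sing hX (i + j + k + 1) j).bex hX hi.symm).and
    ((Df.upair hX (i + j + k + 1) j k).bex hX hi.symm))).congr fun v _ => ?_
  simp only [Function.update_self, Function.update_of_ne hj, Function.update_of_ne hk]
  constructor
  · rintro ⟨h1, ⟨a, ha, ha'⟩, ⟨b, hb, hb'⟩⟩
    ext z
    rw [ZFSet.pair, ZFSet.mem_pair]
    exact ⟨h1 z, fun h => h.elim (fun h => by rw [h, ← ha']; exact ha) (fun h => by rw [h, ← hb']; exact hb)⟩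
  · intro h
    rw [h]
    refine ⟨fun a ha => ?_, ⟨_, ?_, rfl⟩, ⟨_, ?_, rfl⟩⟩
    · rwa [ZFSet.pair, ZFSet.mem_pair] at ha
    · rw [ZFSet.pair, ZFSet.mem_pair]; exact Or.inl rfl
    · rw [ZFSet.pair, ZFSet.mem_pair]; exact Or.inr rfl

/-- parameters -/
def par (l : List ZFSet.{0}) : ℕ → ZFSet.{0} := fun i => l.getD i ∅

theorem empty_mem (α : Ordinal.{0}) : (∅ : ZFSet.{0}) ∈ LRa α :=
  LRa_base (vW.2 fun y hy => absurd hy (ZFSet.notMem_empty y))

theorem par_mem {α : Ordinal.{0}} {l : List ZFSet.{0}} (h : ∀ a ∈ l, a ∈ LRa α) (i : ℕ) :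
    par l i ∈ LRa α := by
  unfold par
  rw [List.getD_eq_getElem?_getD]
  rcases Nat.lt_or_ge i l.length with h1 | h1
  · rw [List.getElem?_eq_getElem h1]
    exact h _ (List.getElem_mem h1)
  · rw [List.getElem?_eq_none h1]
    exact empty_mem α

theorem LRa_tr (α : Ordinal.{0}) : Tr (LRa α) := fun _ h _ hy => LRa_trans h hy

theorem LR_sep {α : Ordinal.{0}} {φ : (ℕ → ZFSet.{0}) → Prop} (h : Df (LRa α) φ)
    {v : ℕ → ZFSet.{0}} (hv : ∀ i, v i ∈ LRa α) {Y : ZFSet.{0}}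
    (hY : ∀ a, a ∈ Y ↔ a ∈ LRa α ∧ φ (Function.update v 0 a)) : Y ∈ LRa (Order.succ α) := by
  obtain ⟨F, hF⟩ := h
  rw [mem_LRa]
  refine Or.inr ⟨α, Order.lt_succ α, F, v, hv, fun a => ?_⟩
  rw [hY]
  refine and_congr_right fun ha => hF _ fun j => ?_
  by_cases hj : j = 0
  · subst hj; simpa using ha
  · rw [Function.update_of_ne hj]; exact hv j

/-! Reals as sets. -/

theorem nn_inj {m n : ℕ} : nn m = nn n ↔ m = n := by
  unfold nn
  rw [Ordinal.toZFSet_injective.eq_iff]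
  exact Nat.cast_inj

theorem rank_nn (n : ℕ) : ZFSet.rank (nn n) < ω := by
  rw [nn, Ordinal.rank_toZFSet]
  exact Ordinal.natCast_lt_omega0 n

theorem rank_pr {a b : ZFSet.{0}} (ha : ZFSet.rank a < ω) (hb : ZFSet.rank b < ω) :
    ZFSet.rank (ZFSet.pair a b) < ω := by
  have hl := Ordinal.isSuccLimit_omega0
  rw [ZFSet.pair, ZFSet.rank_pair, ZFSet.rank_pair, ZFSet.rank_singleton]
  exact max_lt (hl.succ_lt (hl.succ_lt ha)) (hl.succ_lt (max_lt (hl.succ_lt ha) (hl.succ_lt hb)))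

/-- the pair `(n, m)` -/
noncomputable def pn (n m : ℕ) : ZFSet.{0} := ZFSet.pair (nn n) (nn m)

theorem pn_inj {n m n' m' : ℕ} : pn n m = pn n' m' ↔ n = n' ∧ m = m' := by
  unfold pn
  rw [ZFSet.pair_inj, nn_inj, nn_inj]

theorem rank_pn (n m : ℕ) : ZFSet.rank (pn n m) < ω := rank_pr (rank_nn n) (rank_nn m)

theorem mem_rl {x : B} {p : ZFSet.{0}} : p ∈ rl x ↔ ∃ n, pn n (x n) = p := by
  rw [rl, ZFSet.mem_range]; rfl

theorem pn_mem_rl {x : B} {n m : ℕ} : pn n m ∈ rl x ↔ x n = m := by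
  rw [mem_rl]
  constructor
  · rintro ⟨k, hk⟩
    rw [pn_inj] at hk
    obtain ⟨rfl, h⟩ := hk
    exact h
  · rintro rfl
    exact ⟨n, rfl⟩

theorem rl_inj {x y : B} : rl x = rl y ↔ x = y := by
  refine ⟨fun h => ?_, fun h => h ▸ rfl⟩
  funext n
  have : pn n (x n) ∈ rl y := h ▸ pn_mem_rl.2 rfl
  exact (pn_mem_rl.1 this).symm

theorem rl_mem (x : B) (α : Ordinal.{0}) : rl x ∈ LRa α := by
  refine LRa_base (vW.2 fun y hy => ?_)
  obtain ⟨n, rfl⟩ := mem_rl.1 hy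
  exact rank_pn _ _

theorem mem_cs {A : Set B} {a : ZFSet.{0}} : a ∈ cs A ↔ ∃ x ∈ A, rl x = a := by
  rw [cs, ZFSet.mem_range]
  simp

theorem rl_mem_cs {A : Set B} {x : B} : rl x ∈ cs A ↔ x ∈ A := by
  rw [mem_cs]
  exact ⟨fun ⟨y, hy, h⟩ => rl_inj.1 h ▸ hy, fun h => ⟨x, h, rfl⟩⟩

/-- initial segments of reals -/
noncomputable def rlf (x : B) : ℕ → ZFSet.{0}
  | 0 => ∅
  | n + 1 => insert (pn n (x n)) (rlf x n)

theorem mem_rlf {x : B} {n : ℕ} {p : ZFSet.{0}} : p ∈ rlf x n ↔ ∃ i < n, pn i (x i) = p := by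
  induction n with
  | zero => simp [rlf, ZFSet.notMem_empty]
  | succ n ih =>
    rw [rlf, ZFSet.mem_insert_iff, ih]
    constructor
    · rintro (h | ⟨i, hi, h⟩)
      · exact ⟨n, Nat.lt_succ_self n, h.symm⟩
      · exact ⟨i, Nat.lt_succ_of_lt hi, h⟩
    · rintro ⟨i, hi, h⟩
      rcases Nat.lt_succ_iff_lt_or_eq.1 hi with h1 | rfl
      · exact Or.inr ⟨i, h1, h⟩
      · exact Or.inl h.symm

theorem rank_rlf (x : B) (n : ℕ) : ZFSet.rank (rlf x n) < ω := by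
  induction n with
  | zero => rw [rlf, ZFSet.rank_empty]; exact Ordinal.omega0_pos
  | succ n ih =>
    rw [rlf, ZFSet.rank_insert]
    exact max_lt (Ordinal.isSuccLimit_omega0.succ_lt (rank_pn _ _)) ih

theorem rlf_sub {x y : B} {n : ℕ} : (∀ u ∈ rlf x n, u ∈ rl y) ↔ ∀ i < n, x i = y i := by
  constructor
  · intro h i hi
    exact (pn_mem_rl.1 (h _ (mem_rlf.2 ⟨i, hi, rfl⟩))).symm
  · intro h u hu
    obtain ⟨i, hi, rfl⟩ := mem_rlf.1 hu
    rw [h i hi]
    exact pn_mem_rl.2 rfl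

theorem rlf_congr {x y : B} {n : ℕ} (h : ∀ i < n, x i = y i) : rlf x n = rlf y n := by
  ext p
  rw [mem_rlf, mem_rlf]
  exact ⟨fun ⟨i, hi, hp⟩ => ⟨i, hi, h i hi ▸ hp⟩, fun ⟨i, hi, hp⟩ => ⟨i, hi, (h i hi).symm ▸ hp⟩⟩

/-- a subset of `V_ω` as a set -/
noncomputable def hf (s : Set ZFSet.{0}) : ZFSet.{0} := ZFSet.sep (fun a => a ∈ s) (ZFSet.vonNeumann ω)

theorem mem_hf {s : Set ZFSet.{0}} {a : ZFSet.{0}} : a ∈ hf s ↔ ZFSet.rank a < ω ∧ a ∈ s := by
  rw [hf, ZFSet.mem_sep, ZFSet.mem_vonNeumann]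

theorem hf_mem (s : Set ZFSet.{0}) (α : Ordinal.{0}) : hf s ∈ LRa α :=
  LRa_base (vW.2 fun _ hy => (mem_hf.1 hy).1)

theorem RR_mem : cs univ ∈ LRa 1 := by
  have hX := LRa_tr 0
  let W : Set ZFSet.{0} := {p | ∃ n m, p = pn n m}
  let N : Set ZFSet.{0} := {t | ∃ n m m', m ≠ m' ∧ t = ZFSet.pair (pn n m) (pn n m')}
  let O : Set ZFSet.{0} := {p | ∃ n, p = nn n}
  let K : Set ZFSet.{0} := {t | ∃ n m, t = ZFSet.pair (nn n) (pn n m)}
  have h1 : Df (LRa 0) fun v => (∀ p ∈ v 0, p ∈ v 1) ∧ (∀ p ∈ v 0, ∀ q ∈ v 0, ∀ t ∈ v 2,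
      ¬ t = ZFSet.pair p q) ∧ ∀ n ∈ v 3, ∃ p ∈ v 0, ∃ t ∈ v 4, t = ZFSet.pair n p := by
    refine Df.and ?_ (Df.and ?_ ?_)
    · exact ((Df.mem (LRa 0) 10 1).ball (i := 10) (j := 0) hX (by omega)).congr fun v _ => by
        simp [Function.update]
    · exact (((((Df.pair hX 12 10 11).not).ball (i := 12) (j := 2) hX (by omega)).ball (i := 11) (j := 0)
        hX (by omega)).ball (i := 10) (j := 0) hX (by omega)).congr fun v _ => by
        simp [Function.update]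
    · exact ((((Df.pair hX 12 10 11).bex (i := 12) (j := 4) hX (by omega)).bex (i := 11) (j := 0)
        hX (by omega)).ball (i := 10) (j := 3) hX (by omega)).congr fun v _ => by
        simp [Function.update]
  have h2 : cs univ ∈ LRa (Order.succ 0) := by
    refine LR_sep h1 (v := par [∅, hf W, hf N, hf O, hf K]) (par_mem ?_) fun a => ?_
    · intro a ha
      simp only [List.mem_cons, List.not_mem_nil, or_false] at ha
      rcases ha with rfl | rfl | rfl | rfl | rfl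
      · exact empty_mem _
      all_goals exact hf_mem _ _
    · simp only [Function.update_self, Function.update_of_ne (show (1 : ℕ) ≠ 0 by omega),
        Function.update_of_ne (show (2 : ℕ) ≠ 0 by omega),
        Function.update_of_ne (show (3 : ℕ) ≠ 0 by omega),
        Function.update_of_ne (show (4 : ℕ) ≠ 0 by omega)]
      change _ ↔ _ ∧ (∀ p ∈ a, p ∈ hf W) ∧ (∀ p ∈ a, ∀ q ∈ a, ∀ t ∈ hf N, ¬ t = ZFSet.pair p q) ∧
        ∀ n ∈ hf O, ∃ p ∈ a, ∃ t ∈ hf K, t = ZFSet.pair n p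
      rw [mem_cs]
      constructor
      · rintro ⟨x, _, rfl⟩
        refine ⟨rl_mem x 0, fun p hp => ?_, fun p hp q hq t ht => ?_, fun n hn => ?_⟩
        · obtain ⟨n, rfl⟩ := mem_rl.1 hp
          exact mem_hf.2 ⟨rank_pn _ _, n, x n, rfl⟩
        · rintro rfl
          obtain ⟨n, m, m', hm, he⟩ := (mem_hf.1 ht).2
          rw [ZFSet.pair_inj] at he
          rw [he.1, pn_mem_rl] at hp
          rw [he.2, pn_mem_rl] at hq
          exact hm (hp.symm.trans hq)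
        · obtain ⟨n, rfl⟩ := (mem_hf.1 hn).2
          exact ⟨pn n (x n), pn_mem_rl.2 rfl, _, mem_hf.2 ⟨rank_pr (rank_nn n) (rank_pn _ _), n, x n, rfl⟩,
            rfl⟩
      · rintro ⟨_, h3, h4, h5⟩
        have h6 : ∀ n, ∃ m, pn n m ∈ a := by
          intro n
          obtain ⟨p, hp, t, ht, he⟩ := h5 (nn n) (mem_hf.2 ⟨rank_nn n, n, rfl⟩)
          obtain ⟨n', m, rfl⟩ := (mem_hf.1 ht).2
          rw [ZFSet.pair_inj, nn_inj] at he
          obtain ⟨rfl, rfl⟩ := he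
          exact ⟨m, hp⟩
        choose x hx using h6
        refine ⟨x, mem_univ _, ?_⟩
        ext p
        rw [mem_rl]
        constructor
        · rintro ⟨n, rfl⟩
          exact hx n
        · intro hp
          obtain ⟨_, n, m, rfl⟩ := mem_hf.1 (h3 p hp)
          refine ⟨n, ?_⟩
          by_contra hne
          have h7 : x n ≠ m := fun h => hne (by rw [h])
          exact h4 _ (hx n) _ hp _ (mem_hf.2 ⟨rank_pr (rank_pn _ _) (rank_pn _ _), n, x n, m, h7, rfl⟩) rfl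
  have h3 : (Order.succ 0 : Ordinal.{0}) = 1 := by simp
  rw [← h3]
  exact h2

theorem mem_RR {a : ZFSet.{0}} : a ∈ cs univ ↔ ∃ x, rl x = a := by
  rw [mem_cs]; simp

theorem InLR_sep {α : Ordinal.{0}} {φ : (ℕ → ZFSet.{0}) → Prop} (h : Df (LRa α) φ)
    {v : ℕ → ZFSet.{0}} (hv : ∀ i, v i ∈ LRa α) (hv1 : v 1 = cs univ) {A : Set B}
    (hA : ∀ x, x ∈ A ↔ φ (Function.update v 0 (rl x))) : InLR A := by
  refine ⟨Order.succ α, LR_sep ((Df.mem _ 0 1).and h) hv fun a => ?_⟩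
  rw [Function.update_self, Function.update_of_ne (show (1 : ℕ) ≠ 0 by omega), hv1]
  constructor
  · intro ha
    obtain ⟨x, hx, rfl⟩ := mem_cs.1 ha
    exact ⟨rl_mem x α, mem_RR.2 ⟨x, rfl⟩, (hA x).1 hx⟩
  · rintro ⟨_, ha, h2⟩
    obtain ⟨x, rfl⟩ := mem_RR.1 ha
    exact rl_mem_cs.2 ((hA x).2 h2)

theorem InLR.up {A : Set B} (h : InLR A) (β : Ordinal.{0}) : ∃ α, β ≤ α ∧ cs A ∈ LRa α := by
  obtain ⟨α, hα⟩ := h
  exact ⟨max α β, le_max_right _ _, LRa_mono (le_max_left _ _) hα⟩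

theorem InLR.compl {A : Set B} (h : InLR A) : InLR Aᶜ := by
  obtain ⟨α, hα1, hα⟩ := h.up 1
  refine InLR_sep (α := α) (φ := fun v => ¬ v 0 ∈ v 2) (Df.mem _ 0 2).not
    (v := par [∅, cs univ, cs A]) (par_mem fun a ha => ?_) rfl fun x => ?_
  · simp only [List.mem_cons, List.not_mem_nil, or_false] at ha
    rcases ha with rfl | rfl | rfl
    · exact empty_mem _
    · exact LRa_mono hα1 RR_mem
    · exact hα
  · change x ∈ Aᶜ ↔ ¬ rl x ∈ cs A
    rw [rl_mem_cs]; rfl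

theorem InLR.inter {A A' : Set B} (h : InLR A) (h' : InLR A') : InLR (A ∩ A') := by
  obtain ⟨α, hα1, hα⟩ := h.up 1
  obtain ⟨β, hβ1, hβ⟩ := h'.up α
  refine InLR_sep (α := β) (φ := fun v => v 0 ∈ v 2 ∧ v 0 ∈ v 3) ((Df.mem _ 0 2).and (Df.mem _ 0 3))
    (v := par [∅, cs univ, cs A, cs A']) (par_mem fun a ha => ?_) rfl fun x => ?_
  · simp only [List.mem_cons, List.not_mem_nil, or_false] at ha
    rcases ha with rfl | rfl | rfl | rfl
    · exact empty_mem _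
    · exact LRa_mono (hα1.trans hβ1) RR_mem
    · exact LRa_mono hβ1 hα
    · exact hβ
  · change x ∈ A ∩ A' ↔ rl x ∈ cs A ∧ rl x ∈ cs A'
    rw [rl_mem_cs, rl_mem_cs]; rfl

theorem rlf_inj {x y : B} {n m : ℕ} (h : rlf x n = rlf y m) : ∀ i < n, x i = y i := by
  intro i hi
  have : pn i (x i) ∈ rlf y m := h ▸ mem_rlf.2 ⟨i, hi, rfl⟩
  obtain ⟨j, _, hj⟩ := mem_rlf.1 this
  rw [pn_inj] at hj
  obtain ⟨rfl, hj⟩ := hj
  exact hj.symm

theorem exists_agree {U : Set B} (hU : IsOpen U) {x : B} (hx : x ∈ U) :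
    ∃ n, ∀ y : B, (∀ i < n, x i = y i) → y ∈ U := by
  obtain ⟨n, hn⟩ := exists_pre_subset hU hx
  refine ⟨n, fun y hy => hn y fun i hi => ?_⟩
  simp only [List.length_map, List.length_range] at hi
  simpa using hy i hi

theorem InLR.closed {C : Set B} (hC : IsClosed C) : InLR C := by
  let F : Set ZFSet.{0} := {l | ∃ x n, l = rlf x n}
  let K : Set ZFSet.{0} := {l | ∃ x ∈ C, ∃ n, l = rlf x n}
  have h1 : Df (LRa 1) fun v => ∀ l ∈ v 2, (∀ u ∈ l, u ∈ v 0) → l ∈ v 3 := by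
    exact ((((Df.mem (LRa 1) 11 0).ball (i := 11) (j := 10) (LRa_tr 1) (by omega)).imp
      (Df.mem (LRa 1) 10 3)).ball (i := 10) (j := 2) (LRa_tr 1) (by omega)).congr fun v _ => by
        simp [Function.update]
  refine InLR_sep (α := 1) h1 (v := par [∅, cs univ, hf F, hf K]) (par_mem fun a ha => ?_) rfl
    fun x => ?_
  · simp only [List.mem_cons, List.not_mem_nil, or_false] at ha
    rcases ha with rfl | rfl | rfl | rfl
    · exact empty_mem _
    · exact RR_mem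
    all_goals exact hf_mem _ _
  · change x ∈ C ↔ ∀ l ∈ hf F, (∀ u ∈ l, u ∈ rl x) → l ∈ hf K
    constructor
    · intro hx l hl hl'
      obtain ⟨h2, y, n, rfl⟩ := mem_hf.1 hl
      rw [rlf_sub] at hl'
      exact mem_hf.2 ⟨h2, x, hx, n, rlf_congr hl'⟩
    · intro h
      by_contra hx
      obtain ⟨n, hn⟩ := exists_agree hC.isOpen_compl hx
      obtain ⟨_, y, hy, m, hm⟩ := mem_hf.1 (h (rlf x n) (mem_hf.2 ⟨rank_rlf x n, x, n, rfl⟩)
        (rlf_sub.2 fun i _ => rfl))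
      exact hn y (rlf_inj hm) hy

theorem InLR.preimage {f : B → B} (hf' : Continuous f) {S : Set B} (hS : InLR S) :
    InLR (f ⁻¹' S) := by
  obtain ⟨α, hα1, hα⟩ := hS.up 1
  let F : Set ZFSet.{0} := {t | ∃ x n k, (∀ y : B, (∀ i < n, x i = y i) → f y k = f x k) ∧
    t = ZFSet.pair (rlf x n) (pn k (f x k))}
  have h1 : Df (LRa α) fun v => ∃ b ∈ v 2, ∀ p ∈ b, ∃ t ∈ v 3, ∃ l ∈ LRa α, t = ZFSet.pair l p ∧
      ∀ u ∈ l, u ∈ v 0 := by
    exact ((((((Df.pair (LRa_tr α) 12 13 11).and ((Df.mem (LRa α) 14 0).ball (i := 14) (j := 13)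
      (LRa_tr α) (by omega))).ex 13).bex (i := 12) (j := 3) (LRa_tr α) (by omega)).ball (i := 11)
      (j := 10) (LRa_tr α) (by omega)).bex (i := 10) (j := 2) (LRa_tr α) (by omega)).congr
      fun v _ => by simp [Function.update]
  refine InLR_sep (α := α) h1 (v := par [∅, cs univ, cs S, hf F]) (par_mem fun a ha => ?_) rfl
    fun x => ?_
  · simp only [List.mem_cons, List.not_mem_nil, or_false] at ha
    rcases ha with rfl | rfl | rfl | rfl
    · exact empty_mem _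
    · exact LRa_mono hα1 RR_mem
    · exact hα
    · exact hf_mem _ _
  · change f x ∈ S ↔ ∃ b ∈ cs S, ∀ p ∈ b, ∃ t ∈ hf F, ∃ l ∈ LRa α, t = ZFSet.pair l p ∧
      ∀ u ∈ l, u ∈ rl x
    constructor
    · intro hx
      refine ⟨rl (f x), rl_mem_cs.2 hx, fun p hp => ?_⟩
      obtain ⟨k, rfl⟩ := mem_rl.1 hp
      have ho : IsOpen {y : B | f y k = f x k} := by
        have : {y : B | f y k = f x k} = (fun y => f y k) ⁻¹' {f x k} := rfl
        rw [this]
        exact (isOpen_discrete _).preimage ((continuous_apply k).comp hf')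
      obtain ⟨n, hn⟩ := exists_agree ho (x := x) rfl
      refine ⟨_, mem_hf.2 ⟨rank_pr (rank_rlf x n) (rank_pn _ _), x, n, k, hn, rfl⟩, rlf x n, ?_, rfl,
        rlf_sub.2 fun i _ => rfl⟩
      exact LRa_base (vW.2 fun y hy => (ZFSet.rank_lt_of_mem hy).trans (rank_rlf x n))
    · rintro ⟨b, hb, h2⟩
      obtain ⟨y, hy, rfl⟩ := mem_cs.1 hb
      have : f x = y := by
        funext k
        obtain ⟨t, ht, l, _, he, hl⟩ := h2 (pn k (y k)) (pn_mem_rl.2 rfl)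
        obtain ⟨_, x', n, k', h3, rfl⟩ := mem_hf.1 ht
        rw [ZFSet.pair_inj, pn_inj] at he
        obtain ⟨rfl, rfl, he⟩ := he
        rw [rlf_sub] at hl
        rw [h3 x hl, he]
      rw [this]
      exact hy

theorem InLR.proj {S : Set B} (hS : InLR S) : InLR {x | ∃ y, join x y ∈ S} := by
  obtain ⟨α, hα1, hα⟩ := hS.up 1
  let G : Set ZFSet.{0} := {t | ∃ n m, t = ZFSet.pair (pn n m) (pn (2 * n) m)}
  let H : Set ZFSet.{0} := {t | ∃ n m, t = ZFSet.pair (pn n m) (pn (2 * n + 1) m)}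
  have h1 : Df (LRa α) fun v => ∃ b ∈ v 1, ∃ c ∈ v 2,
      (∀ p ∈ v 0, ∃ q ∈ c, ∃ t ∈ v 3, t = ZFSet.pair p q) ∧
      (∀ p ∈ b, ∃ q ∈ c, ∃ t ∈ v 4, t = ZFSet.pair p q) := by
    exact ((((((Df.pair (LRa_tr α) 14 12 13).bex (i := 14) (j := 3) (LRa_tr α) (by omega)).bex
      (i := 13) (j := 11) (LRa_tr α) (by omega)).ball (i := 12) (j := 0) (LRa_tr α) (by omega)).and
      ((((Df.pair (LRa_tr α) 14 12 13).bex (i := 14) (j := 4) (LRa_tr α) (by omega)).bex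
      (i := 13) (j := 11) (LRa_tr α) (by omega)).ball (i := 12) (j := 10) (LRa_tr α)
      (by omega))).bex (i := 11) (j := 2) (LRa_tr α) (by omega) |>.bex (i := 10) (j := 1) (LRa_tr α)
      (by omega)).congr fun v _ => by simp [Function.update]
  refine InLR_sep (α := α) h1 (v := par [∅, cs univ, cs S, hf G, hf H]) (par_mem fun a ha => ?_) rfl
    fun x => ?_
  · simp only [List.mem_cons, List.not_mem_nil, or_false] at ha
    rcases ha with rfl | rfl | rfl | rfl | rfl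
    · exact empty_mem _
    · exact LRa_mono hα1 RR_mem
    · exact hα
    all_goals exact hf_mem _ _
  · change (∃ y, join x y ∈ S) ↔ ∃ b ∈ cs univ, ∃ c ∈ cs S,
      (∀ p ∈ rl x, ∃ q ∈ c, ∃ t ∈ hf G, t = ZFSet.pair p q) ∧
      (∀ p ∈ b, ∃ q ∈ c, ∃ t ∈ hf H, t = ZFSet.pair p q)
    constructor
    · rintro ⟨y, hy⟩
      refine ⟨rl y, rl_mem_cs.2 (mem_univ _), rl (join x y), rl_mem_cs.2 hy, fun p hp => ?_,
        fun p hp => ?_⟩
      · obtain ⟨n, rfl⟩ := mem_rl.1 hp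
        have h2 : join x y (2 * n) = x n := congrFun (evn_join x y) n
        exact ⟨pn (2 * n) (x n), pn_mem_rl.2 h2, _,
          mem_hf.2 ⟨rank_pr (rank_pn _ _) (rank_pn _ _), n, x n, rfl⟩, rfl⟩
      · obtain ⟨n, rfl⟩ := mem_rl.1 hp
        have h2 : join x y (2 * n + 1) = y n := congrFun (odd_join x y) n
        exact ⟨pn (2 * n + 1) (y n), pn_mem_rl.2 h2, _,
          mem_hf.2 ⟨rank_pr (rank_pn _ _) (rank_pn _ _), n, y n, rfl⟩, rfl⟩
    · rintro ⟨b, hb, c, hc, h2, h3⟩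
      obtain ⟨y, rfl⟩ := mem_RR.1 hb
      obtain ⟨z, hz, rfl⟩ := mem_cs.1 hc
      refine ⟨y, ?_⟩
      have h4 : evn z = x := by
        funext n
        obtain ⟨q, hq, t, ht, he⟩ := h2 (pn n (x n)) (pn_mem_rl.2 rfl)
        obtain ⟨_, n', m, rfl⟩ := mem_hf.1 ht
        rw [ZFSet.pair_inj, pn_inj] at he
        obtain ⟨⟨rfl, rfl⟩, rfl⟩ := he
        have h6 : z (2 * n') = x n' := pn_mem_rl.1 hq
        exact h6
      have h5 : odd z = y := by
        funext n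
        obtain ⟨q, hq, t, ht, he⟩ := h3 (pn n (y n)) (pn_mem_rl.2 rfl)
        obtain ⟨_, n', m, rfl⟩ := mem_hf.1 ht
        rw [ZFSet.pair_inj, pn_inj] at he
        obtain ⟨⟨rfl, rfl⟩, rfl⟩ := he
        have h6 : z (2 * n' + 1) = y n' := pn_mem_rl.1 hq
        exact h6
      rw [← h4, ← h5, join_evn_odd]
      exact hz

/-- The sets of reals in `L(ℝ)` form a class closed under the projective operations. -/
theorem PClass_InLR : PClass InLR where
  closed _ h := InLR.closed h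
  compl _ h := h.compl
  inter _ _ h h' := h.inter h'
  preimage _ hf _ h := h.preimage hf
  proj _ h := h.proj

end Run7.h324
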