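import Pool.Agent.Run7.h324.Regress

/-! The local form of the theorem. -/

open Set Filter Topology MeasureTheory Ordinal

namespace Run7.h324

/-- a real coding the first `n` terms of the sequence `x` -/
def cod (n : ℕ) (x : ℕ → B) : B := fun k => Nat.casesOn k n (fun k => x k.unpair.1 k.unpair.2)

theorem dec_cod (n : ℕ) (x : ℕ → B) : dec (cod n x) = tk n x := by
  simp [dec, cod]

variable {P : Set B → Prop}

theorem nice_tk (hP : PClass P) {T : Set (List B)} (hT : P {z | dec z ∈ T}) (n : ℕ) :
    Nice P {x : ℕ → B | tk n x ∈ T} := by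
  have h1 : Nice P {z | dec z ∈ T} := nice_of_P hP hT
  have h2 := h1.comp (g := fun x : ℕ → B => cod n x) (by
      refine measurable_pi_lambda _ fun k => ?_
      cases k with
      | zero => exact measurable_const
      | succ k => exact meas_ap (f := fun x : ℕ → B => x k.unpair.1) (by fun_prop) measurable_const)
  refine h2.congr fun x => ?_
  simp [dec_cod]

/-- The main theorem, in general form. -/
theorem main_aux (hP : PClass P) (hdet : ∀ S, P S → Determined S) {A : B → B → Prop}
    {T : Set (List B)} (hA : Nice P {p : B × B | A p.1 p.2}) (hT : P {z | dec z ∈ T})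
    (hT0 : [] ∈ T) (hS : Spl A T) :
    ∃ T' ⊆ T, [] ∈ T' ∧ (∀ q ∈ T', ∀ q', q' <+: q → q' ∈ T') ∧
      (∀ q ∈ T', ∀ w, WO w → ∀ m, ∃ u z, Function.Surjective u ∧ u 0 = m ∧ A (pb w u) z ∧
        q ++ [z] ∈ T') ∧
      ∃ c0, ∀ z, dec z ∈ T' ↔ Run c0 (z 0) (fun i j => z (Nat.pair i j + 1)) := by
  obtain ⟨c0, hc0⟩ := exists_GoodAll hP hdet hA (fun n => nice_tk hP hT n) hS (n := 0)
    (x := fun _ _ => 0) (by simpa [tk] using hT0)
  let T' : Set (List B) := {q | Run c0 q.length (fun i => q.getD i (fun _ => 0))}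
  have htk : ∀ q : List B, tk q.length (fun i => q.getD i (fun _ => 0)) = q := by
    intro q
    apply List.ext_getElem
    · simp [tk]
    · intro i h1 h2
      simp [tk, h2]
  have hlen : ∀ n x, (tk n x).length = n := fun n x => by simp [tk]
  have hget : ∀ n (x : ℕ → B), ∀ i < n, (tk n x).getD i (fun _ => 0) = x i := by
    intro n x i hi
    simp [tk, hi]
  have hmem : ∀ n x, tk n x ∈ T' ↔ Run c0 n x := by
    intro n x
    change Run c0 (tk n x).length _ ↔ _
    rw [hlen]
    exact ⟨fun h => h.congr (hget n x), fun h => h.congr fun i hi => (hget n x i hi).symm⟩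
  refine ⟨T', ?_, ?_, ?_, ?_, ?_⟩
  · intro q hq
    have := Run.mem hc0 hT0 hq
    rwa [htk] at this
  · exact ⟨fun _ => c0, fun _ _ _ => 0, fun _ _ _ => 0, rfl, fun i hi => absurd hi (by simp)⟩
  · intro q hq q' hq'
    change Run c0 q'.length _
    refine (hq.mono hq'.length_le).congr fun i hi => ?_
    obtain ⟨t, rfl⟩ := hq'
    simp [List.getElem?_append_left hi]
  · intro q hq w hw m
    obtain ⟨u, z, h1, h2, h3, h4⟩ := Run.split hc0 hT0 hq hw m
    refine ⟨u, z, h1, h2, h3, ?_⟩
    rw [← hmem, tk_update, htk] at h4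
    exact h4
  · exact ⟨c0, fun z => hmem _ _⟩

/-- `E`-splitting for a map `g` into the ordinals and ordinals `E α`, `α < ω₁`. -/
theorem main_local (hP : PClass P) (hdet : ∀ S, P S → Determined S) {g : B → Ordinal.{0}}
    {E : Ordinal.{0} → Ordinal.{0}} {T : Set (List B)}
    (hE : P {z | PWO (evn z) ∧ g (odd z) = E (rk (evn z) 0)}) (hT : P {z | dec z ∈ T})
    (hT0 : [] ∈ T) (hS : ∀ q ∈ T, ∀ α < ω₁, ∃ x, g x = E α ∧ q ++ [x] ∈ T) :
    ∃ T' ⊆ T, [] ∈ T' ∧ (∀ q ∈ T', ∀ q', q' <+: q → q' ∈ T') ∧
      (∀ q ∈ T', ∀ α < ω₁, ∃ x, g x = E α ∧ q ++ [x] ∈ T') ∧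
      ∃ c0, ∀ z, dec z ∈ T' ↔ Run c0 (z 0) (fun i j => z (Nat.pair i j + 1)) := by
  have hA : Nice P {p : B × B | PWO p.1 ∧ g p.2 = E (rk p.1 0)} := by
    have h1 := (nice_of_P hP hE).comp (g := fun p : B × B => join p.1 p.2)
      (meas_join measurable_fst measurable_snd)
    exact h1.congr fun p => by simp
  obtain ⟨T', h1, h2, h3, h4, h5⟩ := main_aux hP hdet (A := fun v x => PWO v ∧ g x = E (rk v 0)) hA
    hT hT0 (fun q hq w hw u hu => by
      obtain ⟨x, hx, hx'⟩ := hS q hq (rk w (u 0)) (rk_lt_omega_one _ _)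
      exact ⟨x, ⟨hw.toPWO.pb u, by rw [rk_pb hw.toPWO hu, hx]⟩, hx'⟩)
  refine ⟨T', h1, h2, h3, fun q hq α hα => ?_, h5⟩
  have h6 : ∃ w m, WO w ∧ rk w m = α := by
    have h7 : max (Order.succ α) ω < ω₁ :=
      max_lt ((Cardinal.isSuccLimit_omega 1).succ_lt hα) Ordinal.omega0_lt_omega_one
    obtain ⟨w, hw, hr⟩ := exists_WO (le_max_right (Order.succ α) ω) h7
    have h8 : α ∈ range (rk w) := by
      rw [hr]
      exact (Order.lt_succ α).trans_le (le_max_left _ _)
    obtain ⟨m, hm⟩ := h8
    exact ⟨w, m, hw, hm⟩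
  obtain ⟨w, m, hw, hm⟩ := h6
  obtain ⟨u, z, hu, hum, ⟨_, hA'⟩, hz⟩ := h4 q hq w hw m
  refine ⟨z, ?_, hz⟩
  rw [hA', rk_pb hw.toPWO hu, hum, hm]

/-- For prewellorderings of length at most `ω₁`. -/
theorem nice_rank (hP : PClass P) {g : B → Ordinal.{0}} {lam : Ordinal.{0}}
    (hg : range g = Iio lam) (hle : P {z | g (evn z) ≤ g (odd z)}) :
    P {z | PWO (evn z) ∧ g (odd z) = if rk (evn z) 0 < lam then rk (evn z) 0 else 0} := by
  have hn : Nice P {p : B × B | g p.1 ≤ g p.2} := by
    have h1 := (nice_of_P hP hle).comp (g := fun p : B × B => join p.1 p.2)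
      (meas_join measurable_fst measurable_snd)
    exact h1.congr fun p => by simp
  have hn' : ∀ {X : Type} [MeasurableSpace X] {a b : X → B}, Measurable a → Measurable b →
      Nice P {x | g (a x) ≤ g (b x)} := fun ha hb => hn.comp (ha.prodMk hb)
  -- the relation `g x = rk v 0`
  let Iso : B → B → Prop := fun v x => ∃ Z : ℕ → B, Z 0 = x ∧ ∀ i : ℕ, (i = 0 ∨ lt v i 0) →
    (∀ y : B, ¬ g (Z i) ≤ g y → ∃ j : ℕ, lt v j i ∧ g y ≤ g (Z j) ∧ g (Z j) ≤ g y) ∧
    ∀ j : ℕ, lt v j i → ¬ g (Z i) ≤ g (Z j)
  have hIso : ∀ v x, PWO v → (Iso v x ↔ g x = rk v 0) := by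
    intro v x hv
    constructor
    · rintro ⟨Z, hZ0, hZ⟩
      have key : ∀ i, (i = 0 ∨ lt v i 0) → g (Z i) = rk v i := by
        intro i
        induction i using hv.wellFounded.induction with
        | _ i ih =>
          intro hi
          obtain ⟨h1, h2⟩ := hZ i hi
          have h3 : ∀ j, lt v j i → (j = 0 ∨ lt v j 0) := by
            intro j hj
            rcases hi with rfl | hi
            · exact Or.inr hj
            · exact Or.inr (hv.trans _ _ _ hj hi)
          apply le_antisymm
          · by_contra hlt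
            rw [not_le] at hlt
            have h4 : g (Z i) ∈ Iio lam := hg ▸ mem_range_self _
            have h5 : rk v i ∈ range g := by
              rw [hg]; exact hlt.trans h4
            obtain ⟨y, hy⟩ := h5
            obtain ⟨j, hj, hj1, hj2⟩ := h1 y (by rw [hy]; exact not_le.2 hlt)
            have h6 : g y = rk v j := by
              rw [← ih j hj (h3 j hj)]
              exact le_antisymm hj1 hj2
            rw [hy] at h6
            exact absurd (hv.lt_iff.1 hj) (by rw [h6]; exact lt_irrefl _)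
          · refine rk_le hv.wellFounded fun j hj => ?_
            rw [← ih j hj (h3 j hj)]
            exact not_le.1 (h2 j hj)
      rw [← hZ0]
      exact key 0 (Or.inl rfl)
    · intro hx
      have h1 : ∀ i, ∃ z, (i = 0 → z = x) ∧ ((i = 0 ∨ lt v i 0) → g z = rk v i) := by
        intro i
        by_cases h0 : i = 0
        · exact ⟨x, fun _ => rfl, fun _ => by rw [hx, h0]⟩
        · by_cases h2 : lt v i 0
          · have h3 : rk v i ∈ range g := by
              rw [hg]
              have h4 : g x ∈ Iio lam := hg ▸ mem_range_self _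
              rw [hx] at h4
              exact (hv.lt_iff.1 h2).trans h4
            obtain ⟨z, hz⟩ := h3
            exact ⟨z, fun h => absurd h h0, fun _ => hz⟩
          · exact ⟨x, fun h => absurd h h0, fun h => by tauto⟩
      choose Z hZ1 hZ2 using h1
      refine ⟨Z, hZ1 0 rfl, fun i hi => ⟨fun y hy => ?_, fun j hj => ?_⟩⟩
      · rw [hZ2 i hi, not_le] at hy
        obtain ⟨j, hj, hj'⟩ := exists_rk_eq hv hy
        have h3 : j = 0 ∨ lt v j 0 := by
          rcases hi with rfl | hi
          · exact Or.inr hj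
          · exact Or.inr (hv.trans _ _ _ hj hi)
        exact ⟨j, hj, by rw [hZ2 j h3, hj'], by rw [hZ2 j h3, hj']⟩
      · have h3 : j = 0 ∨ lt v j 0 := by
          rcases hi with rfl | hi
          · exact Or.inr hj
          · exact Or.inr (hv.trans _ _ _ hj hi)
        rw [hZ2 i hi, hZ2 j h3, not_le]
        exact hv.lt_iff.1 hj
  have hnIso : ∀ {X : Type} [MeasurableSpace X] {v x : X → B}, Measurable v → Measurable x →
      Nice P {p | Iso (v p) (x p)} := by
    intro X _ v x hv hx
    refine .ex hP (.and hP ?_ (.all hP (.imp hP (.or hP ?_ ?_) (.and hP (.all hP (.imp hP (.not hP ?_)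
      (.ex hP (.and hP ?_ (.and hP ?_ ?_))))) (.all hP (.imp hP ?_ (.not hP ?_)))))))
    · exact nice_of_measurable hP (measurableSet_eq_fun (by fun_prop) (by fun_prop))
    · exact nice_of_measurable hP (measurableSet_eq_fun (by fun_prop) (by fun_prop))
    · exact nice_lt hP (by fun_prop) (by fun_prop) (by fun_prop)
    · exact hn' (meas_app (by fun_prop) (by fun_prop)) (by fun_prop)
    · exact nice_lt hP (by fun_prop) (by fun_prop) (by fun_prop)
    · exact hn' (by fun_prop) (meas_app (by fun_prop) (by fun_prop))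
    · exact hn' (meas_app (by fun_prop) (by fun_prop)) (by fun_prop)
    · exact nice_lt hP (by fun_prop) (by fun_prop) (by fun_prop)
    · exact hn' (meas_app (by fun_prop) (by fun_prop)) (meas_app (by fun_prop) (by fun_prop))
  have h1 : Nice P {z : B | PWO (evn z) ∧ (Iso (evn z) (odd z) ∨
      ((∀ y : B, ¬ Iso (evn z) y) ∧ ∀ y : B, g (odd z) ≤ g y))} := by
    refine .and hP (nice_PWO hP (meas_evn measurable_id)) (.or hP
      (hnIso (meas_evn measurable_id) (meas_odd measurable_id)) (.and hP (.all hP (.not hP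
        (hnIso (meas_evn measurable_fst) measurable_snd))) (.all hP ?_)))
    exact hn' (meas_odd measurable_fst) measurable_snd
  have h2 := h1 id measurable_id
  convert h2 using 1
  ext z
  simp only [mem_ofPred_eq, preimage_id_eq, id_eq]
  refine and_congr_right fun hv => ?_
  rw [hIso _ _ hv]
  have h3 : (∀ y, ¬ Iso (evn z) y) ↔ ¬ rk (evn z) 0 < lam := by
    constructor
    · intro h hlt
      have h4 : rk (evn z) 0 ∈ range g := by rw [hg]; exact hlt
      obtain ⟨y, hy⟩ := h4
      exact h y ((hIso _ _ hv).2 hy)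
    · intro h y hy
      rw [hIso _ _ hv] at hy
      have h4 : g y ∈ Iio lam := hg ▸ mem_range_self _
      rw [hy] at h4
      exact h h4
  have h5 : (∀ y, g (odd z) ≤ g y) ↔ g (odd z) = 0 := by
    constructor
    · intro h
      have h4 : (0 : Ordinal) ∈ range g := by
        rw [hg]
        have h6 : g (odd z) ∈ Iio lam := hg ▸ mem_range_self _
        exact (bot_le (a := g (odd z))).trans_lt h6
      obtain ⟨y, hy⟩ := h4
      have := h y
      rw [hy] at this
      exact le_antisymm this bot_le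
    · intro h y
      rw [h]
      exact bot_le
  rw [h3, h5]
  by_cases h6 : rk (evn z) 0 < lam
  · simp [h6]
  · simp only [h6, if_false, not_false_eq_true, true_and]
    constructor
    · intro h; exact Or.inr h
    · rintro (h | h)
      · have h4 : g (odd z) ∈ Iio lam := hg ▸ mem_range_self _
        rw [h] at h4
        exact absurd h4 h6
      · exact h

end Run7.h324
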