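import Pool.Agent.Run7.h324.Nice

/-! Measurability of the basic functions, niceness of the basic relations. -/

open Set Filter Topology MeasureTheory

namespace Run7.h324

instance : MeasurableSpace (List ℕ) := ⊤
instance : DiscreteMeasurableSpace (List ℕ) := ⟨fun _ => trivial⟩
instance : Cod (List ℕ) := cod_of_countable _

variable {P : Set B → Prop} {X : Type*} [MeasurableSpace X] {Y : Type*} [MeasurableSpace Y]

theorem meas_arg {D : Type*} [Countable D] [MeasurableSpace D] [MeasurableSingletonClass D]
    {F : X → D → Y} {g : X → D} (hF : ∀ d, Measurable fun x => F x d) (hg : Measurable g) :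
    Measurable fun x => F x (g x) :=
  (measurable_from_prod_countable_left (f := fun p : X × D => F p.1 p.2) hF).comp
    (measurable_id.prodMk hg)

theorem meas_app {D : Type*} [Countable D] [MeasurableSpace D] [MeasurableSingletonClass D]
    {f : X → D → Y} {g : X → D} (hf : Measurable f) (hg : Measurable g) :
    Measurable fun x => f x (g x) :=
  meas_arg (fun d => (measurable_pi_apply d).comp hf) hg

theorem meas1 {D E : Type*} [Countable D] [MeasurableSpace D] [MeasurableSingletonClass D]
    [MeasurableSpace E] (F : D → E) {a : X → D} (ha : Measurable a) : Measurable fun x => F (a x) :=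
  meas_arg (F := fun _ d => F d) (fun _ => measurable_const) ha

theorem meas2 {D D' E : Type*} [Countable D] [MeasurableSpace D] [MeasurableSingletonClass D]
    [Countable D'] [MeasurableSpace D'] [MeasurableSingletonClass D']
    [MeasurableSpace E] (F : D → D' → E) {a : X → D} {b : X → D'} (ha : Measurable a)
    (hb : Measurable b) : Measurable fun x => F (a x) (b x) :=
  meas_arg (F := fun x d => F (a x) d) (fun d => meas1 (fun d' => F d' d) ha) hb

theorem meas_B {f : X → B} (hf : ∀ n, Measurable fun x => f x n) : Measurable f :=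
  measurable_pi_lambda _ hf

theorem mset_countable {D : Type*} [Countable D] [MeasurableSpace D] [MeasurableSingletonClass D]
    {φ : D → X → Prop} {g : X → D} (h : ∀ d, MeasurableSet {x | φ d x}) (hg : Measurable g) :
    MeasurableSet {x | φ (g x) x} := by
  have : {x | φ (g x) x} = ⋃ d, ({x | g x = d} ∩ {x | φ d x}) := by
    ext x
    simp
  rw [this]
  exact MeasurableSet.iUnion fun d => (hg (measurableSet_singleton d)).inter (h d)

theorem meas_sInf {φ : X → ℕ → Prop} (h : ∀ a, MeasurableSet {x | φ x a}) :
    Measurable fun x => sInf {a | φ x a} := by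
  refine measurable_to_countable' fun k => ?_
  have : (fun x => sInf {a | φ x a}) ⁻¹' {k} =
      ({x | φ x k} ∩ ⋂ j : ℕ, ⋂ _ : j < k, {x | φ x j}ᶜ) ∪ ({x | k = 0} ∩ ⋂ j : ℕ, {x | φ x j}ᶜ) := by
    ext x
    simp only [mem_preimage, mem_singleton_iff, mem_union, mem_inter_iff, mem_ofPred_eq, mem_iInter,
      mem_compl_iff]
    by_cases hn : {a | φ x a}.Nonempty
    · constructor
      · intro hk
        left
        subst hk
        exact ⟨Nat.sInf_mem hn, fun j hj => Nat.notMem_of_lt_sInf hj⟩
      · rintro (⟨h1, h2⟩ | ⟨_, h2⟩)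
        · apply le_antisymm (Nat.sInf_le h1)
          by_contra hlt
          rw [not_le] at hlt
          exact h2 _ hlt (Nat.sInf_mem hn)
        · obtain ⟨a, ha⟩ := hn
          exact absurd ha (h2 a)
    · have h0 : {a | φ x a} = ∅ := not_nonempty_iff_eq_empty.1 hn
      have h1 : ∀ j, ¬ φ x j := fun j hj => hn ⟨j, hj⟩
      rw [h0, Nat.sInf_empty]
      constructor
      · intro hk
        exact Or.inr ⟨hk.symm, h1⟩
      · rintro (⟨h2, _⟩ | ⟨h2, _⟩)
        · exact absurd h2 (h1 k)
        · exact h2.symm
  rw [this]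
  refine ((h k).inter (MeasurableSet.iInter fun j => MeasurableSet.iInter fun _ => (h j).compl)).union
    ((MeasurableSet.const _).inter (MeasurableSet.iInter fun j => (h j).compl))

/-! basic functions -/

theorem meas_evn {f : X → B} (hf : Measurable f) : Measurable fun x => evn (f x) :=
  continuous_evn.measurable.comp hf

theorem meas_odd {f : X → B} (hf : Measurable f) : Measurable fun x => odd (f x) :=
  continuous_odd.measurable.comp hf

theorem meas_join {f g : X → B} (hf : Measurable f) (hg : Measurable g) :
    Measurable fun x => join (f x) (g x) :=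
  continuous_join.measurable.comp (hf.prodMk hg)

theorem meas_ap {f : X → B} {n : X → ℕ} (hf : Measurable f) (hn : Measurable n) :
    Measurable fun x => f x (n x) := meas_app hf hn

theorem meas_hist {f : X → B} (hf : Measurable f) (n : ℕ) : Measurable fun x => hist (f x) n := by
  induction n with
  | zero => exact measurable_const
  | succ n ih => exact meas2 (fun a l => a :: l) (meas_ap hf measurable_const) ih

theorem meas_appII {τ : X → Str} {a : X → B} (hτ : Measurable τ) (ha : Measurable a) :
    Measurable fun x => appII (τ x) (a x) :=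
  meas_B fun n => show Measurable (fun x => τ x (hist (a x) (n + 1))) from
    meas_app hτ (meas_hist ha (n + 1))

theorem meas_pos {a b : X → B} (ha : Measurable a) (hb : Measurable b) (n : ℕ) :
    Measurable fun x => pos (a x) (b x) n := by
  induction n with
  | zero => exact measurable_const
  | succ n ih =>
    refine meas2 (fun l l' => l ++ l') (meas2 (fun l l' => l ++ l') ih ?_) ?_
    · exact meas1 mv (meas_ap ha measurable_const)
    · exact meas1 mvl (meas_ap hb measurable_const)

theorem meas_UU {a b : X → B} (ha : Measurable a) (hb : Measurable b) :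
    Measurable fun x => UU (a x) (b x) :=
  meas_B fun n => meas1 (fun l => l.getD n 0) (meas_pos ha hb (n + 1))

theorem meas_CC {b : X → B} (hb : Measurable b) : Measurable fun x => CC (b x) :=
  meas_B fun n => meas1 dig (meas_ap hb (measurable_const (a := n)))

theorem meas_posII {τ : X → Str} (hτ : Measurable τ) (h : List ℕ) :
    Measurable fun x => posII (τ x) h := by
  induction h with
  | nil => exact measurable_const
  | cons a h ih =>
    refine meas2 (fun l l' => l ++ l') (meas2 (fun l l' => l ++ l') ih measurable_const) ?_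
    exact meas1 mvl ((measurable_pi_apply _).comp hτ)

theorem mset_pre {l : X → List ℕ} {u : X → B} (hl : Measurable l) (hu : Measurable u) :
    MeasurableSet {x | pre (l x) (u x)} := by
  refine mset_countable (φ := fun l x => pre l (u x)) (fun l => ?_) hl
  have : {x | pre l (u x)} = u ⁻¹' {v | pre l v} := rfl
  rw [this]
  exact hu (isOpen_pre l).measurableSet

theorem meas_path {τ : X → Str} {u : X → B} (hτ : Measurable τ) (hu : Measurable u) (n : ℕ) :
    Measurable fun x => path (τ x) (u x) n := by
  induction n with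
  | zero => exact measurable_const
  | succ n ih =>
    refine meas2 (fun a l => a :: l) (meas_sInf fun a => ?_) ih
    refine mset_pre ?_ hu
    refine meas_arg (F := fun x (h : List ℕ) => posII (τ x) (a :: h)) (fun h => meas_posII hτ _) ih

theorem meas_pathA {τ : X → Str} {u : X → B} (hτ : Measurable τ) (hu : Measurable u) :
    Measurable fun x => pathA (τ x) (u x) := by
  refine meas_B fun n => meas_sInf fun a => mset_pre ?_ hu
  exact meas_arg (F := fun x (h : List ℕ) => posII (τ x) (a :: h)) (fun h => meas_posII hτ _)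
    (meas_path hτ hu n)

theorem meas_CG {τ : X → Str} {u : X → B} (hτ : Measurable τ) (hu : Measurable u) :
    Measurable fun x => CG (τ x) (u x) :=
  meas_CC (meas_appII hτ (meas_pathA hτ hu))

theorem mset_GG {τ : X → Str} {u : X → B} (hτ : Measurable τ) (hu : Measurable u) :
    MeasurableSet {x | u x ∈ GG (τ x)} := by
  have : {x | u x ∈ GG (τ x)} = ⋂ h : List ℕ, ({x | pre (posII (τ x) h) (u x)}ᶜ ∪
      ⋃ a : ℕ, {x | pre (posII (τ x) (a :: h)) (u x)}) := by
    ext x
    simp only [GG, mem_ofPred_eq, mem_iInter, mem_union, mem_compl_iff, mem_iUnion]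
    refine forall_congr' fun h => ?_
    tauto
  rw [this]
  refine MeasurableSet.iInter fun h => ((mset_pre (meas_posII hτ h) hu).compl).union ?_
  exact MeasurableSet.iUnion fun a => mset_pre (meas_posII hτ _) hu

/-! codes -/

theorem mset_lt {v : X → B} {i j : X → ℕ} (hv : Measurable v) (hi : Measurable i)
    (hj : Measurable j) : MeasurableSet {x | lt (v x) (i x) (j x)} :=
  (meas_ap hv (meas2 Nat.pair hi hj)) (measurableSet_singleton 1)

theorem nice_lt (hP : PClass P) {v : X → B} {i j : X → ℕ} (hv : Measurable v) (hi : Measurable i)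
    (hj : Measurable j) : Nice P {x | lt (v x) (i x) (j x)} :=
  nice_of_measurable hP (mset_lt hv hi hj)

theorem meas_pb {w u : X → B} (hw : Measurable w) (hu : Measurable u) :
    Measurable fun x => pb (w x) (u x) := by
  refine meas_B fun k => show Measurable (fun x => w x (Nat.pair (u x k.unpair.1) (u x k.unpair.2))) from
    meas_ap hw (meas2 Nat.pair (meas_ap hu measurable_const) (meas_ap hu measurable_const))

theorem meas_mw {m : X → B} {i : X → ℕ} (hm : Measurable m) (hi : Measurable i) :
    Measurable fun x => mw (m x) (i x) :=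
  meas_B fun n => show Measurable (fun x => m x (Nat.pair (2 * i x) n)) from
    meas_ap hm (meas1 (fun i => Nat.pair (2 * i) n) hi)

theorem meas_mt {m : X → B} {i : X → ℕ} (hm : Measurable m) (hi : Measurable i) :
    Measurable fun x => mt (m x) (i x) :=
  measurable_pi_lambda _ fun l => meas_ap hm (meas1 (fun i => Nat.pair (2 * i + 1) (Encodable.encode l)) hi)

theorem nice_PWO (hP : PClass P) {v : X → B} (hv : Measurable v) : Nice P {x | PWO (v x)} := by
  have h1 : Nice P {x | (∀ k, v x k ≤ 1) ∧ (∀ i j k, lt (v x) i j → lt (v x) j k → lt (v x) i k) ∧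
      (∀ i j k, lt (v x) i k → lt (v x) i j ∨ lt (v x) j k) ∧
      (∀ f : B, ¬ ∀ n, lt (v x) (f (n + 1)) (f n))} := by
    refine .and hP (.all hP ?_) (.and hP (.all hP (.all hP (.all hP (.imp hP ?_ (.imp hP ?_ ?_)))))
      (.and hP (.all hP (.all hP (.all hP (.imp hP ?_ (.or hP ?_ ?_))))) (.all hP (.not hP (.all hP ?_)))))
    · refine nice_of_measurable hP ?_
      exact (meas_ap (hv.comp measurable_fst) measurable_snd) (measurableSet_Iic (a := 1))
    all_goals refine nice_lt hP (by fun_prop) ?_ ?_
    any_goals fun_prop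
    · exact meas_ap (f := fun p : (X × B) × ℕ => p.1.2) (n := fun p => p.2 + 1) (by fun_prop)
        (meas1 (fun n => n + 1) (by fun_prop))
    · exact meas_ap (f := fun p : (X × B) × ℕ => p.1.2) (n := fun p => p.2) (by fun_prop)
        (by fun_prop)
  exact h1.congr fun x => ⟨fun ⟨a, b, c, d⟩ => ⟨a, b, c, d⟩, fun ⟨a, b, c, d⟩ => ⟨a, b, c, d⟩⟩

theorem nice_WO (hP : PClass P) {v : X → B} (hv : Measurable v) : Nice P {x | WO (v x)} := by
  have h1 : Nice P {x | PWO (v x) ∧ ∀ i j : ℕ, i ≠ j → lt (v x) i j ∨ lt (v x) j i} := by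
    refine .and hP (nice_PWO hP hv) (.all hP (.all hP (.imp hP ?_ (.or hP ?_ ?_))))
    · refine nice_of_measurable hP ?_
      refine (measurableSet_eq_fun ?_ ?_).compl <;> fun_prop
    all_goals refine nice_lt hP (by fun_prop) ?_ ?_ <;> fun_prop
  exact h1.congr fun x => ⟨fun ⟨a, b⟩ => ⟨a, b⟩, fun ⟨a, b⟩ => ⟨a, b⟩⟩

theorem nice_RkEq (hP : PClass P) {w v : X → B} {m n : X → ℕ} (hw : Measurable w) (hv : Measurable v)
    (hm : Measurable m) (hn : Measurable n) : Nice P {x | RkEq (w x) (m x) (v x) (n x)} := by
  unfold RkEq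
  have key : ∀ {Z : Type _} [MeasurableSpace Z] {z : Z → B} {a b : Z → ℕ}, Measurable z →
      Measurable a → Measurable b → Nice P {x | z x (Nat.pair (a x) (b x)) = 1} :=
    fun hz ha hb => nice_of_measurable hP ((meas_ap hz (meas2 Nat.pair ha hb)) (measurableSet_singleton 1))
  refine .ex hP (.and hP (key ?_ ?_ ?_) (.all hP (.all hP (.imp hP (key ?_ ?_ ?_) (.and hP
    (.all hP (.imp hP (nice_lt hP ?_ ?_ ?_) (.ex hP (.and hP (nice_lt hP ?_ ?_ ?_) (key ?_ ?_ ?_)))))
    (.all hP (.imp hP (nice_lt hP ?_ ?_ ?_) (.ex hP (.and hP (nice_lt hP ?_ ?_ ?_) (key ?_ ?_ ?_))))))))))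
  all_goals fun_prop

theorem nice_LE (hP : PClass P) {w v : X → B} (hw : Measurable w) (hv : Measurable v) :
    Nice P {x | LE (w x) (v x)} := by
  unfold LE
  refine .and hP (.all hP (.ex hP (nice_RkEq hP ?_ ?_ ?_ ?_))) (.all hP (.ex hP (nice_RkEq hP ?_ ?_ ?_ ?_)))
  all_goals fun_prop

theorem nice_Cd (hP : PClass P) {v : X → B} (hv : Measurable v) : Nice P {x | Cd (v x)} := by
  unfold Cd
  refine .and hP (nice_PWO hP hv) (.ex hP (.and hP (nice_WO hP ?_) (nice_LE hP ?_ ?_)))
  all_goals fun_prop

theorem nice_inD (hP : PClass P) {d u : X → B} (hd : Measurable d) (hu : Measurable u) :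
    Nice P {x | inD (d x) (u x)} := by
  unfold inD
  refine .all hP (.ex hP (nice_of_measurable hP (mset_pre ?_ (by fun_prop))))
  refine meas2 (fun l l' => l ++ l') (meas1 _ (by fun_prop)) (meas1 _ (meas_ap (by fun_prop) ?_))
  exact meas2 Nat.pair (by fun_prop) (by fun_prop)

theorem Nice.cat (hP : PClass P) {φ : X → B → Prop} (h : Nice P {p : X × B | φ p.1 p.2}) :
    Nice P {x | ∀ᶠ u in residual B, φ x u} := by
  have h1 : Nice P {x | ∃ d : B, ∀ u, inD d u → φ x u} := by
    refine .ex hP (.all hP (.imp hP (nice_inD hP ?_ ?_) ?_))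
    · fun_prop
    · fun_prop
    · exact h.comp (g := fun p : (X × B) × B => (p.1.1, p.2)) (by fun_prop)
  exact h1.congr fun x => residual_iff_inD.symm

end Run7.h324
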