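import Pool.Agent.Run7.h324.Solovay

/-! Classes of sets of reals closed under the projective operations. -/

open Set Filter Topology MeasureTheory

namespace Run7.h324

/-- A class of sets of reals closed under the projective operations. -/
structure PClass (P : Set B → Prop) : Prop where
  closed : ∀ S, IsClosed S → P S
  compl : ∀ S, P S → P Sᶜ
  inter : ∀ S S', P S → P S' → P (S ∩ S')
  preimage : ∀ f : B → B, Continuous f → ∀ S, P S → P (f ⁻¹' S)
  proj : ∀ S, P S → P {x | ∃ y, join x y ∈ S}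

theorem PClass.measurable {P : Set B → Prop} (hP : PClass P) {S : Set B} (hS : MeasurableSet S) :
    P S := by
  have h1 := hS.analyticSet
  rw [analyticSet_iff_exists_polishSpace_range] at h1
  have h2 := hS.analyticSet
  rw [AnalyticSet] at h2
  rcases h2 with h2 | ⟨f, hf, hfS⟩
  · rw [h2]
    exact hP.closed _ isClosed_empty
  · have h3 : S = {x | ∃ y, join x y ∈ {p : B | f (odd p) = evn p}} := by
      ext x
      simp only [mem_ofPred_eq, evn_join, odd_join, ← hfS, mem_range]
    rw [h3]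
    exact hP.proj _ (hP.closed _ (isClosed_eq (hf.comp continuous_odd) continuous_evn))

theorem PClass.preimage' {P : Set B → Prop} (hP : PClass P) {f : B → B} (hf : Measurable f)
    {S : Set B} (hS : P S) : P (f ⁻¹' S) := by
  have h3 : f ⁻¹' S = {x | ∃ y, join x y ∈ {p : B | f (evn p) = odd p} ∩ odd ⁻¹' S} := by
    ext x
    constructor
    · intro hx
      exact ⟨f x, by simp, by simpa using hx⟩
    · rintro ⟨y, hy, hy'⟩
      simp only [mem_ofPred_eq, evn_join, odd_join, mem_preimage] at hy hy'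
      rw [mem_preimage, hy]
      exact hy'
  rw [h3]
  refine hP.proj _ (hP.inter _ _ (hP.measurable ?_) (hP.preimage _ continuous_odd _ hS))
  exact measurableSet_eq_fun (hf.comp continuous_evn.measurable) continuous_odd.measurable

/-- `S` is in the class, via all Borel preimages -/
def Nice (P : Set B → Prop) {X : Type*} [MeasurableSpace X] (S : Set X) : Prop :=
  ∀ f : B → X, Measurable f → P (f ⁻¹' S)

variable {P : Set B → Prop} {X : Type*} [MeasurableSpace X] {Y : Type*} [MeasurableSpace Y]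

theorem nice_of_P (hP : PClass P) {S : Set B} (hS : P S) : Nice P S := fun _ hf =>
  hP.preimage' hf hS

theorem nice_of_measurable (hP : PClass P) {S : Set X} (hS : MeasurableSet S) : Nice P S :=
  fun _ hf => hP.measurable (hf hS)

theorem Nice.comp {S : Set Y} (hS : Nice P S) {g : X → Y} (hg : Measurable g) :
    Nice P {x | g x ∈ S} := fun f hf => hS (g ∘ f) (hg.comp hf)

theorem Nice.not (hP : PClass P) {φ : X → Prop} (h : Nice P {x | φ x}) : Nice P {x | ¬ φ x} :=
  fun f hf => hP.compl _ (h f hf)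

theorem Nice.and (hP : PClass P) {φ ψ : X → Prop} (h : Nice P {x | φ x}) (h' : Nice P {x | ψ x}) :
    Nice P {x | φ x ∧ ψ x} :=
  fun f hf => hP.inter _ _ (h f hf) (h' f hf)

theorem Nice.congr {φ ψ : X → Prop} (h : Nice P {x | φ x}) (h' : ∀ x, φ x ↔ ψ x) :
    Nice P {x | ψ x} := by
  have : φ = ψ := funext fun x => propext (h' x)
  rwa [← this]

theorem Nice.or (hP : PClass P) {φ ψ : X → Prop} (h : Nice P {x | φ x}) (h' : Nice P {x | ψ x}) :
    Nice P {x | φ x ∨ ψ x} :=
  ((h.not hP).and hP (h'.not hP) |>.not hP).congr fun x => by tauto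

theorem Nice.imp (hP : PClass P) {φ ψ : X → Prop} (h : Nice P {x | φ x}) (h' : Nice P {x | ψ x}) :
    Nice P {x | φ x → ψ x} :=
  ((h.and hP (h'.not hP)).not hP).congr fun x => by tauto

theorem Nice.iff (hP : PClass P) {φ ψ : X → Prop} (h : Nice P {x | φ x}) (h' : Nice P {x | ψ x}) :
    Nice P {x | φ x ↔ ψ x} :=
  ((h.imp hP h').and hP (h'.imp hP h)).congr fun x => by tauto

/-- spaces which are Borel images of the Baire space -/
class Cod (Y : Type*) [MeasurableSpace Y] : Prop where
  ex : ∃ s : B → Y, Measurable s ∧ Function.Surjective s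

instance : Cod B := ⟨id, measurable_id, Function.surjective_id⟩

theorem cod_of_countable (Y : Type*) [MeasurableSpace Y] [Countable Y] [Nonempty Y] : Cod Y := by
  obtain ⟨f, hf⟩ := exists_surjective_nat Y
  refine ⟨fun b => f (b 0), ?_, fun y => ?_⟩
  · exact (measurable_from_top (f := f)).comp (measurable_pi_apply 0)
  · obtain ⟨n, hn⟩ := hf y
    exact ⟨fun _ => n, hn⟩

instance : Cod ℕ := cod_of_countable ℕ

instance [Cod Y] : Cod (ℕ → Y) := by
  obtain ⟨s, hs, hs'⟩ := Cod.ex (Y := Y)
  refine ⟨fun b n => s (fun k => b (Nat.pair n k)), ?_, fun y => ?_⟩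
  · refine measurable_pi_lambda _ fun n => hs.comp ?_
    exact measurable_pi_lambda _ fun k => measurable_pi_apply _
  · choose g hg using fun n => hs' (y n)
    refine ⟨fun k => g k.unpair.1 k.unpair.2, ?_⟩
    funext n
    simp [hg]

instance {Z : Type*} [MeasurableSpace Z] [Cod Y] [Cod Z] : Cod (Y × Z) := by
  obtain ⟨s, hs, hs'⟩ := Cod.ex (Y := Y)
  obtain ⟨t, ht, ht'⟩ := Cod.ex (Y := Z)
  refine ⟨fun b => (s (evn b), t (odd b)), ?_, fun y => ?_⟩
  · exact (hs.comp continuous_evn.measurable).prodMk (ht.comp continuous_odd.measurable)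
  · obtain ⟨a, ha⟩ := hs' y.1
    obtain ⟨b, hb⟩ := ht' y.2
    exact ⟨join a b, by simp [ha, hb]⟩

theorem Nice.ex (hP : PClass P) [Cod Y] {φ : X → Y → Prop} (h : Nice P {p : X × Y | φ p.1 p.2}) :
    Nice P {x | ∃ y, φ x y} := by
  obtain ⟨s, hs, hs'⟩ := Cod.ex (Y := Y)
  intro f hf
  have h1 := hP.proj _ (h (fun w => (f (evn w), s (odd w)))
    ((hf.comp continuous_evn.measurable).prodMk (hs.comp continuous_odd.measurable)))
  convert h1 using 1
  ext x
  constructor
  · rintro ⟨y, hy⟩
    obtain ⟨z, rfl⟩ := hs' y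
    exact ⟨z, by simpa using hy⟩
  · rintro ⟨z, hz⟩
    exact ⟨s z, by simpa using hz⟩

theorem Nice.all (hP : PClass P) [Cod Y] {φ : X → Y → Prop} (h : Nice P {p : X × Y | φ p.1 p.2}) :
    Nice P {x | ∀ y, φ x y} :=
  ((Nice.ex hP (φ := fun x y => ¬ φ x y) (h.not hP)).not hP).congr fun x => by simp

/-- codes of dense open sets -/
def inD (d : ℕ → ℕ) (u : B) : Prop := ∀ n, ∃ l : ℕ,
  pre (Denumerable.ofNat (List ℕ) l ++ Denumerable.ofNat (List ℕ) (d (Nat.pair n l))) u

theorem residual_inD (d : ℕ → ℕ) : ∀ᶠ u in residual B, inD d u := by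
  unfold inD
  rw [eventually_countable_forall]
  intro n
  have := density (p := []) (F := {l' | ∃ l : ℕ, l' = Denumerable.ofNat (List ℕ) l ++
    Denumerable.ofNat (List ℕ) (d (Nat.pair n l))}) (fun l _ => ?_)
  · filter_upwards [this] with u hu
    obtain ⟨l', ⟨l, rfl⟩, hl⟩ := hu (pre_nil u)
    exact ⟨l, hl⟩
  · refine ⟨_, ⟨Encodable.encode l, rfl⟩, ?_⟩
    rw [Denumerable.ofNat_encode]
    exact List.prefix_append _ _

theorem residual_iff_inD {S : Set B} :
    S ∈ residual B ↔ ∃ d : B, ∀ u, inD d u → u ∈ S := by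
  constructor
  · intro hS
    rw [mem_residual_iff] at hS
    obtain ⟨F, hFo, hFd, hFc, hFS⟩ := hS
    obtain ⟨O, hO⟩ := (hFc.insert univ).exists_eq_range ⟨univ, mem_insert _ _⟩
    have hOo : ∀ n, IsOpen (O n) ∧ Dense (O n) := by
      intro n
      have h1 : O n ∈ insert univ F := hO ▸ mem_range_self n
      rcases h1 with h1 | h1
      · rw [h1]; exact ⟨isOpen_univ, dense_univ⟩
      · exact ⟨hFo _ h1, hFd _ h1⟩
    have h2 : ∀ n l : ℕ, ∃ t : ℕ, ∀ u, pre (Denumerable.ofNat (List ℕ) l ++
        Denumerable.ofNat (List ℕ) t) u → u ∈ O n := by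
      intro n l
      obtain ⟨v, hv⟩ := exists_pre (Denumerable.ofNat (List ℕ) l)
      obtain ⟨u, hu, huO⟩ := dense_iff_inter_open.1 (hOo n).2 _ (isOpen_pre (Denumerable.ofNat (List ℕ) l))
        ⟨v, hv⟩
      obtain ⟨m, hm⟩ := exists_pre_subset (hOo n).1 huO
      let k := max m (Denumerable.ofNat (List ℕ) l).length
      obtain ⟨t, ht⟩ := prefix_of_pre hu (pre_map_range u k) (by simp [k])
      refine ⟨Encodable.encode t, fun u' hu' => hm u' (pre_of_prefix ?_ hu')⟩
      rw [Denumerable.ofNat_encode, ht]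
      exact prefix_of_pre (pre_map_range u m) (pre_map_range u k) (by simp [k])
    choose t ht using h2
    refine ⟨fun k => t k.unpair.1 k.unpair.2, fun u hu => hFS fun V hV => ?_⟩
    obtain ⟨n, rfl⟩ : V ∈ range O := hO ▸ mem_insert_of_mem _ hV
    obtain ⟨l, hl⟩ := hu n
    simp only [Nat.unpair_pair] at hl
    exact ht n l u hl
  · rintro ⟨d, hd⟩
    exact mem_of_superset (residual_inD d) hd

end Run7.h324
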