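import Pool.Agent.Run7.h324.Ev

/-! The regress: self-justifying codes of Skolem functions of trees. -/

open Set Filter Topology MeasureTheory

namespace Run7.h324

theorem tk_succ (n : ℕ) (x : ℕ → B) : tk (n + 1) x = tk n x ++ [x n] := by
  simp [tk, List.range_succ]

theorem tk_congr {n : ℕ} {x x' : ℕ → B} (h : ∀ i < n, x i = x' i) : tk n x = tk n x' := by
  unfold tk
  apply List.map_congr_left
  intro i hi
  exact h i (List.mem_range.1 hi)

theorem tk_update (n : ℕ) (x : ℕ → B) (z : B) : tk (n + 1) (Function.update x n z) = tk n x ++ [z] := by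
  rw [tk_succ, Function.update_self]
  congr 1
  exact tk_congr fun i hi => Function.update_of_ne (by omega) _ _

variable (A : B → B → Prop) (T : Set (List B))

/-- approximations: `c` is a code for the first `k + 1` levels at the node `x 0, …, x (n - 1)` -/
def Good : ℕ → ℕ → (ℕ → B) → (ℕ → B) → Prop
  | 0, n, x, c => Large (c 0) ∧ ∀ v z, EvR (c 0) v z →
      A (ev0 v) z ∧ tk (n + 1) (Function.update x n z) ∈ T
  | k + 1, n, x, c => Large (c (k + 1)) ∧ Good k n x c ∧ ∀ (v : B) (z : ℕ → B),
      (∀ j ≤ k + 1, EvR (c j) (ev0^[k + 1 - j] v) (z j)) →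
      Good k (n + 1) (Function.update x n (z 0)) (fun j => z (j + 1))

variable {A T}

theorem Good.congr {k n : ℕ} {x c c' : ℕ → B} (h : Good A T k n x c) (hc : ∀ j ≤ k, c j = c' j) :
    Good A T k n x c' := by
  induction k with
  | zero =>
    simp only [Good] at h ⊢
    rwa [← hc 0 le_rfl]
  | succ k ih =>
    simp only [Good] at h ⊢
    refine ⟨by rw [← hc _ le_rfl]; exact h.1, ih h.2.1 fun j hj => hc j (by omega), ?_⟩
    intro v z hz
    refine h.2.2 v z fun j hj => ?_
    rw [hc j hj]
    exact hz j hj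

theorem Good.large {k n : ℕ} {x c : ℕ → B} (h : Good A T k n x c) {j : ℕ} (hj : j ≤ k) :
    Large (c j) := by
  induction k with
  | zero =>
    obtain rfl : j = 0 := by omega
    exact h.1
  | succ k ih =>
    rcases Nat.lt_or_ge j (k + 1) with h1 | h1
    · exact ih h.2.1 (by omega)
    · obtain rfl : j = k + 1 := by omega
      exact h.1

theorem Good.zero {k n : ℕ} {x c : ℕ → B} (h : Good A T k n x c) : Good A T 0 n x c := by
  induction k with
  | zero => exact h
  | succ k ih => exact ih h.2.1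

/-- The splitting property needed of the tree. -/
def Spl (A : B → B → Prop) (T : Set (List B)) : Prop :=
  ∀ q ∈ T, ∀ w, WO w → ∀ u : B, Function.Surjective u → ∃ z, A (pb w u) z ∧ q ++ [z] ∈ T

variable {P : Set B → Prop}

theorem meas_update {X : Type*} [MeasurableSpace X] {x : X → ℕ → B} {z : X → B}
    (hx : Measurable x) (hz : Measurable z) (n : ℕ) :
    Measurable fun p => Function.update (x p) n (z p) := by
  refine measurable_pi_lambda _ fun i => ?_
  by_cases h : i = n
  · subst h
    simpa using hz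
  · simp only [Function.update_of_ne h]
    exact (measurable_pi_apply i).comp hx

theorem nice_Good (hP : PClass P) (hA : Nice P {p : B × B | A p.1 p.2})
    (hT : ∀ n, Nice P {x : ℕ → B | tk n x ∈ T}) (k n : ℕ) {X : Type*} [MeasurableSpace X]
    {x c : X → ℕ → B} (hx : Measurable x) (hc : Measurable c) :
    Nice P {p | Good A T k n (x p) (c p)} := by
  induction k generalizing n X with
  | zero =>
    simp only [Good]
    have hc0 : Measurable fun p => c p 0 := (measurable_pi_apply 0).comp hc
    refine .and hP (nice_Large hP hc0) (.all hP (.all hP (.imp hP (nice_EvR hP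
      (hc0.comp (by fun_prop)) (by fun_prop) (by fun_prop)) (.and hP ?_ ?_))))
    · refine hA.comp (g := fun p : (X × B) × B => (ev0 p.1.2, p.2)) ?_
      exact (meas_pb (by fun_prop) measurable_const).prodMk (by fun_prop)
    · refine (hT (n + 1)).comp (g := fun p : (X × B) × B => Function.update (x p.1.1) n p.2) ?_
      exact meas_update (hx.comp (by fun_prop)) (by fun_prop) n
  | succ k ih =>
    simp only [Good]
    refine .and hP (nice_Large hP ((measurable_pi_apply (k + 1)).comp hc)) (.and hP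
      (ih n hx hc) (.all hP (.all hP (.imp hP (.all hP (.imp hP ?_ ?_)) (ih (n + 1) ?_ ?_)))))
    · exact nice_of_measurable hP (measurableSet_le (by fun_prop) (by fun_prop))
    · refine nice_EvR hP ?_ ?_ ?_
      · exact meas_app (hc.comp (by fun_prop)) (by fun_prop)
      · refine meas_arg (F := fun (p : ((X × B) × (ℕ → B)) × ℕ) (j : ℕ) => ev0^[k + 1 - j] p.1.1.2) ?_
          measurable_snd
        intro j
        have h1 : ∀ m : ℕ, Measurable fun v : B => ev0^[m] v := by
          intro m
          exact (meas_pb measurable_id measurable_const : Measurable ev0).iterate m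
        exact (h1 _).comp (by fun_prop)
      · exact meas_app (f := fun p : ((X × B) × (ℕ → B)) × ℕ => p.1.2) (by fun_prop) (by fun_prop)
    · exact meas_update (hx.comp (by fun_prop)) (by fun_prop) n
    · fun_prop

theorem base (hP : PClass P) (hdet : ∀ S, P S → Determined S)
    (hA : Nice P {p : B × B | A p.1 p.2}) (hT : ∀ n, Nice P {x : ℕ → B | tk n x ∈ T})
    (hS : Spl A T) {n : ℕ} {x : ℕ → B} (hx : tk n x ∈ T) :
    ∃ a, ∀ c : ℕ → B, c 0 = a → Good A T 0 n x c := by
  obtain ⟨a, ha, ha'⟩ := UB hP hdet (R := fun v z => A v z ∧ tk (n + 1) (Function.update x n z) ∈ T)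
    (.and hP hA ((hT (n + 1)).comp (g := fun p : B × B => Function.update x n p.2)
      (meas_update measurable_const measurable_snd n)))
    (fun w hw => by
      filter_upwards [surj_residual] with u hu
      obtain ⟨z, hz1, hz2⟩ := hS _ hx w hw u hu
      exact ⟨z, hz1, by rw [tk_update]; exact hz2⟩)
  refine ⟨a, fun c hc => ?_⟩
  subst hc
  exact ⟨ha, ha'⟩

theorem ext (hP : PClass P) (hdet : ∀ S, P S → Determined S)
    (hA : Nice P {p : B × B | A p.1 p.2}) (hT : ∀ n, Nice P {x : ℕ → B | tk n x ∈ T})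
    (hS : Spl A T) (k : ℕ) : ∀ (n : ℕ) (x c : ℕ → B), Good A T k n x c →
    ∃ a, Good A T (k + 1) n x (Function.update c (k + 1) a) := by
  induction k with
  | zero =>
    intro n x c h
    obtain ⟨a, ha, ha'⟩ := UB hP hdet (R := fun v z' => ∃ z : ℕ → B, EvR (c 0) v (z 0) ∧
        Good A T 0 (n + 1) (Function.update x n (z 0)) (Function.update (fun j => z (j + 1)) 0 z'))
      (by
        refine .ex hP (.and hP (nice_EvR hP (by fun_prop) (by fun_prop) (by fun_prop))
          (nice_Good hP hA hT 0 (n + 1) ?_ ?_))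
        · exact meas_update (by fun_prop) (by fun_prop) n
        · exact meas_update (x := fun p : (B × B) × (ℕ → B) => fun j => p.2 (j + 1)) (by fun_prop)
            (by fun_prop) 0)
      (fun w hw => by
        filter_upwards [h.1 w hw] with u ⟨z0, hz0⟩
        have h1 := (h.2 _ z0 hz0).2
        obtain ⟨a, ha⟩ := base hP hdet hA hT hS h1
        exact ⟨a, fun _ => z0, hz0, ha _ (by simp)⟩)
    refine ⟨a, ?_⟩
    rw [Good]
    refine ⟨by simpa using ha, ?_, ?_⟩
    · exact h.congr fun j hj => by rw [Function.update_of_ne (by omega)]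
    · intro v z hz
      have hz0 := hz 0 (by omega)
      have hz1 := hz 1 (by omega)
      simp only [Nat.reduceAdd, Function.update_self, Nat.sub_self, Function.iterate_zero,
        id_eq] at hz1
      obtain ⟨z', hz'1, hz'2⟩ := ha' v (z 1) hz1
      rw [Function.update_of_ne (by omega)] at hz0
      have h2 : z 0 = z' 0 := hz0.unique hz'1
      rw [h2]
      exact hz'2.congr fun j hj => by
        obtain rfl : j = 0 := by omega
        simp
  | succ k ih =>
    intro n x c h
    obtain ⟨a, ha, ha'⟩ := UB hP hdet (R := fun v z' => ∃ z : ℕ → B,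
        (∀ j ≤ k + 1, EvR (c j) (ev0^[k + 1 - j] v) (z j)) ∧
        Good A T (k + 1) (n + 1) (Function.update x n (z 0))
          (Function.update (fun j => z (j + 1)) (k + 1) z'))
      (by
        refine .ex hP (.and hP (.all hP (.imp hP ?_ ?_)) (nice_Good hP hA hT (k + 1) (n + 1) ?_ ?_))
        · exact nice_of_measurable hP (measurableSet_le (by fun_prop) (by fun_prop))
        · refine nice_EvR hP ?_ ?_ ?_
          · exact meas1 _ measurable_snd
          · refine meas_arg (F := fun (p : ((B × B) × (ℕ → B)) × ℕ) (j : ℕ) => ev0^[k + 1 - j] p.1.1.1) ?_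
              measurable_snd
            intro j
            have h1 : ∀ m : ℕ, Measurable fun v : B => ev0^[m] v := by
              intro m
              exact (meas_pb measurable_id measurable_const : Measurable ev0).iterate m
            exact (h1 _).comp (by fun_prop)
          · exact meas_app (f := fun p : ((B × B) × (ℕ → B)) × ℕ => p.1.2) (by fun_prop) (by fun_prop)
        · exact meas_update (by fun_prop) (by fun_prop) n
        · exact meas_update (x := fun p : (B × B) × (ℕ → B) => fun j => p.2 (j + 1)) (by fun_prop)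
            (by fun_prop) (k + 1))
      (fun w hw => by
        have h1 : ∀ᶠ u in residual B, ∀ j : ℕ, j ≤ k + 1 →
            ∃ z, EvR (c j) (ev0^[k + 1 - j] (pb w u)) z := by
          rw [eventually_countable_forall]
          intro j
          by_cases hj : j ≤ k + 1
          · have h2 := h.large hj w hw
            filter_upwards [residual_evn_iter h2 (k + 1 - j)] with u hu _
            rw [ev0_iter_pb]
            exact hu
          · exact Eventually.of_forall fun u hu => absurd hu hj
        filter_upwards [h1] with u hu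
        have h3 : ∀ j, ∃ z, j ≤ k + 1 → EvR (c j) (ev0^[k + 1 - j] (pb w u)) z := fun j => by
          by_cases hj : j ≤ k + 1
          · obtain ⟨z, hz⟩ := hu j hj
            exact ⟨z, fun _ => hz⟩
          · exact ⟨fun _ => 0, fun h => absurd h hj⟩
        choose z hz using h3
        have h4 := h.2.2 (pb w u) z hz
        obtain ⟨a, ha⟩ := ih _ _ _ h4
        exact ⟨a, z, hz, ha⟩)
    refine ⟨a, ?_⟩
    rw [Good]
    refine ⟨by simpa using ha, ?_, ?_⟩
    · exact h.congr fun j hj => by rw [Function.update_of_ne (by omega)]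
    · intro v z hz
      have hz1 := hz (k + 2) (by omega)
      rw [show k + 1 + 1 = k + 2 from rfl] at hz1
      simp only [Function.update_self, Nat.sub_self, Function.iterate_zero, id_eq] at hz1
      obtain ⟨z', hz'1, hz'2⟩ := ha' v (z (k + 2)) hz1
      have h2 : ∀ j ≤ k + 1, z j = z' j := by
        intro j hj
        have h3 := hz j (by omega)
        rw [Function.update_of_ne (by omega)] at h3
        have h4 := hz'1 j hj
        rw [← Function.iterate_succ_apply, Nat.succ_eq_add_one,
          show k + 1 - j + 1 = k + 1 + 1 - j by omega] at h4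
        exact h3.unique h4
      rw [h2 0 (by omega)]
      refine hz'2.congr fun j hj => ?_
      rcases Nat.lt_or_ge j (k + 1) with h5 | h5
      · rw [Function.update_of_ne (by omega), h2 (j + 1) (by omega)]
      · obtain rfl : j = k + 1 := by omega
        simp

/-- a code good at all levels -/
def GoodAll (A : B → B → Prop) (T : Set (List B)) (n : ℕ) (x c : ℕ → B) : Prop :=
  ∀ k, Good A T k n x c

theorem exists_GoodAll (hP : PClass P) (hdet : ∀ S, P S → Determined S)
    (hA : Nice P {p : B × B | A p.1 p.2}) (hT : ∀ n, Nice P {x : ℕ → B | tk n x ∈ T})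
    (hS : Spl A T) {n : ℕ} {x : ℕ → B} (hx : tk n x ∈ T) : ∃ c, GoodAll A T n x c := by
  obtain ⟨a, ha⟩ := base hP hdet hA hT hS hx
  let f : (k : ℕ) → {c : ℕ → B // Good A T k n x c} := fun k => Nat.rec ⟨fun _ => a, ha _ rfl⟩
    (fun k c => ⟨Function.update c.1 (k + 1) (ext hP hdet hA hT hS k n x c.1 c.2).choose,
      (ext hP hdet hA hT hS k n x c.1 c.2).choose_spec⟩) k
  have hf : ∀ k j, j ≤ k → (f (k + 1)).1 j = (f k).1 j := by
    intro k j hj
    change Function.update (f k).1 (k + 1) _ j = _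
    rw [Function.update_of_ne (by omega)]
  have hf' : ∀ k j, j ≤ k → (f k).1 j = (f j).1 j := by
    intro k j hj
    induction k, hj using Nat.le_induction with
    | base => rfl
    | succ k hj ih => rw [hf k j hj, ih]
  exact ⟨fun k => (f k).1 k, fun k => (f k).2.congr fun j hj => hf' k j hj⟩

/-- coherent sequences of codes -/
def Coh (V : ℕ → B) : Prop := ∀ j, ev0 (V (j + 1)) = V j

theorem Coh.iter {V : ℕ → B} (hV : Coh V) (m j : ℕ) : ev0^[m] (V (j + m)) = V j := by
  induction m with
  | zero => rfl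
  | succ m ih => rw [Function.iterate_succ_apply, ← Nat.add_assoc, hV (j + m), ih]

theorem GoodAll.step {n : ℕ} {x c : ℕ → B} (h : GoodAll A T n x c) {V z : ℕ → B} (hV : Coh V)
    (hz : ∀ j, EvR (c j) (V (j + 1)) (z j)) :
    GoodAll A T (n + 1) (Function.update x n (z 0)) (fun j => z (j + 1)) ∧ A (V 0) (z 0) ∧
      tk n x ++ [z 0] ∈ T := by
  refine ⟨fun k => ?_, ?_⟩
  · refine (h (k + 1)).2.2 (V (k + 2)) z fun j hj => ?_
    have := hV.iter (k + 1 - j) (j + 1)
    rw [show j + 1 + (k + 1 - j) = k + 2 by omega] at this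
    rw [this]
    exact hz j
  · have h1 := (h 0).2 (V 1) (z 0) (hz 0)
    rw [tk_update, hV 0] at h1
    exact h1

theorem GoodAll.exists_step {n : ℕ} {x c : ℕ → B} (h : GoodAll A T n x c) {w : B} (hw : WO w)
    (m : ℕ) : ∃ V z : ℕ → B, Coh V ∧ (∀ j, EvR (c j) (V (j + 1)) (z j)) ∧
      ∃ u, Function.Surjective u ∧ u 0 = m ∧ V 0 = pb w u := by
  let S : ℕ → Set B := fun k => {u | Function.Surjective u ∧
    (∀ j, k = j + 1 → ∃ z, EvR (c j) (pb w u) z)}
  have hS : ∀ k, S k ∈ residual B := by
    intro k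
    cases k with
    | zero =>
      filter_upwards [surj_residual] with u hu
      exact ⟨hu, fun j hj => by omega⟩
    | succ k =>
      filter_upwards [surj_residual, (h k).large le_rfl w hw] with u hu hu'
      refine ⟨hu, fun j hj => ?_⟩
      obtain rfl : k = j := by omega
      exact hu'
  obtain ⟨y, hy0, hy1, hy2⟩ := coherent_seq hS (W := {y | pre [m] y}) (isOpen_pre _) (exists_pre _)
  choose z hz using fun j => (hy2 (j + 1)).2 j rfl
  refine ⟨fun k => pb w (y k), z, fun j => ?_, hz, y 0, (hy2 0).1, ?_, rfl⟩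
  · change ev0 (pb w (y (j + 1))) = pb w (y j)
    rw [ev0_pb, hy1]
  · have := hy0 0 (by simp)
    simpa using this.symm

/-- The runs through the tree coded by `c0`. -/
def Run (c0 : ℕ → B) (n : ℕ) (x : ℕ → B) : Prop :=
  ∃ C Z V : ℕ → ℕ → B, C 0 = c0 ∧ ∀ i < n, Coh (V i) ∧ (∀ j, EvR (C i j) (V i (j + 1)) (Z i j)) ∧
    (∀ j, C (i + 1) j = Z i (j + 1)) ∧ x i = Z i 0

theorem Run.congr {c0 : ℕ → B} {n : ℕ} {x x' : ℕ → B} (h : Run c0 n x) (hx : ∀ i < n, x i = x' i) :
    Run c0 n x' := by
  obtain ⟨C, Z, V, h1, h2⟩ := h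
  refine ⟨C, Z, V, h1, fun i hi => ?_⟩
  rw [← hx i hi]
  exact h2 i hi

theorem Run.mono {c0 : ℕ → B} {m n : ℕ} {x : ℕ → B} (h : Run c0 n x) (hm : m ≤ n) : Run c0 m x := by
  obtain ⟨C, Z, V, h1, h2⟩ := h
  exact ⟨C, Z, V, h1, fun i hi => h2 i (by omega)⟩

theorem Run.good {c0 : ℕ → B} {n : ℕ} {x : ℕ → B} {x0 : ℕ → B} (h0 : GoodAll A T 0 x0 c0)
    (hT0 : [] ∈ T)
    {C Z V : ℕ → ℕ → B} (h1 : C 0 = c0) (h2 : ∀ i < n, Coh (V i) ∧
      (∀ j, EvR (C i j) (V i (j + 1)) (Z i j)) ∧ (∀ j, C (i + 1) j = Z i (j + 1)) ∧ x i = Z i 0) :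
    ∀ i ≤ n, (∃ x', (∀ j < i, x' j = x j) ∧ GoodAll A T i x' (C i)) ∧ tk i x ∈ T := by
  intro i
  induction i with
  | zero =>
    intro _
    exact ⟨⟨x0, fun j hj => absurd hj (by omega), h1 ▸ h0⟩, by simpa [tk] using hT0⟩
  | succ i ih =>
    intro hi
    obtain ⟨⟨x', hx', hg⟩, ht⟩ := ih (by omega)
    obtain ⟨g1, g2, g3, g4⟩ := h2 i (by omega)
    obtain ⟨k1, k2, k3⟩ := hg.step g1 g2
    refine ⟨⟨Function.update x' i (Z i 0), fun j hj => ?_, ?_⟩, ?_⟩
    · rcases Nat.lt_or_ge j i with h3 | h3
      · rw [Function.update_of_ne (by omega), hx' j h3]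
      · obtain rfl : j = i := by omega
        rw [Function.update_self, g4]
    · have : C (i + 1) = fun j => Z i (j + 1) := funext g3
      rw [this]
      exact k1
    · rw [tk_succ, g4]
      rw [tk_congr hx'] at k3
      exact k3

theorem Run.mem {c0 : ℕ → B} {n : ℕ} {x x0 : ℕ → B} (h0 : GoodAll A T 0 x0 c0)
    (hT0 : [] ∈ T) (h : Run c0 n x) : tk n x ∈ T := by
  obtain ⟨C, Z, V, h1, h2⟩ := h
  exact (Run.good h0 hT0 h1 h2 n le_rfl).2

theorem Run.split {c0 : ℕ → B} {n : ℕ} {x x0 : ℕ → B} (h0 : GoodAll A T 0 x0 c0)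
    (hT0 : [] ∈ T) (h : Run c0 n x) {w : B} (hw : WO w) (m : ℕ) :
    ∃ u z, Function.Surjective u ∧ u 0 = m ∧ A (pb w u) z ∧ Run c0 (n + 1) (Function.update x n z) := by
  obtain ⟨C, Z, V, h1, h2⟩ := h
  obtain ⟨⟨x', hx', hg⟩, ht⟩ := Run.good h0 hT0 h1 h2 n le_rfl
  obtain ⟨V', z, hV, hz, u, hu, hum, huV⟩ := hg.exists_step hw m
  obtain ⟨k1, k2, k3⟩ := hg.step hV hz
  refine ⟨u, z 0, hu, hum, huV ▸ k2, ?_⟩
  refine ⟨Function.update C (n + 1) (fun j => z (j + 1)), Function.update Z n z,
    Function.update V n V', ?_, fun i hi => ?_⟩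
  · rw [Function.update_of_ne (by omega), h1]
  · rcases Nat.lt_or_ge i n with h3 | h3
    · obtain ⟨g1, g2, g3, g4⟩ := h2 i h3
      rw [Function.update_of_ne (a := i) (a' := n + 1) (by omega),
        Function.update_of_ne (a := i + 1) (a' := n + 1) (by omega),
        Function.update_of_ne (a := i) (a' := n) (by omega),
        Function.update_of_ne (a := i) (a' := n) (by omega),
        Function.update_of_ne (a := i) (a' := n) (by omega)]
      exact ⟨g1, g2, g3, g4⟩
    · obtain rfl : i = n := by omega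
      rw [Function.update_of_ne (a := i) (a' := i + 1) (by omega), Function.update_self,
        Function.update_self, Function.update_self, Function.update_self]
      exact ⟨hV, hz, fun j => rfl, rfl⟩

theorem nice_Run (hP : PClass P) (c0 : ℕ → B) {X : Type*} [MeasurableSpace X] {n : X → ℕ}
    {x : X → ℕ → B} (hn : Measurable n) (hx : Measurable x) : Nice P {p | Run c0 (n p) (x p)} := by
  unfold Run
  refine .ex hP (.ex hP (.ex hP (.and hP ?_ (.all hP (.imp hP ?_ (.and hP ?_ (.and hP (.all hP ?_)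
    (.and hP (.all hP ?_) ?_))))))))
  · refine nice_of_measurable hP ?_
    exact measurableSet_eq_fun (by fun_prop) measurable_const
  · exact nice_of_measurable hP (measurableSet_lt (by fun_prop) (by fun_prop))
  · unfold Coh
    refine .all hP (nice_of_measurable hP (measurableSet_eq_fun (meas_pb ?_ measurable_const) ?_))
    · refine meas_app (f := fun p : ((((X × (ℕ → ℕ → B)) × (ℕ → ℕ → B)) × (ℕ → ℕ → B)) × ℕ) × ℕ =>
        p.1.1.2 p.1.2) (meas_app (by fun_prop) (by fun_prop)) (meas1 (fun n => n + 1) (by fun_prop))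
    · refine meas_app (f := fun p : ((((X × (ℕ → ℕ → B)) × (ℕ → ℕ → B)) × (ℕ → ℕ → B)) × ℕ) × ℕ =>
        p.1.1.2 p.1.2) (meas_app (by fun_prop) (by fun_prop)) (by fun_prop)
  · refine nice_EvR hP ?_ ?_ ?_
    · refine meas_app (f := fun p : ((((X × (ℕ → ℕ → B)) × (ℕ → ℕ → B)) × (ℕ → ℕ → B)) × ℕ) × ℕ =>
        p.1.1.1.1.2 p.1.2) (meas_app (by fun_prop) (by fun_prop)) (by fun_prop)
    · refine meas_app (f := fun p : ((((X × (ℕ → ℕ → B)) × (ℕ → ℕ → B)) × (ℕ → ℕ → B)) × ℕ) × ℕ =>
        p.1.1.2 p.1.2) (meas_app (by fun_prop) (by fun_prop)) (meas1 (fun n => n + 1) (by fun_prop))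
    · refine meas_app (f := fun p : ((((X × (ℕ → ℕ → B)) × (ℕ → ℕ → B)) × (ℕ → ℕ → B)) × ℕ) × ℕ =>
        p.1.1.1.2 p.1.2) (meas_app (by fun_prop) (by fun_prop)) (by fun_prop)
  · refine nice_of_measurable hP (measurableSet_eq_fun ?_ ?_)
    · refine meas_app (f := fun p : ((((X × (ℕ → ℕ → B)) × (ℕ → ℕ → B)) × (ℕ → ℕ → B)) × ℕ) × ℕ =>
        p.1.1.1.1.2 (p.1.2 + 1)) (meas_app (by fun_prop) (meas1 (fun n => n + 1) (by fun_prop)))
        (by fun_prop)
    · refine meas_app (f := fun p : ((((X × (ℕ → ℕ → B)) × (ℕ → ℕ → B)) × (ℕ → ℕ → B)) × ℕ) × ℕ =>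
        p.1.1.1.2 p.1.2) (meas_app (by fun_prop) (by fun_prop)) (meas1 (fun n => n + 1) (by fun_prop))
  · refine nice_of_measurable hP (measurableSet_eq_fun ?_ ?_)
    · exact meas_app (f := fun p : (((X × (ℕ → ℕ → B)) × (ℕ → ℕ → B)) × (ℕ → ℕ → B)) × ℕ =>
        x p.1.1.1.1) (hx.comp (by fun_prop)) (by fun_prop)
    · exact meas_app (f := fun p : (((X × (ℕ → ℕ → B)) × (ℕ → ℕ → B)) × (ℕ → ℕ → B)) × ℕ =>
        p.1.1.2 p.2) (meas_app (by fun_prop) (by fun_prop)) measurable_const

end Run7.h324
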