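import Pool.Agent.Run7.h324.Main

/-! Complexity: the relation `EvR` and the runs are `Σ¹₂`. -/

open Set Filter Topology MeasureTheory

namespace Run7.h324

/-- coanalytic sets of reals -/
def Coan (S : Set B) : Prop := AnalyticSet Sᶜ

/-- classes closed under countable unions and intersections, containing the Borel sets -/
structure LClass (P : Set B → Prop) : Prop where
  measurable : ∀ S, MeasurableSet S → P S
  iInter : ∀ S : ℕ → Set B, (∀ n, P (S n)) → P (⋂ n, S n)
  iUnion : ∀ S : ℕ → Set B, (∀ n, P (S n)) → P (⋃ n, S n)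

variable {P : Set B → Prop} {X : Type*} [MeasurableSpace X] {Y : Type*} [MeasurableSpace Y]

theorem LClass.and (hP : LClass P) {φ ψ : X → Prop} (h : Nice P {x | φ x}) (h' : Nice P {x | ψ x}) :
    Nice P {x | φ x ∧ ψ x} := by
  intro f hf
  have h1 := hP.iInter (fun n => if n = 0 then f ⁻¹' {x | φ x} else f ⁻¹' {x | ψ x}) (fun n => by
    by_cases hn : n = 0
    · simp only [hn, if_true]; exact h f hf
    · simp only [hn, if_false]; exact h' f hf)
  convert h1 using 1
  ext x
  simp only [mem_iInter]
  constructor
  · rintro ⟨a, b⟩ n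
    by_cases hn : n = 0
    · simp only [hn, if_true]; exact a
    · simp only [hn, if_false]; exact b
  · intro h
    exact ⟨by simpa using h 0, by simpa using h 1⟩

theorem LClass.or (hP : LClass P) {φ ψ : X → Prop} (h : Nice P {x | φ x}) (h' : Nice P {x | ψ x}) :
    Nice P {x | φ x ∨ ψ x} := by
  intro f hf
  have h1 := hP.iUnion (fun n => if n = 0 then f ⁻¹' {x | φ x} else f ⁻¹' {x | ψ x}) (fun n => by
    by_cases hn : n = 0
    · simp only [hn, if_true]; exact h f hf
    · simp only [hn, if_false]; exact h' f hf)
  convert h1 using 1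
  ext x
  simp only [mem_iUnion]
  constructor
  · rintro (a | b)
    · exact ⟨0, by simpa using a⟩
    · exact ⟨1, by simpa using b⟩
  · rintro ⟨n, hn⟩
    by_cases h0 : n = 0
    · simp only [h0, if_true] at hn; exact Or.inl hn
    · simp only [h0, if_false] at hn; exact Or.inr hn

theorem LClass.mset (hP : LClass P) {S : Set X} (hS : MeasurableSet S) : Nice P S :=
  fun _ hf => hP.measurable _ (hf hS)

theorem LClass.imp (hP : LClass P) {φ ψ : X → Prop} (h : MeasurableSet {x | φ x})
    (h' : Nice P {x | ψ x}) : Nice P {x | φ x → ψ x} :=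
  (hP.or (hP.mset h.compl : Nice P {x | ¬ φ x}) h').congr fun x => by tauto

theorem LClass.alln (hP : LClass P) {φ : X → ℕ → Prop}
    (h : ∀ n, Nice P {x | φ x n}) : Nice P {x | ∀ n, φ x n} := by
  intro f hf
  have h1 := hP.iInter (fun n => f ⁻¹' {x | φ x n}) fun n => h n f hf
  convert h1 using 1
  ext x
  simp

theorem LClass.exn (hP : LClass P) {φ : X → ℕ → Prop}
    (h : ∀ n, Nice P {x | φ x n}) : Nice P {x | ∃ n, φ x n} := by
  intro f hf
  have h1 := hP.iUnion (fun n => f ⁻¹' {x | φ x n}) fun n => h n f hf
  convert h1 using 1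
  ext x
  simp

theorem Nice.ex' (hP : ∀ S, P S → P {x | ∃ y, join x y ∈ S}) [Cod Y] {φ : X → Y → Prop}
    (h : Nice P {p : X × Y | φ p.1 p.2}) : Nice P {x | ∃ y, φ x y} := by
  obtain ⟨s, hs, hs'⟩ := Cod.ex (Y := Y)
  intro f hf
  have h1 := hP _ (h (fun w => (f (evn w), s (odd w)))
    ((hf.comp continuous_evn.measurable).prodMk (hs.comp continuous_odd.measurable)))
  convert h1 using 1
  ext x
  constructor
  · rintro ⟨y, hy⟩
    obtain ⟨z, rfl⟩ := hs' y
    exact ⟨z, by simpa using hy⟩
  · rintro ⟨z, hz⟩
    exact ⟨s z, by simpa using hz⟩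

theorem proj_eq_image (S : Set B) : {x | ∃ y, join x y ∈ S} = evn '' S := by
  ext x
  constructor
  · rintro ⟨y, hy⟩
    exact ⟨_, hy, evn_join x y⟩
  · rintro ⟨w, hw, rfl⟩
    exact ⟨odd w, by simpa using hw⟩

theorem analytic_proj {S : Set B} (hS : AnalyticSet S) : AnalyticSet {x | ∃ y, join x y ∈ S} := by
  rw [proj_eq_image]
  exact hS.image_of_continuous continuous_evn

theorem analytic_inter {S S' : Set B} (hS : AnalyticSet S) (hS' : AnalyticSet S') :
    AnalyticSet (S ∩ S') := by
  have : S ∩ S' = ⋂ b : Bool, (if b then S else S') := by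
    ext x
    simp [and_comm]
  rw [this]
  refine AnalyticSet.iInter fun b => ?_
  cases b
  · simpa using hS'
  · simpa using hS

theorem analytic_preimage {S : Set B} (hS : AnalyticSet S) {f : B → B} (hf : Measurable f) :
    AnalyticSet (f ⁻¹' S) := by
  have h3 : f ⁻¹' S = {x | ∃ y, join x y ∈ {p : B | f (evn p) = odd p} ∩ odd ⁻¹' S} := by
    ext x
    constructor
    · intro hx
      exact ⟨f x, by simp, by simpa using hx⟩
    · rintro ⟨y, hy, hy'⟩
      simp only [mem_ofPred_eq, evn_join, odd_join, mem_preimage] at hy hy'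
      rw [mem_preimage, hy]
      exact hy'
  rw [h3]
  refine analytic_proj (analytic_inter (MeasurableSet.analyticSet ?_) (hS.preimage continuous_odd))
  exact measurableSet_eq_fun (hf.comp continuous_evn.measurable) continuous_odd.measurable

theorem LC_analytic : LClass (AnalyticSet : Set B → Prop) where
  measurable _ h := h.analyticSet
  iInter _ h := AnalyticSet.iInter h
  iUnion _ h := AnalyticSet.iUnion h

theorem LC_coan : LClass Coan where
  measurable _ h := h.compl.analyticSet
  iInter S h := by
    unfold Coan
    rw [compl_iInter]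
    exact AnalyticSet.iUnion h
  iUnion S h := by
    unfold Coan
    rw [compl_iUnion]
    exact AnalyticSet.iInter h

theorem coan_preimage {S : Set B} (hS : Coan S) {f : B → B} (hf : Measurable f) :
    Coan (f ⁻¹' S) := by
  unfold Coan
  rw [← preimage_compl]
  exact analytic_preimage hS hf

/-- the `n`-th part of a real -/
def part (y : B) (n : ℕ) : B := fun k => y (Nat.pair n k)

theorem meas_part {y : X → B} (hy : Measurable y) (n : ℕ) : Measurable fun x => part (y x) n :=
  meas_B fun k => show Measurable (fun x => y x (Nat.pair n k)) from meas_ap hy measurable_const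

theorem exists_part (y : ℕ → B) : ∃ z : B, ∀ n, part z n = y n :=
  ⟨fun k => y k.unpair.1 k.unpair.2, fun n => by funext k; simp [part]⟩

theorem sigma12_of_coan {S : Set B} (hS : Coan S) : Sigma12 S := by
  refine ⟨evn ⁻¹' S, coan_preimage hS continuous_evn.measurable, ?_⟩
  ext x
  simp

theorem sigma12_of_analytic {S : Set B} (hS : AnalyticSet S) : Sigma12 S := by
  rw [AnalyticSet] at hS
  rcases hS with hS | ⟨f, hf, hfS⟩
  · subst hS
    exact sigma12_of_coan (LC_coan.measurable _ MeasurableSet.empty)
  · refine ⟨{p : B | f (odd p) = evn p}, LC_coan.measurable _ (isClosed_eq (hf.comp continuous_odd)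
      continuous_evn).measurableSet, ?_⟩
    ext x
    simp only [mem_ofPred_eq, evn_join, odd_join, ← hfS, mem_range]

theorem sigma12_proj (S : Set B) (hS : Sigma12 S) : Sigma12 {x | ∃ y, join x y ∈ S} := by
  obtain ⟨C, hC, rfl⟩ := hS
  refine ⟨(fun w => join (join (evn w) (evn (odd w))) (odd (odd w))) ⁻¹' C, coan_preimage hC ?_, ?_⟩
  · exact meas_join (meas_join (meas_evn measurable_id) (meas_evn (meas_odd measurable_id)))
      (meas_odd (meas_odd measurable_id))
  · ext x
    simp only [mem_ofPred_eq, mem_preimage, evn_join, odd_join]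
    constructor
    · rintro ⟨y, z, h⟩
      exact ⟨join y z, by simpa using h⟩
    · rintro ⟨u, h⟩
      exact ⟨evn u, odd u, h⟩

theorem sigma12_preimage {S : Set B} (hS : Sigma12 S) {f : B → B} (hf : Measurable f) :
    Sigma12 (f ⁻¹' S) := by
  obtain ⟨C, hC, rfl⟩ := hS
  refine ⟨(fun w => join (f (evn w)) (odd w)) ⁻¹' C, coan_preimage hC ?_, ?_⟩
  · exact meas_join (hf.comp continuous_evn.measurable) (meas_odd measurable_id)
  · ext x
    simp

theorem LC_sigma12 : LClass Sigma12 where
  measurable S h := sigma12_of_coan (LC_coan.measurable S h)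
  iInter S h := by
    choose C hC hS using h
    refine ⟨⋂ n, (fun w => join (evn w) (part (odd w) n)) ⁻¹' C n, LC_coan.iInter _ fun n =>
      coan_preimage (hC n) (meas_join (meas_evn measurable_id) (meas_part (meas_odd measurable_id) n)),
      ?_⟩
    ext x
    simp only [mem_iInter, mem_ofPred_eq, mem_preimage, evn_join, odd_join]
    constructor
    · intro hx
      have h1 : ∀ n, ∃ y, join x y ∈ C n := fun n => by
        have := hx n
        rw [hS n] at this
        exact this
      choose y hy using h1
      obtain ⟨z, hz⟩ := exists_part y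
      exact ⟨z, fun n => by rw [hz]; exact hy n⟩
    · rintro ⟨z, hz⟩ n
      rw [hS n]
      exact ⟨_, hz n⟩
  iUnion S h := by
    choose C hC hS using h
    refine ⟨⋃ n, ({w : B | odd w 0 = n} ∩ (fun w => join (evn w) (fun k => odd w (k + 1))) ⁻¹' C n),
      LC_coan.iUnion _ fun n => ?_, ?_⟩
    · have h1 : Nice Coan {w : B | odd w 0 = n ∧
          (fun w => join (evn w) (fun k => odd w (k + 1))) w ∈ C n} := by
        refine LC_coan.and (LC_coan.mset ?_) ?_
        · exact measurableSet_eq_fun (meas_ap (meas_odd measurable_id) measurable_const) measurable_const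
        · intro f hf
          refine coan_preimage (f := fun x => join (evn (f x)) (fun k => odd (f x) (k + 1))) (hC n) ?_
          refine meas_join (meas_evn hf) (meas_B fun k => ?_)
          exact meas_ap (meas_odd hf) measurable_const
      exact h1 id measurable_id
    · ext x
      simp only [mem_iUnion, mem_ofPred_eq, mem_inter_iff, mem_preimage, evn_join, odd_join]
      constructor
      · rintro ⟨n, hn⟩
        rw [hS n] at hn
        obtain ⟨y, hy⟩ := hn
        exact ⟨fun k => Nat.casesOn k n y, n, rfl, hy⟩
      · rintro ⟨y, n, _, hy⟩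
        refine ⟨n, ?_⟩
        rw [hS n]
        exact ⟨_, hy⟩

theorem Nice.coan_not {φ : X → Prop} (h : Nice AnalyticSet {x | φ x}) : Nice Coan {x | ¬ φ x} := by
  intro f hf
  unfold Coan
  have : (f ⁻¹' {x | ¬ φ x})ᶜ = f ⁻¹' {x | φ x} := by
    ext x; simp
  rw [this]
  exact h f hf

theorem Nice.of_analytic {φ : X → Prop} (h : Nice AnalyticSet {x | φ x}) : Nice Sigma12 {x | φ x} :=
  fun f hf => sigma12_of_analytic (h f hf)

theorem Nice.of_coan {φ : X → Prop} (h : Nice Coan {x | φ x}) : Nice Sigma12 {x | φ x} :=
  fun f hf => sigma12_of_coan (h f hf)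

/-! codes -/

theorem LClass.lt (hP : LClass P) {v : X → B} {i j : X → ℕ} (hv : Measurable v) (hi : Measurable i)
    (hj : Measurable j) : Nice P {x | lt (v x) (i x) (j x)} :=
  hP.mset (mset_lt hv hi hj)

theorem coan_PWO {v : X → B} (hv : Measurable v) : Nice Coan {x | PWO (v x)} := by
  have h1 : Nice Coan {x | (∀ k, v x k ≤ 1) ∧
      (∀ i j k, Run7.h324.lt (v x) i j → Run7.h324.lt (v x) j k → Run7.h324.lt (v x) i k) ∧
      (∀ i j k, Run7.h324.lt (v x) i k → Run7.h324.lt (v x) i j ∨ Run7.h324.lt (v x) j k) ∧
      ¬ (∃ f : B, ∀ n, Run7.h324.lt (v x) (f (n + 1)) (f n))} := by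
    refine LC_coan.and (LC_coan.alln fun k => ?_) (LC_coan.and (LC_coan.alln fun i =>
      LC_coan.alln fun j => LC_coan.alln fun k => LC_coan.imp ?_ (LC_coan.imp ?_ ?_))
      (LC_coan.and (LC_coan.alln fun i => LC_coan.alln fun j => LC_coan.alln fun k =>
      LC_coan.imp ?_ (LC_coan.or ?_ ?_)) (Nice.coan_not (Nice.ex' (fun S => analytic_proj)
      (LC_analytic.alln fun n => ?_)))))
    · exact LC_coan.mset ((meas_ap hv measurable_const) (measurableSet_Iic (a := 1)))
    · exact mset_lt hv measurable_const measurable_const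
    · exact mset_lt hv measurable_const measurable_const
    · exact LC_coan.lt hv measurable_const measurable_const
    · exact mset_lt hv measurable_const measurable_const
    · exact LC_coan.lt hv measurable_const measurable_const
    · exact LC_coan.lt hv measurable_const measurable_const
    · refine LC_analytic.lt (hv.comp measurable_fst) ?_ ?_
      · exact meas_ap measurable_snd measurable_const
      · exact meas_ap measurable_snd measurable_const
  refine h1.congr fun x => ⟨fun ⟨a, b, c, d⟩ => ⟨a, b, c, fun f hf => d ⟨f, hf⟩⟩,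
    fun ⟨a, b, c, d⟩ => ⟨a, b, c, fun ⟨f, hf⟩ => d f hf⟩⟩

theorem coan_WO {v : X → B} (hv : Measurable v) : Nice Coan {x | WO (v x)} := by
  have h1 : Nice Coan {x | PWO (v x) ∧ ∀ i j : ℕ, i ≠ j →
      Run7.h324.lt (v x) i j ∨ Run7.h324.lt (v x) j i} := by
    refine LC_coan.and (coan_PWO hv) (LC_coan.alln fun i => LC_coan.alln fun j => LC_coan.imp
      (MeasurableSet.const _) (LC_coan.or ?_ ?_))
    · exact LC_coan.lt hv measurable_const measurable_const
    · exact LC_coan.lt hv measurable_const measurable_const
  exact h1.congr fun x => ⟨fun ⟨a, b⟩ => ⟨a, b⟩, fun ⟨a, b⟩ => ⟨a, b⟩⟩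

theorem an_RkEq {w v : X → B} {m n : X → ℕ} (hw : Measurable w) (hv : Measurable v)
    (hm : Measurable m) (hn : Measurable n) :
    Nice AnalyticSet {x | RkEq (w x) (m x) (v x) (n x)} := by
  unfold RkEq
  have hC := LC_analytic
  have key : ∀ {Z : Type _} [MeasurableSpace Z] {z : Z → B} {a b : Z → ℕ}, Measurable z →
      Measurable a → Measurable b → MeasurableSet {x | z x (Nat.pair (a x) (b x)) = 1} :=
    fun hz ha hb => (meas_ap hz (meas2 Nat.pair ha hb)) (measurableSet_singleton 1)
  refine Nice.ex' (fun S => analytic_proj) (hC.and (hC.mset (key measurable_snd (hm.comp measurable_fst)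
    (hn.comp measurable_fst))) (hC.alln fun m' => hC.alln fun n' => hC.imp (key measurable_snd
    measurable_const measurable_const) (hC.and (hC.alln fun m'' => hC.imp (mset_lt
    (hw.comp measurable_fst) measurable_const measurable_const) (hC.exn fun n'' => hC.and (hC.lt
    (hv.comp measurable_fst) measurable_const measurable_const) (hC.mset (key measurable_snd
    measurable_const measurable_const)))) (hC.alln fun n'' => hC.imp (mset_lt
    (hv.comp measurable_fst) measurable_const measurable_const) (hC.exn fun m'' => hC.and (hC.lt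
    (hw.comp measurable_fst) measurable_const measurable_const) (hC.mset (key measurable_snd
    measurable_const measurable_const))))))) 

theorem an_LE {w v : X → B} (hw : Measurable w) (hv : Measurable v) :
    Nice AnalyticSet {x | LE (w x) (v x)} := by
  unfold LE
  have hC := LC_analytic
  exact hC.and (hC.alln fun i => hC.exn fun j => an_RkEq hw hv measurable_const measurable_const)
    (hC.alln fun i => hC.exn fun j => an_RkEq hw hv measurable_const measurable_const)

theorem s12_Cd {v : X → B} (hv : Measurable v) : Nice Sigma12 {x | Cd (v x)} := by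
  unfold Cd
  exact LC_sigma12.and (coan_PWO hv).of_coan (Nice.ex' sigma12_proj (LC_sigma12.and
    (coan_WO measurable_snd).of_coan (an_LE measurable_snd (hv.comp measurable_fst)).of_analytic))

theorem s12_EvR {a v c : X → B} (ha : Measurable a) (hv : Measurable v) (hc : Measurable c) :
    Nice Sigma12 {x | EvR (a x) (v x) (c x)} := by
  have hev : Measurable fun x => ev0 (v x) := meas_pb hv measurable_const
  have hod : Measurable fun x => od0 (v x) := meas_pb hv measurable_const
  have hts : Measurable fun x => toS (a x) := measurable_pi_lambda _ fun l =>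
    show Measurable (fun x => a x (Encodable.encode l)) from meas_ap ha measurable_const
  have hm : Measurable fun x => appII (toS (a x)) (od0 (v x)) := meas_appII hts hod
  have hC := LC_sigma12
  unfold EvR
  refine hC.and (coan_PWO hev).of_coan (hC.and (s12_Cd hod) (hC.exn fun i => Nice.ex' sigma12_proj
    (hC.and ?_ (hC.and ?_ (hC.and ?_ (hC.and ?_ (hC.and ?_ ?_)))))))
  · exact (coan_WO (meas_mw (hm.comp measurable_fst) measurable_const)).of_coan
  · exact (an_LE (meas_mw (hm.comp measurable_fst) measurable_const)
      (hod.comp measurable_fst)).of_analytic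
  · refine hC.alln fun j => hC.imp (MeasurableSet.const _) (Nice.of_coan (Nice.coan_not ?_))
    exact an_LE (meas_mw (hm.comp measurable_fst) measurable_const) (hod.comp measurable_fst)
  · refine hC.alln fun n => Nice.of_analytic ?_
    exact an_RkEq (meas_mw (hm.comp measurable_fst) measurable_const) (hev.comp measurable_fst)
      (meas_ap measurable_snd measurable_const) measurable_const
  · exact hC.mset (mset_GG (meas_mt (hm.comp measurable_fst) measurable_const) measurable_snd)
  · exact hC.mset (measurableSet_eq_fun (hc.comp measurable_fst) (meas_CG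
      (meas_mt (hm.comp measurable_fst) measurable_const) measurable_snd))

theorem s12_Run (c0 : ℕ → B) {n : X → ℕ} {x : X → ℕ → B} (hn : Measurable n) (hx : Measurable x) :
    Nice Sigma12 {p | Run c0 (n p) (x p)} := by
  have hC := LC_sigma12
  unfold Run
  have hap : ∀ {Z : Type _} [MeasurableSpace Z] {C : Z → ℕ → ℕ → B} (i j : ℕ), Measurable C →
      Measurable fun z => C z i j := fun i j h =>
    (measurable_pi_apply j).comp ((measurable_pi_apply i).comp h)
  refine Nice.ex' sigma12_proj (Nice.ex' sigma12_proj (Nice.ex' sigma12_proj (hC.and (hC.mset ?_)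
    (hC.alln fun i => hC.imp ?_ (hC.and ?_ (hC.and (hC.alln fun j => ?_) (hC.and (hC.alln fun j => ?_)
    ?_)))))))
  · exact measurableSet_eq_fun (by fun_prop) measurable_const
  · exact measurableSet_lt measurable_const (hn.comp (by fun_prop))
  · unfold Coh
    refine hC.alln fun j => hC.mset (measurableSet_eq_fun (meas_pb (hap i (j + 1) (by fun_prop))
      measurable_const) (hap i j (by fun_prop)))
  · exact s12_EvR (hap i j (by fun_prop)) (hap i (j + 1) (by fun_prop)) (hap i j (by fun_prop))
  · exact hC.mset (measurableSet_eq_fun (hap (i + 1) j (by fun_prop)) (hap i (j + 1) (by fun_prop)))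
  · exact hC.mset (measurableSet_eq_fun ((measurable_pi_apply i).comp (hx.comp (by fun_prop)))
      (hap i 0 (by fun_prop)))

end Run7.h324
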