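import Pool.Agent.Run7.h324.Bound

/-! Solovay's game. -/

open Set Filter Topology Ordinal

namespace Run7.h324

/-- history as a function of finitely many values -/
def histF : (n : ℕ) → (Fin n → ℕ) → List ℕ
  | 0, _ => []
  | n + 1, x => x (Fin.last n) :: histF n (fun i => x i.castSucc)

theorem hist_eq_histF (b : B) (n : ℕ) : hist b n = histF n (fun i => b i) := by
  induction n with
  | zero => rfl
  | succ n ih => simp [hist, histF, ih]

theorem continuous_hist_comp {α : Type*} [TopologicalSpace α] (g : List ℕ → α) (n : ℕ) :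
    Continuous fun b : B => g (hist b n) := by
  have : (fun b : B => g (hist b n)) = (fun x : Fin n → ℕ => g (histF n x)) ∘ (fun b : B => fun i : Fin n => b i) := by
    funext b
    simp [hist_eq_histF]
  rw [this]
  exact (continuous_of_discreteTopology).comp (by fun_prop)

theorem continuous_appI (ρ : Str) : Continuous (appI ρ) :=
  continuous_pi fun n => continuous_hist_comp ρ n

theorem continuous_appII (τ : Str) : Continuous (appII τ) :=
  continuous_pi fun n => continuous_hist_comp τ (n + 1)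

/-- the `i`-th ordinal code in a move sequence of II in Solovay's game -/
def mw (m : B) (i : ℕ) : B := fun n => m (Nat.pair (2 * i) n)

/-- the `i`-th strategy in a move sequence of II in Solovay's game -/
def mt (m : B) (i : ℕ) : Str := fun l => m (Nat.pair (2 * i + 1) (Encodable.encode l))

theorem exists_mw_mt (w : ℕ → B) (t : ℕ → Str) : ∃ m, (∀ i, mw m i = w i) ∧ ∀ i, mt m i = t i := by
  refine ⟨fun k => if k.unpair.1 % 2 = 0 then w (k.unpair.1 / 2) k.unpair.2 else
    t (k.unpair.1 / 2) (Denumerable.ofNat (List ℕ) k.unpair.2), fun i => ?_, fun i => ?_⟩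
  · funext n
    simp [mw]
  · funext l
    have h1 : (2 * i + 1) % 2 = 1 := by omega
    have h2 : (2 * i + 1) / 2 = i := by omega
    simp [mt, h1, h2]

/-- `m` is a good response to `v` -/
def Resp (Q : B → Str → Prop) (m v : B) : Prop :=
  (∀ i, WO (mw m i) ∧ Q (mw m i) (mt m i)) ∧ ∃ i, LE (mw m i) v

/-- payoff of Solovay's game -/
def SP (Q : B → Str → Prop) : Set B := {p | Cd (evn p) ∧ ¬ Resp Q (odd p) (evn p)}

theorem range_rk_eq_Iio {v : B} (h : PWO v) : ∃ β < ω₁, range (rk v) = Iio β := by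
  let β := ⨆ i, Order.succ (rk v i)
  refine ⟨β, Ordinal.iSup_lt_omega_one fun i =>
    (Cardinal.isSuccLimit_omega 1).succ_lt (rk_lt_omega_one v i), ?_⟩
  ext o
  constructor
  · rintro ⟨i, rfl⟩
    exact (Order.lt_succ _).trans_le (Ordinal.le_iSup (fun i => Order.succ (rk v i)) i)
  · intro ho
    obtain ⟨i, hi⟩ := (Ordinal.lt_iSup_iff).1 ho
    rw [Order.lt_succ_iff] at hi
    rcases hi.eq_or_lt with hi | hi
    · exact ⟨i, hi.symm⟩
    · obtain ⟨j, _, hj⟩ := exists_rk_eq h hi
      exact ⟨j, hj⟩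

theorem omega_le_of_injective {β : Ordinal.{0}} {f : ℕ → Ordinal.{0}} (hf : Function.Injective f)
    (h : ∀ n, f n < β) : ω ≤ β := by
  have h1 : Infinite (Iio β) := Infinite.of_injective (fun n => (⟨f n, h n⟩ : Iio β))
    fun a b hab => hf (congrArg Subtype.val hab)
  have h3 : Cardinal.mk (Iio β) = Cardinal.lift.{1} β.card := Cardinal.mk_Iio_ordinal β
  rw [← Ordinal.aleph0_le_card]
  rw [Cardinal.infinite_iff, h3, ← Cardinal.lift_aleph0.{1,0}, Cardinal.lift_le] at h1
  exact h1

theorem Cd_range {v : B} (h : Cd v) : ∃ β < ω₁, ω ≤ β ∧ range (rk v) = Iio β := by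
  obtain ⟨hv, w, hw, hwv⟩ := h
  obtain ⟨β, h1, h2⟩ := range_rk_eq_Iio hv
  refine ⟨β, h1, ?_, h2⟩
  rw [LE_iff hw.toPWO hv, h2] at hwv
  refine omega_le_of_injective (f := rk w) (fun i j => hw.rk_inj) fun n => ?_
  have : rk w n ∈ Iio β := hwv ▸ mem_range_self n
  exact this

/-- Solovay's uniformization. -/
theorem solovay {Q : B → Str → Prop} (hQ : ∀ w, WO w → ∃ t, Q w t) (hd : Determined (SP Q)) :
    ∃ σ : Str, ∀ v, Cd v → Resp Q (appII σ v) v := by
  rcases hd with ⟨ρ, hρ⟩ | ⟨τ, hτ⟩
  · exfalso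
    have h1 : ∀ b, Cd (appI ρ b) ∧ ¬ Resp Q b (appI ρ b) := fun b => by
      have := hρ b
      simpa [SP] using this
    obtain ⟨γ, hγ, hb⟩ := boundedness (continuous_appI ρ) fun m => (h1 m).1.1.wellFounded
    let S : Set Ordinal.{0} := {β | ω ≤ β ∧ β ≤ max γ ω}
    have hS : S.Countable := by
      have h2 : Order.succ (max γ ω) < ω₁ :=
        (Cardinal.isSuccLimit_omega 1).succ_lt (max_lt hγ Ordinal.omega0_lt_omega_one)
      have h3 := (countable_infinite_Iio (β := Order.succ (max γ ω))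
        ((le_max_right _ _).trans (Order.le_succ _)) h2).1
      exact (Set.countable_coe_iff.1 h3).mono fun β hβ => Order.lt_succ_iff.2 hβ.2
    have hSn : S.Nonempty := ⟨ω, le_rfl, le_max_right _ _⟩
    obtain ⟨e, he⟩ := hS.exists_eq_range hSn
    have h4 : ∀ i, ∃ w, WO w ∧ range (rk w) = Iio (e i) := fun i => by
      have h5 : e i ∈ S := he ▸ mem_range_self i
      exact exists_WO h5.1 (h5.2.trans_lt (max_lt hγ Ordinal.omega0_lt_omega_one))
    choose w hw hwr using h4
    choose t ht using fun i => hQ (w i) (hw i)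
    obtain ⟨m, hm1, hm2⟩ := exists_mw_mt w t
    obtain ⟨hc, hn⟩ := h1 m
    apply hn
    refine ⟨fun i => ?_, ?_⟩
    · rw [hm1, hm2]
      exact ⟨hw i, ht i⟩
    · obtain ⟨β, hβ1, hβ2, hβ3⟩ := Cd_range hc
      have h6 : β ≤ γ := by
        by_contra hlt
        rw [not_le] at hlt
        have : γ ∈ range (rk (appI ρ m)) := hβ3 ▸ hlt
        obtain ⟨i, hi⟩ := this
        exact absurd (hb m i) (by rw [hi]; exact lt_irrefl _)
      have h7 : β ∈ S := ⟨hβ2, h6.trans (le_max_left _ _)⟩
      rw [he] at h7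
      obtain ⟨i, hi⟩ := h7
      refine ⟨i, ?_⟩
      rw [hm1, LE_iff (hw i).toPWO hc.1, hwr, hβ3, hi]
  · refine ⟨τ, fun v hv => ?_⟩
    have := hτ v
    simp only [SP, mem_ofPred_eq, evn_join, odd_join, not_and, not_not] at this
    exact this hv

end Run7.h324
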